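import Pool.Agent.H64.PC.Chain
import Pool.Agent.H8.KS6.BoxR

/-!
# Row FULL

The information `nfo` of the box labels about the line grows by two full rows and by the increment
of the precision of the frame, from the window `w` to the window `w + X`, at the same velocity
scale, if the unit blocks at the contexts `(w, q + j X)` are full.
-/

set_option autoImplicit false

namespace Pool.PC

open Finset Real
open Pool.Agent.H49.Ent Pool.Agent.H32.Dense Pool.STK Pool.KA Pool.KSAT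

namespace Full

/-! ### Information and entropy -/

/-- **The information of nested labels.** `θ` is anything which determines the window of the finer
label. -/
theorem nfo_step {m J : ℕ} (F : Fam m J) {S S' Θ : Type} {w X : ℕ} (hwX : w + X ≤ J)
    (b0 : F.Ω → S) (b2 : F.Ω → S') (θ : F.Ω → Θ) (h0 : Det F.p (slam F w) b0)
    (h0Z : Det F.p b0 F.Z) (h2T : Det F.p b2 (F.T1 (w + X)))
    (hθ : Det F.p θ (F.T1 (w + X))) :
    nfo F w b0 + CH F.p b2 (fun ω => (b0 ω, θ ω)) ≤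
      nfo F (w + X) b2 + CH F.p b0 (fun ω => (b2 ω, F.Z ω)) := by
  have hp := F.isLaw
  have hp0 := hp.nonneg
  have eT : ∀ ω ω', F.T1 (w + X) ω = F.T1 (w + X) ω' → F.T1 w ω = F.T1 w ω' := by
    intro ω ω' h
    rw [← T1_div F hwX ω, ← T1_div F hwX ω', h]
  have E1 := CH_chain hp0 b2 b0 F.Z
  have E1' := CH_chain hp0 b0 b2 F.Z
  have E2 : CH F.p (fun ω => (b2 ω, b0 ω)) F.Z = CH F.p (fun ω => (b0 ω, b2 ω)) F.Z := by
    refine CH_congr hp0 ?_ ?_ (fun _ _ _ _ h => h) (fun _ _ _ _ h => h)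
    · intro ω ω' _ _ h
      simp only [Prod.mk.injEq] at h ⊢
      tauto
    · intro ω ω' _ _ h
      simp only [Prod.mk.injEq] at h ⊢
      tauto
  have E3 : CH F.p b2 (fun ω => (b0 ω, F.Z ω)) =
      CH F.p (F.T1 (w + X)) (fun ω => (b0 ω, F.Z ω)) +
      CH F.p b2 (fun ω => (F.T1 (w + X) ω, (b0 ω, F.Z ω))) := by
    rw [← CH_chain hp0]
    refine CH_congr hp0 ?_ ?_ (fun _ _ _ _ h => h) (fun _ _ _ _ h => h)
    · intro ω ω' a b h
      have h1 := (Prod.ext_iff.mp h).1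
      exact Prod.ext h1 (h2T ω ω' a b h1)
    · intro ω ω' _ _ h
      exact (Prod.ext_iff.mp (Prod.ext_iff.mp h).1).1
  have E4 : CH F.p b2 (fun ω => (b0 ω, θ ω)) ≤
      CH F.p b2 (fun ω => (F.T1 (w + X) ω, (b0 ω, F.Z ω))) := by
    refine CH_mono_cond hp0 fun ω ω' a b h => ?_
    have h1 := Prod.ext_iff.mp h
    exact Prod.ext (hθ ω ω' a b h1.2) (Prod.ext h1.1 (h0Z ω ω' a b h1.1))
  have E5 : CH F.p (F.T1 (w + X)) (slam F w) ≤
      CH F.p (F.T1 (w + X)) (fun ω => (b0 ω, F.Z ω)) := by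
    refine CH_mono_cond hp0 fun ω ω' a b h => ?_
    have h1 : F.Z ω = F.Z ω' := (Prod.ext_iff.mp (Prod.ext_iff.mp h).2).1
    exact Prod.ext (h0 ω ω' a b h) h1
  have E6 : CH F.p (F.T1 (w + X)) (fun ω => (F.l ω, F.Z ω)) ≤
      CH F.p (F.T1 w) (fun ω => (F.l ω, F.Z ω)) + CH F.p (F.T1 (w + X)) (slam F w) := by
    have h1 := CH_le_add hp0 (F.T1 (w + X)) (F.T1 w) (fun ω => (F.l ω, F.Z ω))
    have h2 : CH F.p (F.T1 (w + X)) (fun ω => (F.T1 w ω, (F.l ω, F.Z ω))) ≤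
        CH F.p (F.T1 (w + X)) (slam F w) := by
      refine CH_mono_cond hp0 fun ω ω' _ _ h => ?_
      unfold slam
      simp only [Prod.mk.injEq] at h ⊢
      tauto
    linarith
  unfold nfo
  linarith

end Full

/-! ### Boxes in the plane -/

/-- The precisions of the velocity. -/
def cv2 (l q : ℕ) (i : Fin 2) : ℕ := ![q, l + q] i

/-- `M` is the frame with the slope `a` in the chart `σ`. -/
def Isf (σ : Fin 2 → Fin 2) (M : Fin 2 → Fin 2 → ℝ) (a : ℝ) : Prop :=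
  ∀ x : Fin 2 → ℝ, mco M x 0 = x (σ 0) ∧ mco M x 1 = x (σ 1) - a * x (σ 0)

namespace Full

variable {J : ℕ} {F : Fam 2 J} {p : F.Ω → ℝ} {σ : Fin 2 → Fin 2}

theorem isf_inj {M : Fin 2 → Fin 2 → ℝ} {a a' : ℝ} (h : Isf σ M a) (h' : Isf σ M a') :
    a = a' := by
  have h1 := (h fun _ => 1).2
  have h2 := (h' fun _ => 1).2
  linarith

/-- The position at the exact time is known in the context. -/
theorem pos_near {w l q : ℕ} (hw : w ≤ J) {M : F.Ω → Fin 2 → Fin 2 → ℝ} {a al : F.Ω → ℝ}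
    {D : ℝ} {ω ω' : F.Ω} (hM : Isf σ (M ω) (a ω)) (hal : |al ω - a ω| ≤ D / 2 ^ l)
    (hb : F.blb w (cv2 l q) M ω = F.blb w (cv2 l q) M ω') (hT : F.T ω = F.T ω')
    (hA : al ω = al ω') :
    |2 ^ (q + w) * (F.x ω (σ 0) - F.x ω' (σ 0))| ≤ 2 * (1 + D) ∧
    |2 ^ (l + q + w) * ((F.x ω (σ 1) - al ω * F.x ω (σ 0)) -
      (F.x ω' (σ 1) - al ω' * F.x ω' (σ 0)))| ≤ 2 * (1 + D) := by
  have h2 : (0 : ℝ) < 2 ^ l := by positivity
  have hD : 0 ≤ D := by
    have := (abs_nonneg _).trans hal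
    rw [le_div_iff₀ h2] at this
    linarith
  have h0 := Box.mx_near hw hb hT 0
  have h1 := Box.mx_near hw hb hT 1
  rw [(hM _).1, (hM _).1, ← mul_sub] at h0
  rw [(hM _).2, (hM _).2, ← mul_sub] at h1
  change |(2 : ℝ) ^ (q + w) * (F.x ω (σ 0) - F.x ω' (σ 0))| ≤ 2 at h0
  change |(2 : ℝ) ^ (l + q + w) * _| ≤ 2 at h1
  refine ⟨h0.trans (by linarith), ?_⟩
  rw [← hA]
  have e : (2 : ℝ) ^ (l + q + w) * ((F.x ω (σ 1) - al ω * F.x ω (σ 0)) -
      (F.x ω' (σ 1) - al ω * F.x ω' (σ 0))) =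
      2 ^ (l + q + w) * (F.x ω (σ 1) - a ω * F.x ω (σ 0) -
        (F.x ω' (σ 1) - a ω * F.x ω' (σ 0))) -
      (2 ^ l * (al ω - a ω)) * (2 ^ (q + w) * (F.x ω (σ 0) - F.x ω' (σ 0))) := by
    have e1 : (2 : ℝ) ^ (l + q + w) = 2 ^ l * 2 ^ (q + w) := by rw [← pow_add]; congr 1; ring
    rw [e1]
    ring
  rw [e]
  have h3 : |2 ^ l * (al ω - a ω)| ≤ D := by
    rw [abs_mul, abs_of_pos h2]
    have := mul_le_mul_of_nonneg_left hal h2.le
    rwa [mul_div_cancel₀ _ h2.ne'] at this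
  refine (abs_sub _ _).trans ?_
  rw [abs_mul (2 ^ l * (al ω - a ω))]
  have h4 := mul_le_mul h3 h0 (abs_nonneg _) hD
  linarith

/-- The rows of the context are the rows of the position at the exact time. -/
theorem rows_eq {w l q : ℕ} (hw : w ≤ J) {M : F.Ω → Fin 2 → Fin 2 → ℝ} {a al S : F.Ω → ℝ}
    {ω ω' : F.Ω} (hM : Isf σ (M ω) (a ω)) (hM' : Isf σ (M ω') (a ω'))
    (hS : S ω = 2 ^ l * (al ω - a ω)) (hS' : S ω' = 2 ^ l * (al ω' - a ω'))
    (hb : F.blb w (cv2 l q) M ω = F.blb w (cv2 l q) M ω') (hT : F.T ω = F.T ω')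
    (hA : al ω = al ω') :
    F.mx w (cv2 l q) M ω 0 - F.mx w (cv2 l q) M ω' 0 =
      2 ^ (q + w) * (F.x ω (σ 0) - F.x ω' (σ 0)) ∧
    (F.mx w (cv2 l q) M ω 1 - S ω * F.mx w (cv2 l q) M ω 0) -
      (F.mx w (cv2 l q) M ω' 1 - S ω' * F.mx w (cv2 l q) M ω' 0) =
      2 ^ (l + q + w) * ((F.x ω (σ 1) - al ω * F.x ω (σ 0)) -
        (F.x ω' (σ 1) - al ω' * F.x ω' (σ 0))) := by
  have hMM : M ω = M ω' := (Box.mlb_ext hb).2.1
  have haa : a ω = a ω' := by
    rw [← hMM] at hM'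
    exact isf_inj hM hM'
  have k := Box.mkn_det hb hT
  have p0 := Box.pos_eq F hw (cv2 l q) M ω 0
  have p0' := Box.pos_eq F hw (cv2 l q) M ω' 0
  have p1 := Box.pos_eq F hw (cv2 l q) M ω 1
  have p1' := Box.pos_eq F hw (cv2 l q) M ω' 1
  rw [← k, (hM' _).1] at p0'
  rw [← k, (hM' _).2] at p1'
  rw [(hM _).1] at p0
  rw [(hM _).2] at p1
  change (2 : ℝ) ^ (q + w) * _ = _ at p0
  change (2 : ℝ) ^ (q + w) * _ = _ at p0'
  change (2 : ℝ) ^ (l + q + w) * _ = _ at p1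
  change (2 : ℝ) ^ (l + q + w) * _ = _ at p1'
  have e0 : F.mx w (cv2 l q) M ω 0 - F.mx w (cv2 l q) M ω' 0 =
      2 ^ (q + w) * (F.x ω (σ 0) - F.x ω' (σ 0)) := by
    rw [mul_sub, p0, p0']
    ring
  refine ⟨e0, ?_⟩
  have e1 : F.mx w (cv2 l q) M ω 1 - F.mx w (cv2 l q) M ω' 1 =
      2 ^ (l + q + w) * ((F.x ω (σ 1) - a ω * F.x ω (σ 0)) -
        (F.x ω' (σ 1) - a ω * F.x ω' (σ 0))) := by
    rw [← haa] at p1'
    rw [mul_sub, p1, p1']
    ring
  have e2 : (F.mx w (cv2 l q) M ω 1 - S ω * F.mx w (cv2 l q) M ω 0) -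
      (F.mx w (cv2 l q) M ω' 1 - S ω' * F.mx w (cv2 l q) M ω' 0) =
      (F.mx w (cv2 l q) M ω 1 - F.mx w (cv2 l q) M ω' 1) -
      (2 ^ l * (al ω - a ω)) * (F.mx w (cv2 l q) M ω 0 - F.mx w (cv2 l q) M ω' 0) := by
    rw [hS', hS, ← hA, ← haa]
    ring
  rw [e2, e1, e0, ← hA]
  have e3 : (2 : ℝ) ^ (l + q + w) = 2 ^ l * 2 ^ (q + w) := by rw [← pow_add]; congr 1; ring
  rw [e3]
  ring

/-- The coarser label is a function of the finer one. -/
theorem blb_crs {w l q r : ℕ} {M : F.Ω → Fin 2 → Fin 2 → ℝ} {ω ω' : F.Ω} (h : q ≤ r)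
    (he : F.blb w (cv2 l r) M ω = F.blb w (cv2 l r) M ω') :
    F.blb w (cv2 l q) M ω = F.blb w (cv2 l q) M ω' := by
  obtain ⟨h1, h2, h3, h4, h5⟩ := Box.mlb_ext he
  have hc : ∀ i, cv2 l q i ≤ cv2 l r i := by
    intro i
    fin_cases i
    · exact h
    · exact Nat.add_le_add_left h l
  refine Box.mlb_mk h1 h2 ?_ ?_ h5
  · funext i
    exact Chn.fl_crs1 (Nat.add_le_add_right (hc i) w) (congrFun h3 i)
  · funext i
    exact Chn.fl_crs1 (hc i) (congrFun h4 i)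

end Full

/-- **The box from the unit blocks.** The label of the window `w + X` in the context of the window
`w`, given anything which determines the exact time and the slope `al` at the exact point. -/
theorem ue_box (D : ℝ) (hD : 0 ≤ D) : ∃ C : ℝ, 0 ≤ C ∧ ∀ {J : ℕ} (F : Fam 2 J) (p : F.Ω → ℝ)
    (_ : IsLaw p) (σ : Fin 2 → Fin 2) {Θ : Type} (θ : F.Ω → Θ) (w X l l' q n : ℕ)
    (M M' : F.Ω → Fin 2 → Fin 2 → ℝ) (a a' al S : F.Ω → ℝ) (e : ℕ → ℝ),
    w + X ≤ J → l ≤ l' → l' ≤ l + n * X → Det p θ F.T → Det p θ al →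
    (∀ ω, 0 < p ω → Isf σ (M ω) (a ω) ∧ Isf σ (M' ω) (a' ω) ∧ |al ω - a ω| ≤ D / 2 ^ l ∧
      |al ω - a' ω| ≤ D / 2 ^ l' ∧ S ω = 2 ^ l * (al ω - a ω)) →
    (∀ j, j ≤ n → 0 ≤ e j) →
    (∀ j, j ≤ n → 2 * X * Real.log 2 - e j ≤
      CH p (fun ω => (⌊(2 : ℝ) ^ X * (F.mx w (cv2 l (q + j * X)) M ω 1 -
          S ω * F.mx w (cv2 l (q + j * X)) M ω 0)⌋,
        ⌊(2 : ℝ) ^ X * F.mx w (cv2 l (q + j * X)) M ω 0⌋))
        (fun ω => (F.blb w (cv2 l (q + j * X)) M ω, θ ω))) →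
    (2 * X + (l' - l : ℕ)) * Real.log 2 - ∑ j ∈ Finset.range (n + 1), e j - C * (n + 2) ≤
      CH p (F.blb (w + X) (cv2 l' q) M') (fun ω => (F.blb w (cv2 l q) M ω, θ ω)) := by
  obtain ⟨C, hC, key⟩ := Chn.chain_pure (2 * (1 + D)) (by positivity)
  refine ⟨C, hC, ?_⟩
  intro J F p hp σ Θ θ w X l l' q n M M' a a' al S e hwX hl hln hT hA hfr he hful
  have hw : w ≤ J := by omega
  have h0 : F.blb w (cv2 l q) M = F.blb w (cv2 l (q + 0 * X)) M := by
    rw [Nat.zero_mul, Nat.add_zero]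
  have h1 := key hp (fun j => F.blb w (cv2 l (q + j * X)) M) (F.blb (w + X) (cv2 l' q) M') θ
    (fun ω => F.x ω (σ 0)) (fun ω => F.x ω (σ 1) - al ω * F.x ω (σ 0))
    (fun j ω => F.mx w (cv2 l (q + j * X)) M ω 1 - S ω * F.mx w (cv2 l (q + j * X)) M ω 0)
    (fun j ω => F.mx w (cv2 l (q + j * X)) M ω 0) (q + w) (l + q + w) X (l' - l) n e
    (by omega) he ?_ ?_ hful ?_
  · rw [h0]
    exact h1
  · intro j _ ω ω' _ _ h
    exact Full.blb_crs (by omega) h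
  · intro j _ ω ω' hω hω' hb hθ
    obtain ⟨f1, f2, f3, f4, f5⟩ := hfr ω hω
    obtain ⟨g1, g2, g3, g4, g5⟩ := hfr ω' hω'
    have k1 := Full.pos_near hw f1 f3 hb (hT ω ω' hω hω' hθ) (hA ω ω' hω hω' hθ)
    have k2 := Full.rows_eq hw f1 g1 f5 g5 hb (hT ω ω' hω hω' hθ) (hA ω ω' hω hω' hθ)
    have e1 : q + w + j * X = q + j * X + w := by ring
    have e2 : l + q + w + j * X = l + (q + j * X) + w := by ring
    rw [e1, e2]
    exact ⟨k1.1, k1.2, k2.1, k2.2⟩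
  · intro ω ω' hω hω' hb hθ
    obtain ⟨f1, f2, f3, f4, f5⟩ := hfr ω hω
    have k1 := Full.pos_near hwX f2 f4 hb (hT ω ω' hω hω' hθ) (hA ω ω' hω hω' hθ)
    have e1 : q + w + X = q + (w + X) := by ring
    have e2 : l + q + w + X + (l' - l) = l' + q + (w + X) := by omega
    rw [e1, e2]
    exact k1

/-! ### Nested labels -/

/-- The label of the window `w` is known in the finer label of the window `w + X`. -/
theorem blb_nest (D : ℝ) (hD : 0 ≤ D) : ∃ C : ℝ, 0 ≤ C ∧ ∀ {J : ℕ} (F : Fam 2 J) (p : F.Ω → ℝ)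
    (_ : IsLaw p) (σ : Fin 2 → Fin 2) {Θ : Type} (W : F.Ω → Θ) (w X l l' q r : ℕ)
    (M M' : F.Ω → Fin 2 → Fin 2 → ℝ) (a a' : F.Ω → ℝ), w + X ≤ J → l ≤ l' → q ≤ r →
    (∀ ω, 0 < p ω → Isf σ (M ω) (a ω) ∧ Isf σ (M' ω) (a' ω) ∧ |a ω - a' ω| ≤ D / 2 ^ l ∧
      ∃ k : ℤ, a ω = k / 2 ^ l) →
    Det p W (F.blb (w + X) (cv2 l' r) M') →
    CH p (F.blb w (cv2 l q) M) W ≤ C := by
  have hc1 : 0 ≤ Real.log (2 * (2 * D + 1) + 1) := Real.log_nonneg (by linarith)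
  have hc2 : 0 ≤ Real.log (4 * (2 : ℕ) * (1 + D) + 3) := Real.log_nonneg (by
    push_cast
    linarith)
  refine ⟨Real.log (2 * (2 * D + 1) + 1) + 2 * ((2 : ℕ) * Real.log (4 * (2 : ℕ) * (1 + D) + 3)),
    by positivity, ?_⟩
  intro J F p hp σ Θ W w X l l' q r M M' a a' hwX hl hq hfr hW
  have hp0 := hp.nonneg
  have hw : w ≤ J := by omega
  have h2 : (0 : ℝ) < 2 ^ l := by positivity
  have eT : ∀ ω ω', F.T1 (w + X) ω = F.T1 (w + X) ω' → F.T1 w ω = F.T1 w ω' := by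
    intro ω ω' h
    rw [← T1_div F hwX ω, ← T1_div F hwX ω', h]
  have k1 : CH p (fun ω => ⌊(2 : ℝ) ^ l * a ω⌋) W ≤ Real.log (2 * (2 * D + 1) + 1) := by
    refine Chn.CH_z hp _ _ fun ω ω' hω hω' h => Chn.fl_dist ?_
    obtain ⟨-, f2, f3, -⟩ := hfr ω hω
    obtain ⟨-, g2, g3, -⟩ := hfr ω' hω'
    have hM' : M' ω = M' ω' := (Box.mlb_ext (hW ω ω' hω hω' h)).2.1
    rw [← hM'] at g2
    have haa := Full.isf_inj f2 g2
    rw [← haa] at g3
    rw [← mul_sub, abs_mul, abs_of_pos h2]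
    have e1 : a ω - a ω' = (a ω - a' ω) - (a ω' - a' ω) := by ring
    have e2 : |a ω - a ω'| ≤ 2 * D / 2 ^ l := by
      rw [e1]
      refine (abs_sub _ _).trans ?_
      have : 2 * D / (2 : ℝ) ^ l = D / 2 ^ l + D / 2 ^ l := by ring
      rw [this]
      exact add_le_add f3 g3
    have := mul_le_mul_of_nonneg_left e2 h2.le
    rwa [mul_div_cancel₀ _ h2.ne'] at this
  have k2 := CH_le_add hp0 (F.blb w (cv2 l q) M) (fun ω => ⌊(2 : ℝ) ^ l * a ω⌋) W
  have k3 : CH p (F.blb w (cv2 l q) M) (fun ω => (⌊(2 : ℝ) ^ l * a ω⌋, W ω)) ≤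
      2 * ((2 : ℕ) * Real.log (4 * (2 : ℕ) * (1 + D) + 3)) := by
    refine Box.CH_mlb (F := F) (p := p) hp (g := w + X) (g' := w)
      (k := fun i => cv2 l' r i + (w + X)) (c := cv2 l' r) (k' := fun i => cv2 l q i + w)
      (c' := cv2 l q) (kk := fun i => cv2 l' r i + w) (M := M') (M' := M) (D := 1 + D) hwX hw
      (by linarith) (fun i => by omega) (fun i => by
        have : min (w + X) w = w := by omega
        rw [this]) ?_ _ ?_
    · intro ω hω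
      obtain ⟨f1, f2, f3, -⟩ := hfr ω hω
      have hL : Cg (M' ω) (M ω) ![![1, 0], ![-(a ω - a' ω), 1]] := by
        intro x i
        fin_cases i
        · change mco (M ω) x 0 = ∑ j, _ * _
          rw [Fin.sum_univ_two, (f1 x).1, (f2 x).1]
          simp
        · change mco (M ω) x 1 = ∑ j, _ * _
          rw [Fin.sum_univ_two, (f1 x).2, (f2 x).1, (f2 x).2]
          simp
          ring
      have hE : ∀ (A : ℕ) (i j : Fin 2), |(![![1, 0], ![-(a ω - a' ω), 1]] : Fin 2 → Fin 2 → ℝ) i j| ≤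
          (1 + D) * 2 ^ (cv2 l' r j + A) / 2 ^ (cv2 l q i + A) := by
        intro A i j
        have hpw : ∀ x y : ℕ, x ≤ y → (1 : ℝ) ≤ 2 ^ y / 2 ^ x := by
          intro x y hxy
          rw [le_div_iff₀ (by positivity), one_mul]
          exact pow_le_pow_right₀ (by norm_num) hxy
        fin_cases i <;> fin_cases j
        · change |(1 : ℝ)| ≤ (1 + D) * 2 ^ (r + A) / 2 ^ (q + A)
          rw [abs_one, mul_div_assoc]
          have := hpw (q + A) (r + A) (by omega)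
          nlinarith
        · change |(0 : ℝ)| ≤ _
          rw [abs_zero]
          positivity
        · change |-(a ω - a' ω)| ≤ (1 + D) * 2 ^ (r + A) / 2 ^ (l + q + A)
          rw [abs_neg]
          refine f3.trans ?_
          rw [div_le_div_iff₀ h2 (by positivity)]
          have e1 : (2 : ℝ) ^ (l + q + A) = 2 ^ l * 2 ^ (q + A) := by
            rw [← pow_add]; congr 1; ring
          rw [e1]
          have e2 : (2 : ℝ) ^ (q + A) ≤ 2 ^ (r + A) :=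
            pow_le_pow_right₀ (by norm_num) (by omega)
          have e3 : (0 : ℝ) < 2 ^ (q + A) := by positivity
          have e4 : D * 2 ^ (q + A) ≤ (1 + D) * 2 ^ (r + A) := by nlinarith
          calc D * (2 ^ l * 2 ^ (q + A)) = D * 2 ^ (q + A) * 2 ^ l := by ring
            _ ≤ (1 + D) * 2 ^ (r + A) * 2 ^ l := mul_le_mul_of_nonneg_right e4 h2.le
        · change |(1 : ℝ)| ≤ (1 + D) * 2 ^ (l' + r + A) / 2 ^ (l + q + A)
          rw [abs_one, mul_div_assoc]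
          have := hpw (l + q + A) (l' + r + A) (by omega)
          nlinarith
      refine ⟨_, hL, fun i j => ?_, fun i j => ?_⟩
      · exact hE w i j
      · exact hE 0 i j
    · intro ω ω' hω hω' h
      obtain ⟨f1, -, -, k, hk⟩ := hfr ω hω
      obtain ⟨g1, -, -, k', hk'⟩ := hfr ω' hω'
      have h1 := Prod.ext_iff.mp h
      have h3 := hW ω ω' hω hω' h1.2
      have h4 := Box.mlb_ext h3
      have haa : a ω = a ω' := by
        have h5 : ⌊(2 : ℝ) ^ l * a ω⌋ = ⌊(2 : ℝ) ^ l * a ω'⌋ := h1.1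
        rw [hk, hk', mul_div_cancel₀ _ h2.ne', mul_div_cancel₀ _ h2.ne', Int.floor_intCast,
          Int.floor_intCast] at h5
        rw [hk, hk', h5]
      refine ⟨h3, eT ω ω' h4.1, ?_⟩
      have hx : ∀ x i, mco (M ω) x i = mco (M ω') x i := by
        intro x i
        fin_cases i
        · exact (f1 x).1.trans (g1 x).1.symm
        · exact (f1 x).2.trans (by rw [haa]; exact (g1 x).2.symm)
      funext i j
      have := hx (fun k => if k = j then 1 else 0) i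
      unfold mco at this
      simpa using this
  linarith

/-- **Row FULL.** If the label of the window `w + X` has the entropy `E` in the context of the
window `w` and anything which determines the window `w + X`, the information grows by `E`. -/
theorem full_box (D : ℝ) (hD : 0 ≤ D) : ∃ C : ℝ, 0 ≤ C ∧ ∀ {J : ℕ} (F : Fam 2 J)
    (σ : Fin 2 → Fin 2) {Θ : Type} (θ : F.Ω → Θ) (w X l l' q : ℕ)
    (M M' : F.Ω → Fin 2 → Fin 2 → ℝ) (a a' : F.Ω → ℝ), w + X ≤ J → l ≤ l' →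
    Det F.p θ (F.T1 (w + X)) → Det F.p (slam F w) M →
    (∀ ω, 0 < F.p ω → Isf σ (M ω) (a ω) ∧ Isf σ (M' ω) (a' ω) ∧ |a ω - a' ω| ≤ D / 2 ^ l ∧
      ∃ k : ℤ, a ω = k / 2 ^ l) →
    nfo F w (F.blb w (cv2 l q) M) +
      CH F.p (F.blb (w + X) (cv2 l' q) M') (fun ω => (F.blb w (cv2 l q) M ω, θ ω)) ≤
      nfo F (w + X) (F.blb (w + X) (cv2 l' q) M') + C := by
  obtain ⟨C, hC, key⟩ := blb_nest D hD
  refine ⟨C, hC, ?_⟩
  intro J F σ Θ θ w X l l' q M M' a a' hwX hl hθ hM hfr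
  have h1 := key F F.p F.isLaw σ (fun ω => (F.blb (w + X) (cv2 l' q) M' ω, F.Z ω)) w X l l' q q
    M M' a a' hwX hl le_rfl hfr (fun ω ω' _ _ h => (Prod.ext_iff.mp h).1)
  have h2 := Full.nfo_step F hwX (F.blb w (cv2 l q) M) (F.blb (w + X) (cv2 l' q) M') θ
    (by
      intro ω ω' hω hω' h
      have e1 : F.l ω = F.l ω' := (Prod.ext_iff.mp h).1
      have e2 := Prod.ext_iff.mp (Prod.ext_iff.mp h).2
      exact (Box.label_det F e1 e2.2 (hM ω ω' hω hω' h) e2.1).1)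
    (fun ω ω' _ _ h => (Box.mlb_ext h).2.2.2.2) (fun ω ω' _ _ h => (Box.mlb_ext h).1) hθ
  linarith

end Pool.PC
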