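import Pool.Agent.H64.PC.Jmp
import Pool.Agent.H64.PC.Full
import Pool.Agent.H83.UEG.Two

/-!
# THETA: the full steps

The contexts `F.ctt` and the boxes `F.blb w (cv2 l q) (frm2 σ a)` are the same; row FULL for the
contexts `F.ctt`.
-/

set_option autoImplicit false

namespace Pool.PC

open Finset Real
open Pool.Agent.H49.Ent Pool.Agent.H32.Dense Pool.STK Pool.KA Pool.KSAT Pool.UEG

variable {J : ℕ}

/-- `z` is the frame with the slope `a`, in the chart `σ`. -/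
def Zof {F : Fam 2 J} (σ : Fin 2 → Fin 2) (a : F.Ω → ℝ) (z : F.Ω → Fin 2 → ℝ) : Prop :=
  ∀ ω, z ω (σ 0) = 0 ∧ z ω (σ 1) = a ω

namespace Stp

variable {F : Fam 2 J} {σ : Fin 2 → Fin 2} {a : F.Ω → ℝ} {z : F.Ω → Fin 2 → ℝ} {w q l : ℕ}

theorem ne01 (hσ : Function.Injective σ) : σ 1 ≠ σ 0 := fun h => by
  have := hσ h
  simp at this

theorem sg_cases (hσ : Function.Injective σ) (i : Fin 2) : i = σ 0 ∨ i = σ 1 := by
  have h := ne01 hσ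
  generalize σ 0 = x at h ⊢
  generalize σ 1 = y at h ⊢
  fin_cases i <;> fin_cases x <;> fin_cases y <;> simp at h ⊢

theorem mco0 (ω : F.Ω) (x : Fin 2 → ℝ) :
    mco (zfr (σ 0) (z ω)) x (σ 0) = mco (frm2 σ a ω) x 0 := by
  rw [zfr_i0]
  exact (mco2_0 σ (a ω) x).symm

theorem mco1 (hσ : Function.Injective σ) (hz : Zof σ a z) (ω : F.Ω) (x : Fin 2 → ℝ) :
    mco (zfr (σ 0) (z ω)) x (σ 1) = mco (frm2 σ a ω) x 1 := by
  rw [zfr_ne (ne01 hσ), (hz ω).2]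
  exact (mco2_1 σ (a ω) x).symm

/-- The context and the box have the same classes. -/
theorem ctz_blb (hσ : Function.Injective σ) (hz : Zof σ a z) (ω ω' : F.Ω) :
    F.ctz w q l (σ 0) z ω = F.ctz w q l (σ 0) z ω' ↔
      F.blb w (Pool.UEG.cv2 l q) (frm2 σ a) ω = F.blb w (Pool.UEG.cv2 l q) (frm2 σ a) ω' := by
  have c0 : qcv q l (σ 0) (σ 0) = Pool.UEG.cv2 l q 0 := by
    unfold qcv
    rw [if_pos rfl]
    rfl
  have c1 : qcv q l (σ 0) (σ 1) = Pool.UEG.cv2 l q 1 := by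
    unfold qcv
    rw [if_neg (ne01 hσ)]
    exact Nat.add_comm q l
  constructor
  · intro h
    obtain ⟨a1, a2, a3, a4, a5⟩ := Box.mlb_ext (show F.mlb w (fun i => qcv q l (σ 0) i + w)
      (qcv q l (σ 0)) (fun ω => zfr (σ 0) (z ω)) ω = F.mlb w (fun i => qcv q l (σ 0) i + w)
      (qcv q l (σ 0)) (fun ω => zfr (σ 0) (z ω)) ω' from h)
    have ha : a ω = a ω' := by
      have := zfr_eq a2 (ne01 hσ)
      rwa [(hz ω).2, (hz ω').2] at this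
    refine Box.mlb_mk a1 ?_ ?_ ?_ a5
    · unfold frm2
      rw [ha]
    · funext i
      fin_cases i
      · show ⌊(2 : ℝ) ^ (Pool.UEG.cv2 l q 0 + w) * mco (frm2 σ a ω) (F.x1 w ω) 0⌋ =
          ⌊(2 : ℝ) ^ (Pool.UEG.cv2 l q 0 + w) * mco (frm2 σ a ω') (F.x1 w ω') 0⌋
        rw [← c0, ← mco0 (z := z), ← mco0 (z := z)]
        exact congrFun a3 (σ 0)
      · show ⌊(2 : ℝ) ^ (Pool.UEG.cv2 l q 1 + w) * mco (frm2 σ a ω) (F.x1 w ω) 1⌋ =
          ⌊(2 : ℝ) ^ (Pool.UEG.cv2 l q 1 + w) * mco (frm2 σ a ω') (F.x1 w ω') 1⌋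
        rw [← c1, ← mco1 hσ hz, ← mco1 hσ hz]
        exact congrFun a3 (σ 1)
    · funext i
      fin_cases i
      · show ⌊(2 : ℝ) ^ (Pool.UEG.cv2 l q 0) * mco (frm2 σ a ω) (F.d ω) 0⌋ =
          ⌊(2 : ℝ) ^ (Pool.UEG.cv2 l q 0) * mco (frm2 σ a ω') (F.d ω') 0⌋
        rw [← c0, ← mco0 (z := z), ← mco0 (z := z)]
        exact congrFun a4 (σ 0)
      · show ⌊(2 : ℝ) ^ (Pool.UEG.cv2 l q 1) * mco (frm2 σ a ω) (F.d ω) 1⌋ =
          ⌊(2 : ℝ) ^ (Pool.UEG.cv2 l q 1) * mco (frm2 σ a ω') (F.d ω') 1⌋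
        rw [← c1, ← mco1 hσ hz, ← mco1 hσ hz]
        exact congrFun a4 (σ 1)
  · intro h
    obtain ⟨a1, a2, a3, a4, a5⟩ := Box.mlb_ext h
    have ha : a ω = a ω' := tfr2_eq hσ a2
    refine Box.mlb_mk (M := fun ω => zfr (σ 0) (z ω)) a1 ?_ ?_ ?_ a5
    · refine zfr_mk fun i hi => ?_
      rcases sg_cases hσ i with h1 | h1
      · exact absurd h1 hi
      · rw [h1, (hz ω).2, (hz ω').2, ha]
    · funext i
      rcases sg_cases hσ i with h1 | h1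
      · rw [h1]
        show ⌊(2 : ℝ) ^ (qcv q l (σ 0) (σ 0) + w) * mco (zfr (σ 0) (z ω)) (F.x1 w ω) (σ 0)⌋ =
          ⌊(2 : ℝ) ^ (qcv q l (σ 0) (σ 0) + w) * mco (zfr (σ 0) (z ω')) (F.x1 w ω') (σ 0)⌋
        rw [c0, mco0 (a := a), mco0 (a := a)]
        exact congrFun a3 0
      · rw [h1]
        show ⌊(2 : ℝ) ^ (qcv q l (σ 0) (σ 1) + w) * mco (zfr (σ 0) (z ω)) (F.x1 w ω) (σ 1)⌋ =
          ⌊(2 : ℝ) ^ (qcv q l (σ 0) (σ 1) + w) * mco (zfr (σ 0) (z ω')) (F.x1 w ω') (σ 1)⌋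
        rw [c1, mco1 hσ hz, mco1 hσ hz]
        exact congrFun a3 1
    · funext i
      rcases sg_cases hσ i with h1 | h1
      · rw [h1]
        show ⌊(2 : ℝ) ^ (qcv q l (σ 0) (σ 0)) * mco (zfr (σ 0) (z ω)) (F.d ω) (σ 0)⌋ =
          ⌊(2 : ℝ) ^ (qcv q l (σ 0) (σ 0)) * mco (zfr (σ 0) (z ω')) (F.d ω') (σ 0)⌋
        rw [c0, mco0 (a := a), mco0 (a := a)]
        exact congrFun a4 0
      · rw [h1]
        show ⌊(2 : ℝ) ^ (qcv q l (σ 0) (σ 1)) * mco (zfr (σ 0) (z ω)) (F.d ω) (σ 1)⌋ =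
          ⌊(2 : ℝ) ^ (qcv q l (σ 0) (σ 1)) * mco (zfr (σ 0) (z ω')) (F.d ω') (σ 1)⌋
        rw [c1, mco1 hσ hz, mco1 hσ hz]
        exact congrFun a4 1

/-- The context and the box, no truncation. -/
theorem ctt_blb (hσ : Function.Injective σ) (hz : Zof σ a z) (h : q + l + w ≤ J) (ω ω' : F.Ω) :
    F.ctt w q l (σ 0) z ω = F.ctt w q l (σ 0) z ω' ↔
      F.blb w (Pool.UEG.cv2 l q) (frm2 σ a) ω = F.blb w (Pool.UEG.cv2 l q) (frm2 σ a) ω' := by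
  rw [ctt_eq h]
  exact ctz_blb hσ hz ω ω'

end Stp

/-- The increment of the volume, no truncation. -/
theorem cVol_sub {J w X l l' q : ℕ} (hl : l ≤ l') (h : q + l' + (w + X) ≤ J) :
    cVol J (w + X) q l' - cVol J w q l = (2 * X + (l' - l : ℕ)) * Real.log 2 := by
  unfold cVol
  have e1 : min (q + (w + X)) J = q + (w + X) := min_eq_left (by omega)
  have e2 : min (q + l' + (w + X)) J = q + l' + (w + X) := min_eq_left (by omega)
  have e3 : min (q + w) J = q + w := min_eq_left (by omega)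
  have e4 : min (q + l + w) J = q + l + w := min_eq_left (by omega)
  rw [e1, e2, e3, e4, ← sub_mul]
  congr 1
  push_cast [Nat.cast_sub hl]
  ring

/-- **(S)**, the full step of the telescope: `θ` is anything which determines `T1 (w + X)`. -/
theorem step_S (D : ℝ) (hD : 0 ≤ D) : ∃ C : ℝ, 0 ≤ C ∧ ∀ {J : ℕ} (F : Fam 2 J)
    (σ : Fin 2 → Fin 2) {Θ : Type} (θ : F.Ω → Θ) (w X l l' q : ℕ) (a a' : F.Ω → ℝ)
    (z z' : F.Ω → Fin 2 → ℝ), Function.Injective σ → l ≤ l' → q + l' + (w + X) ≤ J →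
    Zof σ a z → Zof σ a' z' → Det F.p θ (F.T1 (w + X)) → Det F.p (slam F w) a →
    (∀ ω, 0 < F.p ω → |a ω - a' ω| ≤ D / 2 ^ l ∧ ∃ k : ℤ, a ω = k / 2 ^ l) →
    cNf F w q l (σ 0) z + CH F.p (F.blb (w + X) (Pool.UEG.cv2 l' q) (frm2 σ a'))
        (fun ω => (F.blb w (Pool.UEG.cv2 l q) (frm2 σ a) ω, θ ω)) ≤
      cNf F (w + X) q l' (σ 0) z' + C := by
  obtain ⟨C, hC, key⟩ := full_box D hD
  refine ⟨C, hC, ?_⟩
  intro J F σ Θ θ w X l l' q a a' z z' hσ hl hJ hz hz' hθ hcl hfr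
  have h1 := key F σ θ w X l l' q (frm2 σ a) (frm2 σ a') a a' (by omega) hl hθ
    (by
      intro ω ω' hω hω' h
      show tfr2 σ (a ω) = tfr2 σ (a ω')
      rw [hcl ω ω' hω hω' h])
    (fun ω hω => ⟨fun x => ⟨mco2_0 σ (a ω) x, mco2_1 σ (a ω) x⟩,
      fun x => ⟨mco2_0 σ (a' ω) x, mco2_1 σ (a' ω) x⟩, (hfr ω hω).1, (hfr ω hω).2⟩)
  have e1 : cNf F w q l (σ 0) z = nfo F w (F.blb w (Pool.UEG.cv2 l q) (frm2 σ a)) :=
    Jmp.nfo_congr (Stp.ctt_blb hσ hz (by omega))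
  have e2 : cNf F (w + X) q l' (σ 0) z' =
      nfo F (w + X) (F.blb (w + X) (Pool.UEG.cv2 l' q) (frm2 σ a')) :=
    Jmp.nfo_congr (Stp.ctt_blb hσ hz' (by omega))
  rw [e1, e2]
  exact h1

end Pool.PC
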