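import Pool.Agent.H64.PC.Stp
import Pool.Agent.H83.UEG.Full
import Pool.Agent.H92.PC.Line
import Pool.Agent.H17.UEG.Cot

/-!
# THETA: the full step on the progression of windows

`F.wT T'`: the family with the time `T'`. If `T'` and `T` have the same `R` digits, the labels and
the information of the windows `w ≤ R` are the same. The full step of the telescope for `F`, from
the local theorem for `F.wT T'`.
-/

set_option autoImplicit false

namespace Pool.PC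

open Finset Real
open Pool.Agent.H49.Ent Pool.Agent.H32.Dense Pool.STK Pool.KA Pool.KSAT Pool.K2S Pool.UEG

/-- The family with another time. -/
noncomputable def wT {m J : ℕ} (F : Fam m J) (T' : F.Ω → ℕ) (h : ∀ ω, T' ω < 2 ^ J) : Fam m J :=
  { F with T := T', tim := h }

namespace Sfl

section any

variable {m J : ℕ} {F : Fam m J} {T' : F.Ω → ℕ} {h : ∀ ω, T' ω < 2 ^ J} {R w : ℕ}

theorem wT_T1 (hw : w ≤ R) (hR : R ≤ J) (hT : ∀ ω, T' ω / 2 ^ (J - R) = F.T ω / 2 ^ (J - R)) :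
    (wT F T' h).T1 w = F.T1 w := by
  funext ω
  show T' ω / 2 ^ (J - w) = F.T ω / 2 ^ (J - w)
  have e : J - w = (J - R) + (R - w) := by omega
  rw [e, pow_add, ← Nat.div_div_eq_div_mul, ← Nat.div_div_eq_div_mul]
  exact congrArg (fun x => x / 2 ^ (R - w)) (hT ω)

theorem wT_x1 (hw : w ≤ R) (hR : R ≤ J) (hT : ∀ ω, T' ω / 2 ^ (J - R) = F.T ω / 2 ^ (J - R)) :
    (wT F T' h).x1 w = F.x1 w := by
  funext ω i
  show F.u ω i + _ = F.u ω i + _
  rw [wT_T1 hw hR hT]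
  rfl

theorem wT_ctx (hw : w ≤ R) (hR : R ≤ J) (hT : ∀ ω, T' ω / 2 ^ (J - R) = F.T ω / 2 ^ (J - R))
    (q l : ℕ) (i0 : Fin m) (z : F.Ω → Fin m → ℝ) :
    ctx (wT F T' h) q i0 w l z = ctx F q i0 w l z := by
  unfold ctx tlb pps rvs
  rw [wT_T1 hw hR hT, wT_x1 hw hR hT]
  rfl

theorem wT_nfo (hw : w ≤ R) (hR : R ≤ J) (hT : ∀ ω, T' ω / 2 ^ (J - R) = F.T ω / 2 ^ (J - R))
    {S : Type} (b : F.Ω → S) : nfo (wT F T' h) w b = nfo F w b := by
  unfold nfo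
  rw [wT_T1 hw hR hT]
  rfl

end any

end Sfl

/-- The information in the two notations. -/
theorem cNf_ctx {m J : ℕ} {F : Fam m J} {w q l : ℕ} {i0 : Fin m} {z : F.Ω → Fin m → ℝ}
    (hq : q + w ≤ J) (hz0 : ∀ ω, z ω i0 = 0) :
    cNf F w q l i0 z = nfo F w (ctx F q i0 w l z) := by
  have e : min (q + w + l) J = min (q + l + w) J := by
    congr 1
    ring
  unfold ctx
  rw [e]
  exact Jmp.nfo_congr (Jmp.ctt_tlb hq hz0)

/-- **(S)** on the progression. The local theorem is stated for the family with the time `T'`. -/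
theorem sfull : ∃ C : ℝ, 0 ≤ C ∧ ∀ {J : ℕ} (F : Fam 2 J) (T' : F.Ω → ℕ)
    (hT' : ∀ ω, T' ω < 2 ^ J) (σ : Fin 2 → Fin 2) (wa wb : ℕ) (vp : ℕ → ℕ) (D R : ℕ)
    (a : ℕ → F.Ω → ℝ) (al : F.Ω → ℝ) (X V q w₁ j : ℕ) (ε : ℝ) (l : ℕ → ℕ)
    (z : ℕ → F.Ω → Fin 2 → ℝ), 0 ≤ ε → R ≤ J →
    (∀ ω, T' ω / 2 ^ (J - R) = F.T ω / 2 ^ (J - R)) →
    Rc2 (wT F T' hT') F.p σ wa wb vp D a al → wa ≤ w₁ + j * X → w₁ + (j + 1) * X ≤ wb →
    wb ≤ R → l j = vp (w₁ + j * X) → l (j + 1) = vp (w₁ + (j + 1) * X) →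
    Zof σ (a (w₁ + j * X)) (z j) → Zof σ (a (w₁ + (j + 1) * X)) (z (j + 1)) →
    l (j + 1) ≤ l j + V * X → q + (w₁ + (j + 1) * X) + l (j + 1) ≤ J →
    (∀ i ≤ V, Cc2 (wT F T' hT') F.p σ vp D a al X ε (w₁ + j * X) (q + i * X)) →
    (2 * X + (l (j + 1) - l j : ℕ)) * Real.log 2 - (V + 1) * (ε * X * Real.log 2) -
        C * (V + 2) ≤
      ni F (σ 0) q w₁ X l z (j + 1) - ni F (σ 0) q w₁ X l z j := by
  obtain ⟨C, hC, hue⟩ := ue_box 4 (by norm_num)
  obtain ⟨C', hC', hst⟩ := step_S 6 (by norm_num)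
  refine ⟨C + C', by linarith, ?_⟩
  intro J F T' hT' σ wa wb vp D R a al X V q w₁ j ε l z hε hRJ hTR hRc h1 h2 hbR hl hl' hz hz' hV
    hJ hcc
  obtain ⟨w, hw⟩ : ∃ w, w = w₁ + j * X := ⟨_, rfl⟩
  have hwX : w₁ + (j + 1) * X = w + X := by rw [hw]; ring
  rw [hwX] at h2 hl' hz' hJ
  rw [← hw] at h1 hl hz hcc
  rw [hl, hl'] at hV
  rw [hl'] at hJ
  have hwX1 : w ≤ w + X := Nat.le_add_right _ _
  have hmono := hRc.mono w (w + X) h1 hwX1 h2
  have key := full_of (F := wT F T' hT') (σ := σ) (wa := wa) (wb := wb) (vp := vp) (D := D)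
    (a := a) (al := al) (X := X) (V := V) (w := w) (q := q) hε hue hRc h1 h2 hV hcc
  have hp := F.isLaw
  have h3 := hst (wT F T' hT') σ (fun ω => (Uni.dg D al ω, T' ω)) w X (vp w) (vp (w + X)) q
    (a w) (a (w + X)) (z j) (z (j + 1)) hRc.inj hmono (by omega) hz hz'
    (by
      intro ω ω' _ _ e
      have e1 : T' ω = T' ω' := (Prod.ext_iff.mp e).2
      show T' ω / _ = T' ω' / _
      rw [e1])
    (hRc.det w h1 (by omega))
    (fun ω hω => ⟨by
      have g1 := hRc.near w h1 (by omega) ω hω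
      have g2 := hRc.near (w + X) (by omega) h2 ω hω
      have g3 : (3 : ℝ) / 2 ^ vp (w + X) ≤ 3 / 2 ^ vp w :=
        div_le_div_of_nonneg_left (by norm_num) (by positivity)
          (pow_le_pow_right₀ (by norm_num) hmono)
      have e1 : a w ω - a (w + X) ω = (al ω - a (w + X) ω) - (al ω - a w ω) := by ring
      have e2 : (6 : ℝ) / 2 ^ vp w = 3 / 2 ^ vp w + 3 / 2 ^ vp w := by ring
      rw [e1, e2]
      refine (abs_sub _ _).trans ?_
      linarith, hRc.grid w h1 (by omega) ω hω⟩)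
  have e1 : cNf (wT F T' hT') w q (vp w) (σ 0) (z j) = ni F (σ 0) q w₁ X l z j := by
    have g1 := cNf_ctx (F := wT F T' hT') (w := w) (q := q) (l := vp w) (i0 := σ 0)
      (z := z j) (by omega) (fun ω => (hz ω).1)
    have g2 := congrArg (nfo (wT F T' hT') w)
      (Sfl.wT_ctx (h := hT') (by omega : w ≤ R) hRJ hTR q (vp w) (σ 0) (z j))
    have g3 := Sfl.wT_nfo (h := hT') (by omega : w ≤ R) hRJ hTR
      (ctx F q (σ 0) w (vp w) (z j))
    refine g1.trans (g2.trans (g3.trans ?_))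
    unfold ni
    rw [← hw, hl]
  have e2 : cNf (wT F T' hT') (w + X) q (vp (w + X)) (σ 0) (z (j + 1)) =
      ni F (σ 0) q w₁ X l z (j + 1) := by
    have g1 := cNf_ctx (F := wT F T' hT') (w := w + X) (q := q) (l := vp (w + X)) (i0 := σ 0)
      (z := z (j + 1)) (by omega) (fun ω => (hz' ω).1)
    have g2 := congrArg (nfo (wT F T' hT') (w + X))
      (Sfl.wT_ctx (h := hT') (by omega : w + X ≤ R) hRJ hTR q (vp (w + X)) (σ 0) (z (j + 1)))
    have g3 := Sfl.wT_nfo (h := hT') (by omega : w + X ≤ R) hRJ hTR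
      (ctx F q (σ 0) (w + X) (vp (w + X)) (z (j + 1)))
    refine g1.trans (g2.trans (g3.trans ?_))
    unfold ni
    rw [hwX, hl']
  rw [e1, e2] at h3
  rw [hl, hl']
  have h4 : (2 * X + (vp (w + X) - vp w : ℕ)) * Real.log 2 - (V + 1) * (ε * X * Real.log 2) -
      C * (V + 2) ≤ CH F.p ((wT F T' hT').blb (w + X) (Pool.UEG.cv2 (vp (w + X)) q)
        (frm2 (F := wT F T' hT') σ (a (w + X)))) (fun ω => ((wT F T' hT').blb w
          (Pool.UEG.cv2 (vp w) q) (frm2 (F := wT F T' hT') σ (a w)) ω,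
          (Uni.dg D al ω, T' ω))) := key
  have hVr : (0 : ℝ) ≤ V := Nat.cast_nonneg V
  have h5 : C' ≤ C' * (V + 2) := by nlinarith
  have h6 : CH F.p ((wT F T' hT').blb (w + X) (Pool.UEG.cv2 (vp (w + X)) q)
        (frm2 (F := wT F T' hT') σ (a (w + X)))) (fun ω => ((wT F T' hT').blb w
          (Pool.UEG.cv2 (vp w) q) (frm2 (F := wT F T' hT') σ (a w)) ω,
          (Uni.dg D al ω, T' ω))) ≤ ni F (σ 0) q w₁ X l z (j + 1) + C' -
            ni F (σ 0) q w₁ X l z j := by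
    have h3' : ni F (σ 0) q w₁ X l z j + CH F.p ((wT F T' hT').blb (w + X)
      (Pool.UEG.cv2 (vp (w + X)) q)
        (frm2 (F := wT F T' hT') σ (a (w + X)))) (fun ω => ((wT F T' hT').blb w
          (Pool.UEG.cv2 (vp w) q) (frm2 (F := wT F T' hT') σ (a w)) ω,
          (Uni.dg D al ω, T' ω))) ≤ ni F (σ 0) q w₁ X l z (j + 1) + C' := h3
    linarith
  have h7 : (C + C') * (V + 2) = C * (V + 2) + C' * (V + 2) := by ring
  rw [h7]
  linarith

/-- **(S)** on the progression, the local theorem for the family with the time rounded to `R`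
digits. -/
theorem sfull_cot : ∃ C : ℝ, 0 ≤ C ∧ ∀ {J : ℕ} (F : Fam 2 J) (σ : Fin 2 → Fin 2) (wa wb : ℕ)
    (vp : ℕ → ℕ) (D R : ℕ) (a : ℕ → F.Ω → ℝ) (al : F.Ω → ℝ) (X V q w₁ j : ℕ) (ε : ℝ) (l : ℕ → ℕ)
    (z : ℕ → F.Ω → Fin 2 → ℝ), 0 ≤ ε → R ≤ J →
    Rc2 (F.cot R) F.p σ wa wb vp D a al → wa ≤ w₁ + j * X → w₁ + (j + 1) * X ≤ wb →
    wb ≤ R → l j = vp (w₁ + j * X) → l (j + 1) = vp (w₁ + (j + 1) * X) →
    Zof σ (a (w₁ + j * X)) (z j) → Zof σ (a (w₁ + (j + 1) * X)) (z (j + 1)) →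
    l (j + 1) ≤ l j + V * X → q + (w₁ + (j + 1) * X) + l (j + 1) ≤ J →
    (∀ i ≤ V, Cc2 (F.cot R) F.p σ vp D a al X ε (w₁ + j * X) (q + i * X)) →
    (2 * X + (l (j + 1) - l j : ℕ)) * Real.log 2 - (V + 1) * (ε * X * Real.log 2) -
        C * (V + 2) ≤
      ni F (σ 0) q w₁ X l z (j + 1) - ni F (σ 0) q w₁ X l z j := by
  obtain ⟨C, hC, key⟩ := sfull
  refine ⟨C, hC, ?_⟩
  intro J F σ wa wb vp D R a al X V q w₁ j ε l z hε hRJ hRc h1 h2 hbR hl hl' hz hz' hV hJ hcc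
  refine key F (fun ω => 2 ^ (J - R) * (F.T ω / 2 ^ (J - R))) (F.cot R).tim σ wa wb vp D R a al X V
    q w₁ j ε l z hε hRJ (fun ω => ?_) hRc h1 h2 hbR hl hl' hz hz' hV hJ hcc
  exact Nat.mul_div_cancel_left _ (by positivity)

/-- **(S)** for the contexts `F.ctt`, one step, all frames as functions of the window. -/
theorem full_cN : ∃ C : ℝ, 0 ≤ C ∧ ∀ {J : ℕ} (F : Fam 2 J) (σ : Fin 2 → Fin 2) (wa wb : ℕ)
    (vp : ℕ → ℕ) (D R : ℕ) (a : ℕ → F.Ω → ℝ) (al : F.Ω → ℝ) (X V q w : ℕ) (ε : ℝ)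
    (z : ℕ → F.Ω → Fin 2 → ℝ), 0 ≤ ε → R ≤ J →
    Rc2 (F.cot R) F.p σ wa wb vp D a al → wa ≤ w → w + X ≤ wb → wb ≤ R →
    Zof σ (a w) (z w) → Zof σ (a (w + X)) (z (w + X)) →
    vp (w + X) ≤ vp w + V * X → q + vp (w + X) + (w + X) ≤ J →
    (∀ i ≤ V, Cc2 (F.cot R) F.p σ vp D a al X ε w (q + i * X)) →
    cVol J (w + X) q (vp (w + X)) - cVol J w q (vp w) - ((V + 1) * (ε * X * Real.log 2) +
        C * (V + 2)) ≤
      cNf F (w + X) q (vp (w + X)) (σ 0) (z (w + X)) - cNf F w q (vp w) (σ 0) (z w) := by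
  obtain ⟨C, hC, key⟩ := sfull_cot
  refine ⟨C, hC, ?_⟩
  intro J F σ wa wb vp D R a al X V q w ε z hε hRJ hRc h1 h2 hbR hz hz' hV hJ hcc
  have e0 : w + 0 * X = w := by ring
  have e1 : w + (0 + 1) * X = w + X := by ring
  have hm := hRc.mono w (w + X) h1 (by omega) h2
  have h3 := key F σ wa wb vp D R a al X V q w 0 ε (fun j => vp (w + j * X))
    (fun j => z (w + j * X)) hε hRJ hRc (by rw [e0]; exact h1) (by rw [e1]; exact h2) hbR rfl rfl
    (by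
      show Zof σ (a (w + 0 * X)) (z (w + 0 * X))
      rw [e0]
      exact hz)
    (by
      show Zof σ (a (w + (0 + 1) * X)) (z (w + (0 + 1) * X))
      rw [e1]
      exact hz')
    (by
      show vp (w + (0 + 1) * X) ≤ vp (w + 0 * X) + V * X
      rw [e0, e1]
      exact hV)
    (by
      show q + (w + (0 + 1) * X) + vp (w + (0 + 1) * X) ≤ J
      rw [e1]
      omega)
    (by
      intro i hi
      rw [e0]
      exact hcc i hi)
  unfold ni at h3
  simp only [e0, e1] at h3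
  rw [cVol_sub hm hJ, cNf_ctx (by omega) (fun ω => (hz' ω).1),
    cNf_ctx (by omega) (fun ω => (hz ω).1)]
  linarith

end Pool.PC
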