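import Pool.Agent.H81.PC.LxT
import Pool.Agent.H70.PC.NestT
import Pool.Agent.H92.PC.Tele

/-!
# THETA: the jumps

LEMMA X in the form of the hypothesis `hX` of the telescope `Pool.PC.Tel.tele`, for the truncated
contexts `F.ctt` on a progression of windows.
-/

set_option autoImplicit false

namespace Pool.PC

open Finset Real
open Pool.Agent.H49.Ent Pool.Agent.H32.Dense Pool.STK Pool.KA Pool.KSAT Pool.K2S

variable {m J : ℕ}

namespace Jmp

/-- The truncated context and the truncated label have the same classes. -/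
theorem ctt_tlb {F : Fam m J} {w q l : ℕ} {i0 : Fin m} {z : F.Ω → Fin m → ℝ} (hq : q + w ≤ J)
    (hz0 : ∀ ω, z ω i0 = 0) (ω ω' : F.Ω) :
    F.ctt w q l i0 z ω = F.ctt w q l i0 z ω' ↔
      tlb F w q l (min (q + l + w) J) i0 z ω = tlb F w q l (min (q + l + w) J) i0 z ω' := by
  have hk0 : min (qcv q l i0 i0 + w) J = q + w := by
    unfold qcv
    rw [if_pos rfl]
    exact min_eq_left hq
  have hk : ∀ i, i ≠ i0 → min (qcv q l i0 i + w) J = min (q + l + w) J := by
    intro i hi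
    unfold qcv
    rw [if_neg hi]
  have e1 : ∀ o : F.Ω, F.mps w (fun i => min (qcv q l i0 i + w) J) (fun ω => zfr i0 (z ω)) o =
      pps F w (q + w) (min (q + l + w) J) i0 z o := by
    intro o
    funext i
    show ⌊(2 : ℝ) ^ min (qcv q l i0 i + w) J * mco (zfr i0 (z o)) (F.x1 w o) i⌋ = _
    unfold pps
    by_cases hi : i = i0
    · rw [if_pos hi, hi, hk0, zfr_i0]
    · rw [if_neg hi, hk i hi, zfr_ne hi]
  have e2 : ∀ o : F.Ω, F.mvl (qcv q l i0) (fun ω => zfr i0 (z ω)) o = rvs F q l i0 z o :=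
    fun o => funext fun i => flk_zfr q l i0 (z o) (F.d o) i
  constructor
  · intro h
    obtain ⟨a1, a2, a3, a4, a5⟩ := Box.mlb_ext (show F.mlb w (fun i => min (qcv q l i0 i + w) J)
      (qcv q l i0) (fun ω => zfr i0 (z ω)) ω = F.mlb w (fun i => min (qcv q l i0 i + w) J)
      (qcv q l i0) (fun ω => zfr i0 (z ω)) ω' from h)
    have hz : z ω = z ω' := by
      funext i
      by_cases hi : i = i0
      · rw [hi, hz0, hz0]
      · exact zfr_eq a2 hi
    rw [e1, e1] at a3
    rw [e2, e2] at a4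
    exact tlb_mk a1 hz a3 a4 a5
  · intro h
    obtain ⟨a1, a2, a3, a4, a5⟩ := tlb_ext h
    rw [← e1, ← e1] at a3
    rw [← e2, ← e2] at a4
    exact Box.mlb_mk (M := fun ω => zfr i0 (z ω)) a1 (by rw [a2]) a3 a4 a5

theorem nfo_congr {F : Fam m J} {S S' : Type} {w : ℕ} {b : F.Ω → S} {b' : F.Ω → S'}
    (h : ∀ ω ω', b ω = b ω' ↔ b' ω = b' ω') : nfo F w b = nfo F w b' := by
  unfold nfo
  congr 1
  refine CH_congr F.isLaw.nonneg ?_ ?_ (fun _ _ _ _ h => h) (fun _ _ _ _ h => h)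
  · intro ω ω' _ _ hh
    exact (h ω ω').1 (Prod.ext_iff.mp hh).1
  · intro ω ω' _ _ hh
    exact (h ω ω').2 (Prod.ext_iff.mp hh).1

/-- A condition can be replaced by a finer one which is known up to `K`. -/
theorem CH_swap {Ω S T U : Type} [Fintype Ω] {p : Ω → ℝ} (hp : ∀ ω, 0 ≤ p ω) (X : Ω → S)
    (Y : Ω → T) (W : Ω → U) {K : ℝ} (hK : CH p Y W ≤ K) : CH p X W - K ≤ CH p X Y := by
  have h1 := CH_le_add hp X Y W
  have h2 : CH p X (fun ω => (Y ω, W ω)) ≤ CH p X Y :=
    CH_mono_cond hp fun ω ω' _ _ h => (Prod.ext_iff.mp h).1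
  linarith only [hK, h1, h2]

open Classical in
theorem Pe_le {Ω : Type} [Fintype Ω] {p : Ω → ℝ} (hp : ∀ ω, 0 ≤ p ω) {A B : Ω → Prop}
    (h : ∀ ω, 0 < p ω → A ω → B ω) : Pe p A ≤ Pe p B := by
  unfold Pe
  refine Finset.sum_le_sum fun ω _ => ?_
  rcases (hp ω).eq_or_lt with h0 | h0
  · rw [← h0]; simp
  · by_cases hA : A ω
    · rw [if_pos (eq_true hA), if_pos (eq_true (h ω h0 hA))]
    · rw [if_neg (by simpa using hA)]
      split_ifs
      exacts [h0.le, le_rfl]

end Jmp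

/-- The information about the line in the truncated context. -/
noncomputable def cNf (F : Fam m J) (w q l : ℕ) (i0 : Fin m) (z : F.Ω → Fin m → ℝ) : ℝ :=
  nfo F w (F.ctt w q l i0 z)

/-- The number of digits of the position in the truncated context. -/
noncomputable def cVol (J w q l : ℕ) : ℝ :=
  ((min (q + w) J : ℕ) + (min (q + l + w) J : ℕ)) * Real.log 2

/-- **The jump**, LEMMA X for truncated contexts on a progression of windows. -/
theorem jmp_X (m : ℕ) (C₀ : ℝ) (hC₀ : 0 ≤ C₀) : ∃ C : ℝ, 0 ≤ C ∧ ∀ (J : ℕ) (F : Fam m J)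
    (i0 : Fin m) (w₀ q X M x : ℕ) (l : ℕ → ℕ) (z : ℕ → F.Ω → Fin m → ℝ) (al : F.Ω → Fin m → ℝ)
    {Θ : Type} (θ : ℕ → F.Ω → Θ) (f : ℕ → ℝ) (p₁ η : ℝ), 0 < X → 0 ≤ p₁ → 0 ≤ η →
    (∀ j, j ≤ M → w₀ + j * X ≤ J) → (∀ j, q + (w₀ + j * X) ≤ J → j ≤ M) →
    (∀ i j, i ≤ j → j ≤ M → l i ≤ l j) →
    (∀ j, j ≤ M → (∀ ω i, ∃ k : ℤ, z j ω i = k / 2 ^ l j) ∧ (∀ ω, z j ω i0 = 0) ∧
      Det F.p (slam F (w₀ + j * X)) (z j) ∧
      ∀ ω, 0 < F.p ω → ∀ i, i ≠ i0 → |al ω i - z j ω i| ≤ C₀ / 2 ^ l j) →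
    (∀ j, j ≤ M → Pe (dbl F.p (slam F (w₀ + j * X))) (fun u => ∀ i, i ≠ i0 →
      |al u.1 i - al u.2 i| ≤ (1 + 2 * C₀) / 2 ^ (l j + x)) ≤ p₁) →
    (∀ j, q + (w₀ + (j + 1) * X) ≤ J → Det F.p (θ j) (F.T1 (w₀ + (j + 1) * X)) ∧
      X * Real.log 2 - f j * (X * Real.log 2) ≤
        CH F.p (bps F (w₀ + (j + 1) * X) (q + (w₀ + (j + 1) * X)) i0)
          (fun ω => (θ j ω, F.ctt (w₀ + j * X) q (l j) i0 (z j) ω))) →
    ∀ a b, a < b → b ≤ M → Tel.Gr f η M b →
      cVol J (w₀ + b * X) q (l b) - cVol J (w₀ + a * X) q (l a) -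
        5 * Real.log 2 * ((b - a : ℕ) * X) -
        ((η + 2 * p₁) * Real.log 2 + C / X) * ((l b : ℝ) - l a) -
        ((2 * x + X) * Real.log 2 + C * (1 + p₁)) ≤
      cNf F (w₀ + b * X) q (l b) i0 (z b) - cNf F (w₀ + a * X) q (l a) i0 (z a) := by
  obtain ⟨C, hC, key⟩ := lx_top m (2 * C₀) (by linarith)
  have hc0 : 0 ≤ Real.log 2 := Real.log_nonneg (by norm_num)
  have hm : (0 : ℝ) ≤ m := Nat.cast_nonneg m
  have hc1 : 0 ≤ Real.log (4 * (1 + 2 * C₀) + 3) := Real.log_nonneg (by linarith)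
  have hc2 : 0 ≤ Real.log (4 * m * (1 + 2 * C₀) + 3) := by
    refine Real.log_nonneg ?_
    have : 0 ≤ 4 * (m : ℝ) * (1 + 2 * C₀) := by positivity
    linarith
  -- the loss for nested contexts
  obtain ⟨K, hK⟩ : ∃ K, K = m * Real.log (4 * (1 + 2 * C₀) + 3) +
    2 * (m * Real.log (4 * m * (1 + 2 * C₀) + 3)) := ⟨_, rfl⟩
  have hK0 : 0 ≤ K := by rw [hK]; positivity
  refine ⟨C + 2 * K, by linarith, ?_⟩
  intro J F i0 w₀ q X M x l z al Θ θ f p₁ η hX hp1 hη hwJ hMJ hl hz hth hrow a b hab hbM hG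
  have hp := F.isLaw
  have hp0 := hp.nonneg
  have haM : a ≤ M := by omega
  obtain ⟨y, hy⟩ : ∃ y, y = (b - a) * X := ⟨_, rfl⟩
  obtain ⟨w, hw⟩ : ∃ w, w = w₀ + a * X := ⟨_, rfl⟩
  have hwb : w₀ + b * X = w + y := by
    rw [hw, hy]
    obtain ⟨c, rfl⟩ := Nat.exists_eq_add_of_lt hab
    have : a + c + 1 - a = c + 1 := by omega
    rw [this]
    ring
  have hyX : ((b - a : ℕ) : ℝ) * X = y := by rw [hy]; push_cast; ring
  have hy1 : X ≤ y := by
    rw [hy]
    exact Nat.le_mul_of_pos_left X (by omega)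
  have hwbJ := hwJ b hbM
  rw [hwb] at hwbJ
  have hlab := hl a b hab.le hbM
  obtain ⟨a1, a2, a3, a4⟩ := hz a haM
  obtain ⟨b1, b2, b3, b4⟩ := hz b hbM
  -- the frames of two windows
  have hfr : ∀ i j, i ≤ j → j ≤ M → ∀ ω, 0 < F.p ω → ∀ k, k ≠ i0 →
      |z j ω k - z i ω k| ≤ 2 * C₀ / 2 ^ l i := by
    intro i j hij hj ω hω k hk
    have g1 := (hz i (hij.trans hj)).2.2.2 ω hω k hk
    have g2 := (hz j hj).2.2.2 ω hω k hk
    have g3 : C₀ / (2 : ℝ) ^ l j ≤ C₀ / 2 ^ l i :=
      div_le_div_of_nonneg_left hC₀ (by positivity)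
        (pow_le_pow_right₀ (by norm_num) (hl i j hij hj))
    have e1 : z j ω k - z i ω k = (al ω k - z i ω k) - (al ω k - z j ω k) := by ring
    have e2 : 2 * C₀ / (2 : ℝ) ^ l i = C₀ / 2 ^ l i + C₀ / 2 ^ l i := by ring
    rw [e1, e2]
    exact (abs_sub _ _).trans (add_le_add g1 (g2.trans g3))
  have hD1 : 1 ≤ 1 + 2 * C₀ := by linarith only [hC₀]
  have hle : 2 * C₀ ≤ 1 + 2 * C₀ := by linarith only
  -- nested contexts
  have hnest : ∀ i j, i ≤ j → j ≤ M → CH F.p (F.ctt (w₀ + i * X) q (l i) i0 (z i))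
      (F.ctt (w₀ + j * X) q (l j) i0 (z j)) ≤ K := by
    intro i j hij hj
    rw [hK]
    refine ctt_coarse hp (hwJ j hj) hD1 ?_ le_rfl (hl i j hij hj)
      (hz i (hij.trans hj)).1 fun ω hω k hk => ?_
    · exact Nat.add_le_add_left (Nat.mul_le_mul_right X hij) w₀
    · exact (hfr i j hij hj ω hω k hk).trans (div_le_div_of_nonneg_right hle (by positivity))
  have hmono : cNf F (w₀ + a * X) q (l a) i0 (z a) ≤ cNf F (w₀ + b * X) q (l b) i0 (z b) + K := by
    unfold cNf nfo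
    have h1 := nfo_mono hp (F.ctt (w₀ + a * X) q (l a) i0 (z a))
      (F.ctt (w₀ + b * X) q (l b) i0 (z b)) (ctt_det a3) (ctt_T1 le_rfl (hwJ a haM))
      (ctt_det b3) (ctt_T1 le_rfl (hwJ b hbM))
    have h2 : CH F.p (F.ctt (w₀ + a * X) q (l a) i0 (z a))
        (fun ω => (F.ctt (w₀ + b * X) q (l b) i0 (z b) ω, F.Z ω)) ≤
        CH F.p (F.ctt (w₀ + a * X) q (l a) i0 (z a))
          (F.ctt (w₀ + b * X) q (l b) i0 (z b)) :=
      CH_mono_cond hp0 fun ω ω' _ _ h => (Prod.ext_iff.mp h).1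
    have h3 := hnest a b hab.le hbM
    linarith only [h1, h2, h3]
  rw [hyX]
  have hlr : (0 : ℝ) ≤ (l b : ℝ) - l a := by
    have : (l a : ℝ) ≤ l b := by exact_mod_cast hlab
    linarith only [this]
  have hXr : (0 : ℝ) < X := by exact_mod_cast hX
  have hCX : 0 ≤ (C + 2 * K) / X := div_nonneg (by linarith only [hC, hK0]) hXr.le
  have hprod : 0 ≤ ((η + 2 * p₁) * Real.log 2 + (C + 2 * K) / X) * ((l b : ℝ) - l a) :=
    mul_nonneg (add_nonneg (mul_nonneg (by linarith only [hp1, hη]) hc0) hCX) hlr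
  have hCp : K ≤ (C + 2 * K) * (1 + p₁) := by nlinarith only [hC, hK0, hp1]
  have hxr : (0 : ℝ) ≤ x := Nat.cast_nonneg x
  have hyr : (0 : ℝ) ≤ y := Nat.cast_nonneg y
  -- the number of rows
  obtain ⟨Pa, hPa⟩ : ∃ P, P = min (q + l a + w) J := ⟨_, rfl⟩
  obtain ⟨Pb, hPb⟩ : ∃ P, P = min (q + l b + (w + y)) J := ⟨_, rfl⟩
  obtain ⟨δ, hδ⟩ : ∃ δ, δ = min (l b - (l a + x)) (Pb - (q + w + (l a + x))) := ⟨_, rfl⟩
  have hV : cVol J (w₀ + b * X) q (l b) - cVol J (w₀ + a * X) q (l a) ≤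
      (2 * y + δ + x) * Real.log 2 := by
    unfold cVol
    rw [hwb, ← hw, ← hPa, ← hPb, ← sub_mul]
    refine mul_le_mul_of_nonneg_right ?_ hc0
    have h1 : min (q + (w + y)) J + Pb ≤ min (q + w) J + Pa + (2 * y + δ + x) := by
      rcases le_total (q + l a + w) J with h | h
      · have e1 : Pa = q + l a + w := by rw [hPa]; exact min_eq_left h
        have e2 : min (q + (w + y)) J ≤ min (q + w) J + y := by omega
        have e3 : Pb ≤ Pa + (y + δ + x) := by
          have : Pb ≤ q + l b + (w + y) := by rw [hPb]; exact min_le_left _ _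
          rcases min_choice (l b - (l a + x)) (Pb - (q + w + (l a + x))) with h2 | h2 <;>
          rw [h2] at hδ <;> omega
        omega
      · have e1 : Pa = J := by rw [hPa]; exact min_eq_right h
        have e2 : min (q + (w + y)) J ≤ min (q + w) J + y := by omega
        have e3 : Pb ≤ J := by rw [hPb]; exact min_le_right _ _
        omega
    have h2 : ((min (q + (w + y)) J : ℕ) : ℝ) + (Pb : ℕ) ≤
        (min (q + w) J : ℕ) + (Pa : ℕ) + (2 * y + δ + x) := by exact_mod_cast h1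
    linarith only [h2]
  rcases Nat.lt_or_ge δ y with hδy | hδy
  · -- no rows
    have hδr : (δ : ℝ) ≤ y := by exact_mod_cast hδy.le
    have h1 : (2 * (y : ℝ) + δ + x) * Real.log 2 ≤
        5 * Real.log 2 * y + (2 * x + X) * Real.log 2 := by
      have : (2 * (y : ℝ) + δ + x) ≤ 5 * y + (2 * x + X) := by linarith only [hXr, hδr]
      have := mul_le_mul_of_nonneg_right this hc0
      linarith only [this]
    linarith only [hmono, hprod, hCp, hV, h1]
  · -- the rows
    have hy0 : 0 < y := by omega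
    have hlx : l a + x ≤ l b := by omega
    have hδ1 : δ ≤ l b - (l a + x) := by rw [hδ]; exact min_le_left _ _
    have hδ2 : δ ≤ Pb - (q + w + (l a + x)) := by rw [hδ]; exact min_le_right _ _
    have hPbJ : Pb ≤ J := by rw [hPb]; exact min_le_right _ _
    have hqaJ : q + w + (l a + x) + δ ≤ Pb := by omega
    obtain ⟨n, hn⟩ : ∃ n, n = (δ - y) / X := ⟨_, rfl⟩
    have hn1 : n * X ≤ δ - y := by rw [hn]; exact Nat.div_mul_le_self _ _
    have hn2 : δ - y < n * X + X := by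
      rw [hn]
      exact Nat.lt_div_mul_add hX
    have hPaq : Pa = q + l a + w := by
      rw [hPa]
      exact min_eq_left (by omega)
    have hqw : q + w ≤ J := by omega
    have hqwy : q + (w + y) ≤ J := by omega
    have hTH : Pe (dbl F.p (slam F w)) (fun u => ∀ j, j ≠ i0 →
        |z b u.1 j - z b u.2 j| ≤ 1 / 2 ^ (l a + x)) ≤ p₁ := by
      rw [hw]
      refine le_trans ?_ (hth a haM)
      refine Jmp.Pe_le (dbl_nonneg hp0) fun u hu h j hj => ?_
      have u1 : 0 < F.p u.1 := (dbl_fst hp0 : Marg _ F.p (fun u => u.1)).pos (dbl_nonneg hp0) hu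
      have u2 : 0 < F.p u.2 := (dbl_snd hp0 : Marg _ F.p (fun u => u.2)).pos (dbl_nonneg hp0) hu
      have g1 := b4 u.1 u1 j hj
      have g2 := b4 u.2 u2 j hj
      have g3 := h j hj
      have g4 : C₀ / (2 : ℝ) ^ l b ≤ C₀ / 2 ^ (l a + x) :=
        div_le_div_of_nonneg_left hC₀ (by positivity) (pow_le_pow_right₀ (by norm_num) hlx)
      have e1 : (1 + 2 * C₀) / (2 : ℝ) ^ (l a + x) = C₀ / 2 ^ (l a + x) + 1 / 2 ^ (l a + x) +
        C₀ / 2 ^ (l a + x) := by ring
      rw [e1]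
      rw [abs_le] at g1 g2 g3 ⊢
      constructor <;> linarith only [g1, g2, g3, g4, g1.1, g1.2, g2.1, g2.2, g3.1, g3.2]
    have h1 := key J F i0 w y q X n (l a) (l b) Pa Pb x δ (z a) (z b) p₁
      (by omega) (by omega) (by omega) (by omega) (by omega) (by
        rw [hPaq]
        omega) a1 a2 (by rw [hw]; exact a3) (fun ω hω j hj => by
        rw [abs_sub_comm]
        exact hfr a b hab.le hbM ω hω j hj) hTH
    -- the rows are full
    have h2 : ∀ i ∈ Finset.range n, X * Real.log 2 - f (b + i) * (X * Real.log 2) - 2 * K ≤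
        CH F.p (bps F (w + y + (i + 1) * X) (q + (w + y + (i + 1) * X)) i0)
          (fun ω => (F.T1 (w + y + (i + 1) * X) ω, cxt F q i0 (tlb F (w + y) q (l b) Pb i0 (z b))
            (tlb F w q (l a) Pa i0 (z a)) (w + y + i * X) ω)) := by
      intro i hi
      rw [Finset.mem_range] at hi
      have hiX : (i + 1) * X ≤ n * X := Nat.mul_le_mul_right X hi
      have e1 : w₀ + (b + i) * X = w + y + i * X := by rw [← hwb]; ring
      have e2 : w₀ + (b + i + 1) * X = w + y + (i + 1) * X := by rw [← hwb]; ring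
      have hqJ : q + (w₀ + (b + i + 1) * X) ≤ J := by rw [e2]; omega
      have hiX2 : i * X ≤ (i + 1) * X := Nat.mul_le_mul_right X (by omega)
      have hbi : b + i ≤ M := hMJ (b + i) (by rw [e1]; omega)
      obtain ⟨r1, r2⟩ := hrow (b + i) hqJ
      rw [e2, e1] at r2
      rw [e2] at r1
      -- the small context is known from the large one
      have k1 := hnest a (b + i) (by omega) hbi
      have k2 := hnest b (b + i) (by omega) hbi
      have hi1 : w + y + i * X ≤ J := by omega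
      have k3 : CH F.p (fun ω => (F.T1 (w + y + (i + 1) * X) ω,
          cxt F q i0 (tlb F (w + y) q (l b) Pb i0 (z b))
            (tlb F w q (l a) Pa i0 (z a)) (w + y + i * X) ω))
          (fun ω => (θ (b + i) ω, F.ctt (w + y + i * X) q (l (b + i)) i0 (z (b + i)) ω)) ≤
          2 * K := by
        rw [e1] at k1 k2
        have q1 : CH F.p (fun ω => (F.T1 (w + y + (i + 1) * X) ω,
          cxt F q i0 (tlb F (w + y) q (l b) Pb i0 (z b))
            (tlb F w q (l a) Pa i0 (z a)) (w + y + i * X) ω))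
          (fun ω => (θ (b + i) ω, F.ctt (w + y + i * X) q (l (b + i)) i0 (z (b + i)) ω)) ≤
          CH F.p (fun ω => (F.ctt (w₀ + a * X) q (l a) i0 (z a) ω,
            F.ctt (w₀ + b * X) q (l b) i0 (z b) ω))
          (fun ω => (θ (b + i) ω, F.ctt (w + y + i * X) q (l (b + i)) i0 (z (b + i)) ω)) := by
          refine CH_mono_left hp0 fun ω ω' hω hω' h => ?_
          have s1 := Prod.ext_iff.mp (Prod.ext_iff.mp h).1
          have s2 := Prod.ext_iff.mp (Prod.ext_iff.mp h).2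
          have t1 : F.ctt (w₀ + a * X) q (l a) i0 (z a) ω =
            F.ctt (w₀ + a * X) q (l a) i0 (z a) ω' := s1.1
          have t2 : F.ctt (w₀ + b * X) q (l b) i0 (z b) ω =
            F.ctt (w₀ + b * X) q (l b) i0 (z b) ω' := s1.2
          rw [← hw] at t1
          rw [hwb] at t2
          have t1' := (Jmp.ctt_tlb hqw a2 ω ω').1 t1
          have t2' := (Jmp.ctt_tlb hqwy b2 ω ω').1 t2
          rw [← hPa] at t1'
          rw [← hPb] at t2'
          have t3 : F.ctt (w + y + i * X) q (l (b + i)) i0 (z (b + i)) ω =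
            F.ctt (w + y + i * X) q (l (b + i)) i0 (z (b + i)) ω' := s2.2
          refine Prod.ext (r1 ω ω' hω hω' s2.1) (Prod.ext (Prod.ext t2' t1') (Prod.ext
            (ctt_ext t3).1 ?_))
          obtain ⟨g1, g2, g3, g4, g5⟩ := Box.mlb_ext (show F.mlb (w + y + i * X)
            (fun k => min (qcv q (l (b + i)) i0 k + (w + y + i * X)) J)
            (qcv q (l (b + i)) i0) (fun ω => zfr i0 (z (b + i) ω)) ω = F.mlb (w + y + i * X)
            (fun k => min (qcv q (l (b + i)) i0 k + (w + y + i * X)) J)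
            (qcv q (l (b + i)) i0) (fun ω => zfr i0 (z (b + i) ω)) ω' from t3)
          have g6 : ⌊(2 : ℝ) ^ min (qcv q (l (b + i)) i0 i0 + (w + y + i * X)) J *
              mco (zfr i0 (z (b + i) ω)) (F.x1 (w + y + i * X) ω) i0⌋ =
            ⌊(2 : ℝ) ^ min (qcv q (l (b + i)) i0 i0 + (w + y + i * X)) J *
              mco (zfr i0 (z (b + i) ω')) (F.x1 (w + y + i * X) ω') i0⌋ := congrFun g3 i0
          have g7 : min (qcv q (l (b + i)) i0 i0 + (w + y + i * X)) J = q + (w + y + i * X) := by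
            unfold qcv
            rw [if_pos rfl]
            exact min_eq_left (by omega)
          rw [g7, zfr_i0, zfr_i0] at g6
          exact g6
        have q2 := CH_subadd hp0 (F.ctt (w₀ + a * X) q (l a) i0 (z a))
          (F.ctt (w₀ + b * X) q (l b) i0 (z b))
          (fun ω => (θ (b + i) ω, F.ctt (w + y + i * X) q (l (b + i)) i0 (z (b + i)) ω))
        have q3 : CH F.p (F.ctt (w₀ + a * X) q (l a) i0 (z a))
            (fun ω => (θ (b + i) ω, F.ctt (w + y + i * X) q (l (b + i)) i0 (z (b + i)) ω)) ≤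
            CH F.p (F.ctt (w₀ + a * X) q (l a) i0 (z a))
              (F.ctt (w + y + i * X) q (l (b + i)) i0 (z (b + i))) :=
          CH_mono_cond hp0 fun ω ω' _ _ h => (Prod.ext_iff.mp h).2
        have q4 : CH F.p (F.ctt (w₀ + b * X) q (l b) i0 (z b))
            (fun ω => (θ (b + i) ω, F.ctt (w + y + i * X) q (l (b + i)) i0 (z (b + i)) ω)) ≤
            CH F.p (F.ctt (w₀ + b * X) q (l b) i0 (z b))
              (F.ctt (w + y + i * X) q (l (b + i)) i0 (z (b + i))) :=
          CH_mono_cond hp0 fun ω ω' _ _ h => (Prod.ext_iff.mp h).2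
        linarith only [k1, k2, q1, q2, q3, q4]
      have k4 := Jmp.CH_swap hp0 (bps F (w + y + (i + 1) * X) (q + (w + y + (i + 1) * X)) i0)
        _ _ k3
      linarith only [r2, k4]
    have h3 := Finset.sum_le_sum h2
    rw [Finset.sum_sub_distrib, Finset.sum_sub_distrib, Finset.sum_const, Finset.sum_const,
      Finset.card_range, nsmul_eq_mul, nsmul_eq_mul, ← Finset.sum_mul] at h3
    have hbn : b + n ≤ M := hMJ (b + n) (by
      have : w₀ + (b + n) * X = w + y + n * X := by rw [← hwb]; ring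
      rw [this]
      omega)
    have h4 : ∑ i ∈ Finset.range n, f (b + i) ≤ η * n := by
      have := hG n hbn
      rw [Finset.sum_Ico_eq_sum_range] at this
      simpa using this
    -- the sum
    have hnr : (n : ℝ) * X ≤ δ - y := by
      have : n * X + y ≤ δ := by omega
      have : ((n * X + y : ℕ) : ℝ) ≤ δ := by exact_mod_cast this
      push_cast at this
      linarith only [this]
    have hnr2 : (δ : ℝ) - y ≤ n * X + X := by
      have : δ ≤ n * X + X + y := by omega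
      have : (δ : ℝ) ≤ ((n * X + X + y : ℕ) : ℝ) := by exact_mod_cast this
      push_cast at this
      linarith only [this]
    have hδl : (δ : ℝ) ≤ (l b : ℝ) - l a := by
      have : δ + l a ≤ l b := by omega
      have : ((δ + l a : ℕ) : ℝ) ≤ l b := by exact_mod_cast this
      push_cast at this
      linarith only [this]
    have hnl : (n : ℝ) * X ≤ (l b : ℝ) - l a := by linarith only [hnr, hδl]
    have hn0 : (0 : ℝ) ≤ n := Nat.cast_nonneg n
    have e1 : (∑ i ∈ Finset.range n, f (b + i)) * (X * Real.log 2) ≤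
        η * Real.log 2 * ((l b : ℝ) - l a) := by
      calc (∑ i ∈ Finset.range n, f (b + i)) * (X * Real.log 2) ≤
          η * n * (X * Real.log 2) := mul_le_mul_of_nonneg_right h4 (by positivity)
        _ = η * Real.log 2 * (n * X) := by ring
        _ ≤ η * Real.log 2 * ((l b : ℝ) - l a) :=
          mul_le_mul_of_nonneg_left hnl (mul_nonneg hη hc0)
    have e2 : 2 * (p₁ * (δ * Real.log 2)) ≤ 2 * p₁ * Real.log 2 * ((l b : ℝ) - l a) := by
      have := mul_le_mul_of_nonneg_left hδl (show 0 ≤ 2 * p₁ * Real.log 2 by positivity)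
      linarith only [this]
    have e3 : (C + 2 * K) * n ≤ (C + 2 * K) / X * ((l b : ℝ) - l a) := by
      rw [div_mul_eq_mul_div, le_div_iff₀ hXr]
      have := mul_le_mul_of_nonneg_left hnl (show 0 ≤ C + 2 * K by linarith only [hC, hK0])
      linarith only [this]
    have e4 : ((δ : ℝ) - y - X) * Real.log 2 ≤ n * (X * Real.log 2) := by
      have : (δ : ℝ) - y - X ≤ n * X := by linarith only [hnr2]
      have := mul_le_mul_of_nonneg_right this hc0
      linarith only [this]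
    have e5 : cNf F (w₀ + a * X) q (l a) i0 (z a) =
        nfo F w (tlb F w q (l a) Pa i0 (z a)) := by
      rw [hPa, ← hw]
      exact Jmp.nfo_congr (Jmp.ctt_tlb hqw a2)
    have e6 : cNf F (w₀ + b * X) q (l b) i0 (z b) =
        nfo F (w + y) (tlb F (w + y) q (l b) Pb i0 (z b)) := by
      rw [hPb, hwb]
      exact Jmp.nfo_congr (Jmp.ctt_tlb hqwy b2)
    rw [e5, e6]
    have e7 : C * (1 + p₁ + n) = C * (1 + p₁) + C * n := by ring
    have e8 : (C + 2 * K) * (1 + p₁) = C * (1 + p₁) + 2 * K * (1 + p₁) := by ring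
    have e9 : 0 ≤ 2 * K * (1 + p₁) := by positivity
    have e10 : ((η + 2 * p₁) * Real.log 2 + (C + 2 * K) / X) * ((l b : ℝ) - l a) =
      η * Real.log 2 * ((l b : ℝ) - l a) + 2 * p₁ * Real.log 2 * ((l b : ℝ) - l a) +
        (C + 2 * K) / X * ((l b : ℝ) - l a) := by ring
    rw [e10, e8]
    rw [e7] at h1
    have e11 : (C + 2 * K) * n = C * n + n * (2 * K) := by ring
    rw [e11] at e3
    have e12 : (2 * (y : ℝ) + δ + x) * Real.log 2 = ((δ : ℝ) - y - X) * Real.log 2 +
      3 * (y * Real.log 2) + (x + X) * Real.log 2 := by ring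
    have e13 : (0 : ℝ) ≤ x * Real.log 2 := mul_nonneg hxr hc0
    linarith only [hV, h1, h3, e1, e2, e3, e4, e9, e13]

end Pool.PC
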