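import Pool.Agent.H55.PC.Steep
import Pool.Agent.H83.PC.Rate

/-!
# The classification of the cells, with the rate of the level and the size of the windows

`level_rate2`, `level_nmr2`: the theorems `level_rate` and `level_nmr` with the additional bound
`κ * C ≤ γ / 2`.
-/

set_option autoImplicit false

namespace Pool.PC

open Finset Real
open Pool.Agent.H49.Ent Pool.Agent.H32.Dense Pool.STK Pool.KA Pool.KSAT Pool.K2S Pool.LK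
open Pool.UEG

/-- **The classification of the cells**, with the rate of the number of digits. `V` depends only on
the portion `ρ` of the bad cells. -/
theorem level_rate2 {x₀ x₁ γ ρ C cR : ℝ} (hx₀ : 0 < x₀) (hx₀1 : x₀ ≤ 1) (hx₁ : 0 < x₁) (hγ : 0 < γ)
    (hγ1 : γ ≤ 1) (hρ : 0 < ρ) (hC : 1 ≤ C) (hcR : 0 ≤ cR) : ∃ κ Cq : ℝ, 0 < κ ∧ κ ≤ 1 ∧
    κ * C ≤ γ / 2 ∧ 0 < Cq ∧
    ∀ r : ℝ → ℝ, Monotone r → ∀ a b : ℝ, 0 ≤ a → a < b → 0 ≤ r a → r b ≤ 1 →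
    ∀ d' : ℝ, 0 < d' → ∃ M : ℕ, 0 < M ∧ (b - a) / M ≤ d' ∧ ∃ Bad : Finset ℕ, Bad ⊆ range M ∧
      (Bad.card : ℝ) * ((b - a) / M) ≤ ρ ∧ ∃ N₀ : ℕ, 0 < N₀ ∧ ∀ N : ℕ, N₀ ≤ N →
      ∀ d e : ℝ, d = (b - a) / M → e = d / N → ∃ τ₀ : ℝ, 0 < τ₀ ∧ ∃ J₀ : ℕ, ∀ J : ℕ, J₀ ≤ J →
        1 ≤ e * J ∧ ∀ τ h : ℝ, 0 ≤ τ → τ ≤ τ₀ → h ≤ τ₀ → ∀ X : ℕ, κ / 2 * (d * J) ≤ X →
          X ≤ κ * (d * J) → ∃ tt : ℕ, ∀ i < M, i ∉ Bad →
            CellOk r a d e τ h x₀ x₁ γ C cR Cq N J X tt i ∧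
            ∀ V : ℕ, 2 / ρ + 3 ≤ V → ∀ w, mwi a e J (i * N) ≤ w → w + X ≤ mwi a e J ((i + 1) * N) →
              mvp r a e τ J (w + X) ≤ mvp r a e τ J w + V * X := by
  classical
  have hxm : 0 < min x₀ x₁ := lt_min hx₀ hx₁
  obtain ⟨v₀, hv₀⟩ : ∃ v₀ : ℝ, v₀ = min (x₀ / (4 * C)) 1 := ⟨_, rfl⟩
  have hC0 : 0 < C := by linarith only [hC]
  have v0 : 0 < v₀ := by rw [hv₀]; exact lt_min (by positivity) one_pos
  have v1 : v₀ ≤ 1 := by rw [hv₀]; exact min_le_right _ _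
  have vC : v₀ * C ≤ x₀ / 4 := by
    have h1 : v₀ ≤ x₀ / (4 * C) := by rw [hv₀]; exact min_le_left _ _
    calc v₀ * C ≤ x₀ / (4 * C) * C := mul_le_mul_of_nonneg_right h1 hC0.le
      _ = x₀ / 4 := by field_simp
  obtain ⟨κ, hκ⟩ : ∃ κ : ℝ, κ = γ * v₀ / 4 := ⟨_, rfl⟩
  have κ0 : 0 < κ := by rw [hκ]; positivity
  obtain ⟨e₁, he₁⟩ : ∃ e₁ : ℝ, e₁ = min (γ * v₀ / 16) (min x₀ x₁ * κ / 16) := ⟨_, rfl⟩
  have e0 : 0 < e₁ := by rw [he₁]; exact lt_min (by positivity) (by positivity)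
  obtain ⟨vm, hvm⟩ : ∃ vm : ℝ, vm = e₁ + 2 * 1 / ρ := ⟨_, rfl⟩
  have vm0 : 0 < vm := by rw [hvm]; positivity
  refine ⟨κ, 3 + vm + e₁ + κ + x₁ * κ + cR * κ, κ0, ?_, ?_, by positivity, ?_⟩
  · rw [hκ]
    have : γ * v₀ ≤ 1 * 1 := mul_le_mul hγ1 v1 v0.le zero_le_one
    linarith only [this]
  · rw [hκ]
    have h1 := mul_le_mul_of_nonneg_left vC hγ.le
    have h2 := mul_le_mul_of_nonneg_left hx₀1 hγ.le
    have e : γ * v₀ / 4 * C = γ * (v₀ * C) / 4 := by ring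
    rw [e]
    linarith only [hγ, h1, h2]
  intro r hr a b ha hab hra hrb d' hd'
  obtain ⟨d₀, hd₀, hmesh⟩ := Msh.mesh_bdd (V := 1) hr hab e0 hρ (by linarith only [hra, hrb])
  -- the mesh
  have hmin : 0 < min d₀ d' := lt_min hd₀ hd'
  obtain ⟨M, hM⟩ := exists_nat_gt ((b - a) / min d₀ d')
  have hba : 0 < b - a := by linarith only [hab]
  have hM0 : (0 : ℝ) < M := lt_trans (div_pos hba hmin) hM
  have hMn : 0 < M := by exact_mod_cast hM0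
  have hdM : (b - a) / M < min d₀ d' := by
    rw [div_lt_iff₀ hM0, mul_comm]
    rwa [div_lt_iff₀ hmin] at hM
  obtain ⟨P, hP⟩ : ∃ P : ℕ → Prop, P = fun i : ℕ => ∃ v, 0 ≤ v ∧ v ≤ vm ∧
    Msh.Aff r (a + i * ((b - a) / M)) ((b - a) / M) v (e₁ * ((b - a) / M)) := ⟨_, rfl⟩
  refine ⟨M, hMn, (hdM.trans_le (min_le_right _ _)).le, (range M).filter fun i => ¬ P i,
    filter_subset _ _, ?_, ?_⟩
  · refine hmesh ((b - a) / M) (div_pos hba hM0) (hdM.trans_le (min_le_left _ _)) a M le_rfl ?_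
      _ (filter_subset _ _) ?_
    · rw [mul_div_cancel₀ _ hM0.ne']
      linarith only
    · intro i hi v hv1 hv2 hA
      refine (mem_filter.1 hi).2 ?_
      rw [hP]
      refine ⟨v, hv1, ?_, hA⟩
      rw [hvm]
      exact hv2
  obtain ⟨N₀, hN₀⟩ := exists_nat_gt (8 / γ + 16 / (min x₀ x₁ * κ) + 16 * vm / (min x₀ x₁ * κ))
  have q1 : 0 < 8 / γ := by positivity
  have q2 : 0 < 16 / (min x₀ x₁ * κ) := by positivity
  have q3 : 0 < 16 * vm / (min x₀ x₁ * κ) := by positivity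
  have hN₀r : (0 : ℝ) < N₀ := by linarith only [hN₀, q1, q2, q3]
  refine ⟨N₀, by exact_mod_cast hN₀r, ?_⟩
  intro N hN d e hd he
  have d0 : 0 < d := by rw [hd]; exact div_pos hba hM0
  have hNr : (N₀ : ℝ) ≤ N := by exact_mod_cast hN
  have hN0 : (0 : ℝ) < N := by linarith only [hN₀, q1, q2, q3, hNr]
  have ep : 0 < e := by rw [he]; exact div_pos d0 hN0
  have hNe : d = N * e := by rw [he, mul_div_cancel₀ _ hN0.ne']
  have g1 : 8 / γ ≤ N := by linarith only [hN₀, q2, q3, hNr]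
  have g2 : 16 / (min x₀ x₁ * κ) ≤ N := by linarith only [hN₀, q1, q3, hNr]
  have g3 : 16 * vm / (min x₀ x₁ * κ) ≤ N := by linarith only [hN₀, q1, q2, hNr]
  have ed1 : e ≤ γ * d / 8 := by
    rw [div_le_iff₀ hγ] at g1
    have h1 := mul_le_mul_of_nonneg_right g1 ep.le
    rw [hNe]
    linarith only [h1]
  have ed2 : e ≤ min x₀ x₁ * κ * d / 16 := by
    rw [div_le_iff₀ (by positivity)] at g2
    have h1 := mul_le_mul_of_nonneg_right g2 ep.le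
    rw [hNe]
    linarith only [h1]
  have ed3 : vm * e ≤ min x₀ x₁ * κ * d / 16 := by
    rw [div_le_iff₀ (by positivity)] at g3
    have h1 := mul_le_mul_of_nonneg_right g3 ep.le
    rw [hNe]
    linarith only [h1]
  obtain ⟨τ₀, hτ₀⟩ : ∃ τ₀ : ℝ, τ₀ = min (γ * v₀ * d / 8) (min (min x₀ x₁ * κ * d / 32) d) :=
    ⟨_, rfl⟩
  have hτ0 : 0 < τ₀ := by
    rw [hτ₀]
    exact lt_min (by positivity) (lt_min (by positivity) d0)
  obtain ⟨J₀, hJ₀⟩ := exists_nat_gt (1 / e + 8 * (1 + 1 / v₀) / (γ * d) +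
    64 / (min x₀ x₁ * κ * d) + 5 / d)
  refine ⟨τ₀, hτ0, J₀, ?_⟩
  intro J hJ
  have hJr : (J₀ : ℝ) ≤ J := by exact_mod_cast hJ
  have p1 : 0 < 1 / e := by positivity
  have p2 : 0 < 8 * (1 + 1 / v₀) / (γ * d) := by positivity
  have p3 : 0 < 64 / (min x₀ x₁ * κ * d) := by positivity
  have p4 : 0 < 5 / d := by positivity
  have J1 : 1 ≤ e * J := by
    have h1 : 1 / e ≤ J := by linarith only [hJ₀, hJr, p2, p3, p4]
    rw [div_le_iff₀ ep] at h1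
    linarith only [h1]
  refine ⟨J1, ?_⟩
  intro τ h hτ hττ hhτ X hX1 hX2
  have t1 : τ₀ ≤ γ * v₀ * d / 8 := by rw [hτ₀]; exact min_le_left _ _
  have t2 : τ₀ ≤ min x₀ x₁ * κ * d / 32 := by
    rw [hτ₀]; exact (min_le_right _ _).trans (min_le_left _ _)
  have t3 : τ₀ ≤ d := by rw [hτ₀]; exact (min_le_right _ _).trans (min_le_right _ _)
  have hK : LevK x₀ x₁ γ C cR v₀ κ e₁ vm (3 + vm + e₁ + κ + x₁ * κ + cR * κ) d e τ h J X := by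
    refine ⟨v0, v1, vC, hκ, e0, ?_, ?_, vm0.le, rfl, d0, ep, ed1, ed2, ed3, hτ, hττ.trans t1,
      hττ.trans t2, hττ.trans t3, hhτ.trans t2, J1, ?_, ?_, ?_, hX1, hX2⟩
    · rw [he₁]; exact min_le_left _ _
    · rw [he₁]; exact min_le_right _ _
    · have h1 : 8 * (1 + 1 / v₀) / (γ * d) ≤ J := by linarith only [hJ₀, hJr, p1, p3, p4]
      rw [div_le_iff₀ (by positivity)] at h1
      linarith only [h1]
    · have h1 : 64 / (min x₀ x₁ * κ * d) ≤ J := by linarith only [hJ₀, hJr, p1, p2, p4]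
      rw [div_le_iff₀ (by positivity)] at h1
      linarith only [h1]
    · have h1 : 5 / d ≤ J := by linarith only [hJ₀, hJr, p1, p2, p3]
      rw [div_le_iff₀ d0] at h1
      linarith only [h1]
  refine ⟨⌈e * J + (X + 1 + (2 * e₁ * d + τ) * J) / v₀⌉₊, ?_⟩
  intro i hi hB
  have hPi : P i := by
    by_contra hcon
    exact hB (mem_filter.2 ⟨mem_range.2 hi, hcon⟩)
  rw [hP] at hPi
  obtain ⟨v, hv1, hv2, hA⟩ := hPi
  rw [← hd] at hA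
  refine ⟨hK.cell hx₀ hx₁ hγ hγ1 hcR hr ha hra hNe hv1 hv2 hA, ?_⟩
  intro V hV w hw0 hw1
  refine hK.rate hx₀ hx₀1 hx₁ hγ hr ha hNe hv2 hA ?_ hw0 hw1
  have k1 : e₁ ≤ γ * v₀ / 16 := by rw [he₁]; exact min_le_left _ _
  have k2 : γ * v₀ ≤ 1 * 1 := mul_le_mul hγ1 v1 v0.le zero_le_one
  have k3 : 2 * 1 / ρ = 2 / ρ := by rw [mul_one]
  rw [hvm, k3]
  linarith only [e0, hV, k1, k2]

/-- **The classification of the cells**, for the mesh `i / n`, with the rate of the level. -/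
theorem level_nmr2 {x₀ x₁ γ ρ C cR : ℝ} (hx₀ : 0 < x₀) (hx₀1 : x₀ ≤ 1) (hx₁ : 0 < x₁) (hγ : 0 < γ)
    (hγ1 : γ ≤ 1) (hρ : 0 < ρ) (hC : 1 ≤ C) (hcR : 0 ≤ cR) : ∃ κ Cq : ℝ, 0 < κ ∧ κ ≤ 1 ∧
    κ * C ≤ γ / 2 ∧ 0 < Cq ∧
    ∀ (c : Nm) (δ : ℝ), c.Ok δ → ∀ cap : ℝ, 0 ≤ cap → ∀ d' : ℝ, 0 < d' →
    ∃ M : ℕ, 0 < M ∧ 1 / (M : ℝ) ≤ d' ∧ ∃ Bad : Finset ℕ, Bad ⊆ range M ∧
      (Bad.card : ℝ) / M ≤ ρ ∧ ∃ n₀ : ℕ, 1 ≤ n₀ ∧ ∀ n : ℕ, 1 ≤ n → n₀ ∣ n →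
      ∃ N : ℕ, 0 < N ∧ n = M * N ∧ ∃ h₀ : ℝ, 0 < h₀ ∧ ∀ h : ℝ, 0 < h → h ≤ h₀ →
        ∃ J₀ : ℕ, ∀ J : ℕ, J₀ ≤ J → n ≤ J ∧ 1 ≤ h * J ∧ ∀ X : ℕ,
          κ / 2 * (1 / M * J) ≤ X → X ≤ κ * (1 / M * J) → ∃ tt : ℕ, ∀ i < M, i ∉ Bad →
            CellOk (fun y => min (c.rot y) cap) 0 (1 / M) (1 / (n : ℝ)) (2 * h) (h + 2 / J)
              x₀ x₁ γ C cR Cq N J X tt i ∧
            ∀ V : ℕ, 2 / ρ + 3 ≤ V → ∀ w, msh J n (i * N) ≤ w → w + X ≤ msh J n ((i + 1) * N) →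
              vpc c cap h n J (w + X) ≤ vpc c cap h n J w + V * X := by
  obtain ⟨κ, Cq, hκ, hκ1, hκC, hCq, key⟩ := level_rate2 hx₀ hx₀1 hx₁ hγ hγ1 hρ hC hcR
  refine ⟨κ, Cq, hκ, hκ1, hκC, hCq, ?_⟩
  intro c δ hc cap hcap d' hd'
  obtain ⟨M, hM, hMd, Bad, hBad, hBc, N₀, hN₀, key⟩ := key (fun y => min (c.rot y) cap)
    (fun _ _ hy => min_le_min_right cap (hc.rm hy)) 0 1 le_rfl one_pos
    (le_min (hc.r0 0) hcap) ((min_le_left _ _).trans (by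
      have := hc.r1 1
      linarith only [this, hc, hc.n1, hc.q0])) d' hd'
  rw [sub_zero] at hMd hBc
  refine ⟨M, hM, hMd, Bad, hBad, by rw [← mul_one_div]; exact hBc, M * N₀, by
    exact Nat.mul_pos hM hN₀, ?_⟩
  intro n hn hdvd
  obtain ⟨m, hm⟩ := hdvd
  have hm0 : 0 < m := by
    rcases Nat.eq_zero_or_pos m with h | h
    · rw [h, mul_zero] at hm
      omega
    · exact h
  refine ⟨N₀ * m, Nat.mul_pos hN₀ hm0, by rw [hm, mul_assoc], ?_⟩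
  have hMr : (0 : ℝ) < M := by exact_mod_cast hM
  have hNr : (0 : ℝ) < (N₀ * m : ℕ) := by exact_mod_cast Nat.mul_pos hN₀ hm0
  obtain ⟨τ₀, hτ₀, J₀, key⟩ := key (N₀ * m) (Nat.le_mul_of_pos_right _ hm0) (1 / M) (1 / n)
    (by rw [sub_zero]) (by
      rw [hm]
      push_cast
      field_simp)
  refine ⟨τ₀ / 2, half_pos hτ₀, ?_⟩
  intro h hh hhτ
  obtain ⟨J₁, hJ₁⟩ := exists_nat_gt (1 / h + 4 / τ₀)
  refine ⟨max J₀ (max n J₁), ?_⟩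
  intro J hJ
  have hJ0 := (le_max_left _ _).trans hJ
  have hJn : n ≤ J := (le_max_left _ _).trans ((le_max_right _ _).trans hJ)
  have hJJ₁ : J₁ ≤ J := (le_max_right _ _).trans ((le_max_right _ _).trans hJ)
  have hJr : (J₁ : ℝ) ≤ J := by exact_mod_cast hJJ₁
  have p1 : 0 < 1 / h := by positivity
  have p2 : 0 < 4 / τ₀ := by positivity
  have hJp : (0 : ℝ) < J := by linarith only [hJ₁, hJr, p1, p2]
  have hhJ : 1 ≤ h * J := by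
    have h1 : 1 / h ≤ J := by linarith only [hJ₁, hJr, p2]
    rw [div_le_iff₀ hh] at h1
    linarith only [h1]
  have h2J : 2 / (J : ℝ) ≤ τ₀ / 2 := by
    have h1 : 4 / τ₀ ≤ J := by linarith only [hJ₁, hJr, p1]
    rw [div_le_iff₀ hτ₀] at h1
    rw [div_le_iff₀ hJp]
    linarith only [h1]
  obtain ⟨-, key⟩ := key J hJ0
  refine ⟨hJn, hhJ, fun X hX1 hX2 => ?_⟩
  obtain ⟨tt, key⟩ := key (2 * h) (h + 2 / J) (by linarith only [hh]) (by linarith only [hhτ]) (by linarith only [hhτ, h2J]) X hX1 hX2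
  refine ⟨tt, fun i hi hB => ?_⟩
  obtain ⟨k1, k2⟩ := key i hi hB
  refine ⟨k1, fun V hV w h0 h1 => ?_⟩
  rw [← mwi_msh] at h0 h1
  exact k2 V hV w h0 h1

end Pool.PC
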