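import Pool.Agent.H64.PC.SinF
import Pool.Agent.H48.PC.FltD

/-!
# THETA: the full step on a flat cell, without hypotheses
-/

set_option autoImplicit false

namespace Pool.PC

open Finset Real
open Pool.Agent.H49.Ent Pool.Agent.H32.Dense Pool.STK Pool.KA Pool.KSAT Pool.K2S
open Pool.UEG Pool.OCG Pool.FLT

/-- **The full step on a flat cell.** -/
theorem flat_cell1 : ∀ (ε ca ρ : ℝ), 0 < ε → 0 < ca →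
    0 < ρ → ∃ (x₀ ϖ κ ε₁ εN : ℝ), 0 < x₀ ∧ x₀ ≤ 1 ∧ 0 < ϖ ∧ 0 < κ ∧ κ ≤ 1 ∧ 0 < ε₁ ∧ 0 < εN ∧
    ∀ k' : ℕ, ∃ (γ : ℝ) (C X₀ : ℕ), 0 < γ ∧ γ ≤ 1 ∧ 1 ≤ C ∧
    ∀ {J : ℕ} (F : Fam 2 J) (σ : Fin 2 → Fin 2) (wa wb : ℕ) (l : ℕ → ℕ) (R : ℕ)
      (a : ℕ → F.Ω → ℝ) (al : F.Ω → ℝ) (z : ℕ → F.Ω → Fin 2 → ℝ) (P : Type) (Pt : F.Ω → P)
      (nB X qa qb : ℕ), X₀ ≤ X → Function.Injective σ → Lev F F.p al l 0 J a →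
      wa ≤ wb → wb ≤ R → R ≤ J → (∀ w, wa ≤ w → w ≤ wb → Zof σ (a w) (z w)) →
      (C : ℝ) * X ≤ γ * (wb - wa : ℕ) → ((R - wa : ℕ) : ℝ) ≤ γ * (qb - qa : ℕ) →
      (∀ w w' : ℕ, wa ≤ w → w ≤ w' → w' ≤ wb → (w' : ℝ) ≤ w + C * X →
        (l w' : ℝ) ≤ l w + x₀ * X) →
      PtD (F.cot R) F.p σ al Pt R nB J 1 →
      ∃ B : Finset (ℕ × ℕ), B ⊆ Ico wa wb ×ˢ Ico qa qb ∧
        (B.card : ℝ) ≤ ρ * ((wb - wa : ℕ) * (qb - qa : ℕ)) ∧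
        ∀ w q, wa ≤ w → w < wb → qa ≤ q → q < qb → (w, q) ∉ B → w + X ≤ wb ∧
          (∑ i ∈ range X, nr F.p (slam (F.cot R) w) ((F.cot R).wt w) k' i ≤ εN * X →
            Pe (dbl F.p (slam F w))
              (fun u => |al u.1 - al u.2| ≤ 2 ^ (-((l w : ℝ) + x₀ * X))) ≤ ε₁ →
            (∀ E : F.Ω → Prop, ϖ ≤ Pe F.p E → ca * ⌊κ * X⌋₊ * Real.log 2 ≤
              CH (Pool.Agent.H49.Ent.cond F.p E True)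
                (fun ω => ⌊(2 : ℝ) ^ (q + ⌊κ * X⌋₊) * F.d ω (σ 0)⌋)
                (fun ω => (Pt ω, ⌊(2 : ℝ) ^ q * F.d ω (σ 0)⌋))) →
            q + l w + X ≤ nB → q + l (w + X) + (w + X) ≤ J →
            cVol J (w + X) q (l (w + X)) - cVol J w q (l w) - ε * X ≤
              cNf F (w + X) q (l (w + X)) (σ 0) (z (w + X)) - cNf F w q (l w) (σ 0) (z w)) :=
  flat_cell flat_rect 1 zero_le_one

end Pool.PC
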