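import Pool.Agent.H15.PC.Fam

/-!
# THETA: the strip at the top, the length of the cells
-/

set_option autoImplicit false

namespace Pool.PC

open Finset

namespace Strp

/-- For one `q`, the windows in the strip at the top. -/
theorem strip_one {J : ℕ} {vp : ℕ → ℕ} (hv : ∀ w w', w ≤ w' → w' ≤ J → vp w ≤ vp w')
    (q K : ℕ) : ((range (J + 1)).filter fun w => q + vp w + w ≤ J ∧
      J < q + vp w + w + K).card ≤ K := by
  classical
  obtain ⟨S, hS⟩ : ∃ S, S = (range (J + 1)).filter fun w => q + vp w + w ≤ J ∧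
      J < q + vp w + w + K := ⟨_, rfl⟩
  rw [← hS]
  rcases S.eq_empty_or_nonempty with h | h
  · rw [h]
    simp
  · obtain ⟨w₁, hw₁⟩ : ∃ w₁, w₁ = S.min' h := ⟨_, rfl⟩
    have h1 : w₁ ∈ S := hw₁ ▸ S.min'_mem h
    have h2 : S ⊆ Ico w₁ (w₁ + K) := by
      intro w hw
      have h3 : w₁ ≤ w := hw₁ ▸ S.min'_le w hw
      rw [hS, mem_filter, mem_range] at h1 hw
      have h4 := hv w₁ w h3 (by omega)
      rw [mem_Ico]
      omega
    have h3 := card_le_card h2
    rw [Nat.card_Ico] at h3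
    omega

/-- **The strip at the top**: `q + vp w + w ≤ J < q + vp w + w + K`. -/
theorem strip_card {J : ℕ} {vp : ℕ → ℕ} (hv : ∀ w w', w ≤ w' → w' ≤ J → vp w ≤ vp w')
    (qa qb K : ℕ) : ((range (J + 1) ×ˢ Ico qa qb).filter fun x => x.2 + vp x.1 + x.1 ≤ J ∧
      J < x.2 + vp x.1 + x.1 + K).card ≤ K * (qb - qa) := by
  classical
  obtain ⟨S, hS⟩ : ∃ S, S = (range (J + 1) ×ˢ Ico qa qb).filter fun x : ℕ × ℕ =>
    x.2 + vp x.1 + x.1 ≤ J ∧ J < x.2 + vp x.1 + x.1 + K := ⟨_, rfl⟩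
  rw [← hS]
  have h1 : S ⊆ (Ico qa qb).biUnion fun q => ((range (J + 1)).filter fun w =>
      q + vp w + w ≤ J ∧ J < q + vp w + w + K).image fun w => (w, q) := by
    intro x hx
    rw [hS, mem_filter, mem_product] at hx
    rw [mem_biUnion]
    exact ⟨x.2, hx.1.2, mem_image.2 ⟨x.1, mem_filter.2 ⟨hx.1.1, hx.2⟩, rfl⟩⟩
  refine (card_le_card h1).trans (card_biUnion_le.trans ?_)
  have h2 : ∀ q ∈ Ico qa qb, (((range (J + 1)).filter fun w =>
      q + vp w + w ≤ J ∧ J < q + vp w + w + K).image fun w => (w, q)).card ≤ K :=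
    fun q _ => card_image_le.trans (strip_one hv q K)
  refine (sum_le_sum h2).trans (le_of_eq ?_)
  rw [sum_const, Nat.card_Ico, smul_eq_mul, mul_comm]

/-- A last part of the windows of a mesh interval. -/
theorem last_card (X w₁ qa qb : ℕ) : (Ico (w₁ - X) w₁ ×ˢ Ico qa qb).card ≤ X * (qb - qa) := by
  rw [card_product, Nat.card_Ico, Nat.card_Ico]
  exact Nat.mul_le_mul_right _ (by omega)

end Strp

/-- The length of a cell of the mesh. -/
theorem msh_cell {n M N J : ℕ} (hM : 0 < M) (hN : 0 < N) (hn : n = M * N) (i : ℕ) :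
    (J : ℝ) / M - 1 ≤ (msh J n ((i + 1) * N) - msh J n (i * N) : ℕ) ∧
      ((msh J n ((i + 1) * N) - msh J n (i * N) : ℕ) : ℝ) ≤ J / M + 1 := by
  have hMr : (0 : ℝ) < M := by exact_mod_cast hM
  have hNr : (0 : ℝ) < N := by exact_mod_cast hN
  have hJ0 : (0 : ℝ) ≤ J := Nat.cast_nonneg J
  have e : ∀ j : ℕ, ((j * N : ℕ) : ℝ) / n * J = j * (J / M) := by
    intro j
    rw [hn]
    push_cast
    field_simp
  have h0 : ∀ j : ℕ, (0 : ℝ) ≤ j * (J / M) := fun j => by positivity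
  have h1 : ∀ j : ℕ, (msh J n (j * N) : ℝ) ≤ j * (J / M) ∧
      (j : ℝ) * (J / M) < (msh J n (j * N) : ℝ) + 1 := by
    intro j
    unfold msh
    rw [e]
    exact ⟨Nat.floor_le (h0 j), Nat.lt_floor_add_one _⟩
  have hle : msh J n (i * N) ≤ msh J n ((i + 1) * N) := by
    unfold msh
    rw [e, e]
    refine Nat.floor_le_floor ?_
    have : (0 : ℝ) ≤ J / M := by positivity
    push_cast
    linarith
  have h2 := h1 i
  have h3 := h1 (i + 1)
  push_cast at h3
  rw [Nat.cast_sub hle]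
  constructor <;> linarith [h2.1, h2.2, h3.1, h3.2]

/-- The windows are short in the cells: `C X ≤ γ (wb - wa)`. -/
theorem cell_room {n M N J X : ℕ} {C γ κ : ℝ} (hM : 0 < M) (hN : 0 < N) (hn : n = M * N)
    (hC : 0 ≤ C) (hγ : 0 ≤ γ) (hκC : κ * C ≤ γ / 2) (hX : (X : ℝ) ≤ κ * (1 / M * J))
    (hJ : 2 ≤ 1 / (M : ℝ) * J) (i : ℕ) :
    C * X ≤ γ * (msh J n ((i + 1) * N) - msh J n (i * N) : ℕ) := by
  have h1 := (msh_cell (J := J) hM hN hn i).1
  have e : (J : ℝ) / M = 1 / M * J := by ring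
  rw [e] at h1
  have h2 : C * X ≤ C * (κ * (1 / M * J)) := mul_le_mul_of_nonneg_left hX hC
  have h3 : κ * C * (1 / M * J) ≤ γ / 2 * (1 / M * J) :=
    mul_le_mul_of_nonneg_right hκC (by linarith)
  have h4 : γ * (1 / M * J - 1) ≤ γ * (msh J n ((i + 1) * N) - msh J n (i * N) : ℕ) :=
    mul_le_mul_of_nonneg_left h1 hγ
  have h5 : γ * 1 ≤ γ * (1 / 2 * (1 / M * J)) :=
    mul_le_mul_of_nonneg_left (by linarith) hγ
  linarith

/-- **The strip at the top**, for a monotone level. -/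
theorem strip_card (vp : ℕ → ℕ) (hv : Monotone vp) (J qa qb Y : ℕ) :
    ((range (J + 1) ×ˢ Ico qa qb).filter (fun x => x.2 + vp x.1 + x.1 ≤ J ∧
      J < x.2 + vp x.1 + x.1 + Y)).card ≤ Y * (qb - qa) :=
  Strp.strip_card (fun _ _ h _ => hv h) qa qb Y

/-- The length of a cell of the mesh. -/
theorem cell_len {J n M N i : ℕ} (hn : 1 ≤ n) (hM : 0 < M) (hMN : n = M * N) :
    1 / (M : ℝ) * J - 1 ≤ ((msh J n ((i + 1) * N) - msh J n (i * N) : ℕ) : ℝ) ∧
      ((msh J n ((i + 1) * N) - msh J n (i * N) : ℕ) : ℝ) ≤ 1 / (M : ℝ) * J + 1 := by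
  have hN : 0 < N := by
    rcases Nat.eq_zero_or_pos N with h | h
    · rw [h, mul_zero] at hMN
      omega
    · exact h
  have h := msh_cell (J := J) hM hN hMN i
  have e : (J : ℝ) / M = 1 / M * J := by ring
  rw [e] at h
  exact h

end Pool.PC
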