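import Pool.Agent.H13.K2S.OcDefs

/-!
# Plan C: one box

The information of the label of the context `(w, q)` about the line grows, when the window gets
shorter, at least by the entropy of the rows of the position in the context and of the label of the
shorter window in a finer context. No hypothesis on the family.
-/

set_option autoImplicit false

namespace Pool.PC

open Finset Real
open Pool.Agent.H49.Ent Pool.Agent.H32.Dense Pool.STK Pool.KA Pool.KSAT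

variable {m J : ℕ}

/-- The information of a label `b` of the windows `w` about the line. -/
noncomputable def nfo (F : Fam m J) {S : Type} (w : ℕ) (b : F.Ω → S) : ℝ :=
  CH F.p b F.Z - CH F.p (F.T1 w) (fun ω => (F.l ω, F.Z ω))

/-- The position at the beginning of the window `g`, in the frame `z`, rounded. -/
noncomputable def rws (F : Fam m J) (g a lam : ℕ) (i0 : Fin m) (z : F.Ω → Fin m → ℝ) (ω : F.Ω) :
    Fin m → ℤ := fl a (pco lam i0 (z ω) (F.x1 g ω))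

/-- The velocity in the frame `z`, rounded. -/
noncomputable def rvs (F : Fam m J) (c lam : ℕ) (i0 : Fin m) (z : F.Ω → Fin m → ℝ) (ω : F.Ω) :
    Fin m → ℤ := fl c (pco lam i0 (z ω) (F.d ω))

theorem fl_close {a : ℕ} {x y : Fin m → ℝ} {c : ℝ} (h : ∀ k, |x k - y k| ≤ c / 2 ^ a) (k : Fin m) :
    |((fl a x k - fl a y k : ℤ) : ℝ)| ≤ c + 1 := by
  have h2 : (0 : ℝ) < 2 ^ a := by positivity
  have h1 : |2 ^ a * x k - 2 ^ a * y k| ≤ c := by
    rw [← mul_sub, abs_mul, abs_of_pos h2]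
    have := mul_le_mul_of_nonneg_left (h k) h2.le
    rwa [mul_div_cancel₀ _ h2.ne'] at this
  have f1 := Int.floor_le (2 ^ a * x k)
  have f2 := Int.lt_floor_add_one (2 ^ a * x k)
  have f3 := Int.floor_le (2 ^ a * y k)
  have f4 := Int.lt_floor_add_one (2 ^ a * y k)
  change |((⌊2 ^ a * x k⌋ - ⌊2 ^ a * y k⌋ : ℤ) : ℝ)| ≤ _
  push_cast
  rw [abs_le] at h1 ⊢
  constructor <;> linarith [h1.1, h1.2]

theorem fl_same {a : ℕ} {x y : Fin m → ℝ} (h : fl a x = fl a y) (k : Fin m) :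
    |x k - y k| ≤ 1 / 2 ^ a := by
  have h2 : (0 : ℝ) < 2 ^ a := by positivity
  have h3 : ⌊2 ^ a * x k⌋ = ⌊2 ^ a * y k⌋ := congrFun h k
  have f1 := Int.floor_le (2 ^ a * x k)
  have f2 := Int.lt_floor_add_one (2 ^ a * x k)
  have f3 := Int.floor_le (2 ^ a * y k)
  have f4 := Int.lt_floor_add_one (2 ^ a * y k)
  rw [h3] at f1 f2
  have h1 : |2 ^ a * x k - 2 ^ a * y k| ≤ 1 := by
    rw [abs_le]
    constructor <;> linarith
  rw [← mul_sub, abs_mul, abs_of_pos h2] at h1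
  rw [le_div_iff₀ h2]
  linarith

theorem pco_sub (lam : ℕ) (i0 : Fin m) (z x y : Fin m → ℝ) (k : Fin m) :
    pco lam i0 z (fun i => x i - y i) k = pco lam i0 z x k - pco lam i0 z y k := by
  unfold pco
  split_ifs <;> ring

theorem pco_add_mul (lam : ℕ) (i0 : Fin m) (z x y : Fin m → ℝ) (s : ℝ) (k : Fin m) :
    pco lam i0 z (fun i => x i + s * y i) k = pco lam i0 z x k + s * pco lam i0 z y k := by
  unfold pco
  split_ifs <;> ring

/-- Change of the frame. -/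
theorem pco_frame {l l' : ℕ} (hl : l ≤ l') (i0 : Fin m) {z z' : Fin m → ℝ} {C₀ δ : ℝ}
    (hz : ∀ j, j ≠ i0 → |z j - z' j| ≤ C₀ / 2 ^ l) {x : Fin m → ℝ}
    (hC₀ : 0 ≤ C₀) (hx : ∀ k, |pco l' i0 z' x k| ≤ δ) (k : Fin m) :
    |pco l i0 z x k| ≤ (1 + C₀) * δ := by
  have h2 : (0 : ℝ) < 2 ^ l := by positivity
  have hδ : 0 ≤ δ := (abs_nonneg _).trans (hx i0)
  have h0 : |x i0| ≤ δ := by
    have := hx i0
    unfold pco at this
    rwa [if_pos rfl] at this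
  by_cases hk : k = i0
  · unfold pco
    rw [if_pos hk]
    have : 0 ≤ C₀ * δ := mul_nonneg hC₀ hδ
    linarith
  · have h1 := hx k
    unfold pco at h1 ⊢
    rw [if_neg hk] at h1 ⊢
    have e : 2 ^ l * (x k - z k * x i0) = 2 ^ l * (x k - z' k * x i0) -
        2 ^ l * (z k - z' k) * x i0 := by ring
    rw [e]
    have g1 : |2 ^ l * (x k - z' k * x i0)| ≤ δ := by
      refine le_trans ?_ h1
      rw [abs_mul, abs_mul, abs_of_pos h2, abs_of_pos (show (0 : ℝ) < 2 ^ l' by positivity)]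
      exact mul_le_mul_of_nonneg_right (pow_le_pow_right₀ (by norm_num) hl) (abs_nonneg _)
    have g2 : |2 ^ l * (z k - z' k) * x i0| ≤ C₀ * δ := by
      rw [abs_mul, abs_mul, abs_of_pos h2]
      refine mul_le_mul ?_ h0 (abs_nonneg _) hC₀
      have := mul_le_mul_of_nonneg_left (hz k hk) h2.le
      rwa [mul_div_cancel₀ _ h2.ne'] at this
    refine (abs_sub _ _).trans ?_
    linarith

theorem T1_div (F : Fam m J) {w X : ℕ} (h : w + X ≤ J) (ω : F.Ω) :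
    F.T1 (w + X) ω / 2 ^ X = F.T1 w ω := by
  unfold Fam.T1
  rw [Nat.div_div_eq_div_mul, ← pow_add]
  congr 2
  omega

/-- The difference of the beginnings of two windows. -/
theorem x1_shift (F : Fam m J) {w X : ℕ} (h : w + X ≤ J) (ω : F.Ω) :
    ∃ s : ℝ, s = (F.T1 (w + X) ω : ℝ) / 2 ^ (w + X) - (F.T1 w ω : ℝ) / 2 ^ w ∧ 0 ≤ s ∧
      s ≤ 1 / 2 ^ w ∧ F.x1 (w + X) ω = fun i => F.x1 w ω i + s * F.d ω i := by
  have hw : (0 : ℝ) < 2 ^ w := by positivity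
  have hX : (0 : ℝ) < 2 ^ X := by positivity
  have e1 := T1_div F h ω
  have e2 : F.T1 w ω * 2 ^ X ≤ F.T1 (w + X) ω := by
    rw [← e1]
    exact Nat.div_mul_le_self _ _
  have e3 : F.T1 (w + X) ω < (F.T1 w ω + 1) * 2 ^ X := by
    rw [← e1]
    have := Nat.lt_div_mul_add (a := F.T1 (w + X) ω) (b := 2 ^ X) (by positivity)
    have e : (F.T1 (w + X) ω / 2 ^ X + 1) * 2 ^ X =
      F.T1 (w + X) ω / 2 ^ X * 2 ^ X + 2 ^ X := by ring
    rw [e]
    exact this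
  have e2' : (F.T1 w ω : ℝ) * 2 ^ X ≤ F.T1 (w + X) ω := by exact_mod_cast e2
  have e3' : (F.T1 (w + X) ω : ℝ) < (F.T1 w ω + 1) * 2 ^ X := by exact_mod_cast e3
  have e4 : (F.T1 (w + X) ω : ℝ) / 2 ^ (w + X) - (F.T1 w ω : ℝ) / 2 ^ w =
      ((F.T1 (w + X) ω : ℝ) - F.T1 w ω * 2 ^ X) / 2 ^ (w + X) := by
    rw [pow_add]
    field_simp
  refine ⟨_, rfl, ?_, ?_, ?_⟩
  · rw [e4]
    exact div_nonneg (by linarith) (by positivity)
  · rw [e4, div_le_div_iff₀ (by positivity) hw, pow_add]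
    nlinarith
  · funext i
    unfold Fam.x1
    ring

/-- Equal fine digits give equal coarse digits. -/
theorem fl_crs {a b : ℕ} (hab : a ≤ b) {x y : Fin m → ℝ} (h : fl b x = fl b y) :
    fl a x = fl a y := by
  have e : ∀ r : ℝ, ⌊(2 : ℝ) ^ a * r⌋ = ⌊(2 : ℝ) ^ b * r⌋ / ((2 ^ (b - a) : ℕ) : ℤ) := by
    intro r
    rw [← Int.floor_div_natCast]
    congr 1
    push_cast
    have e1 : (2 : ℝ) ^ b = 2 ^ a * 2 ^ (b - a) := by rw [← pow_add, Nat.add_sub_cancel' hab]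
    rw [e1]
    field_simp
  funext k
  have h1 : ⌊(2 : ℝ) ^ b * x k⌋ = ⌊(2 : ℝ) ^ b * y k⌋ := congrFun h k
  show ⌊(2 : ℝ) ^ a * x k⌋ = ⌊(2 : ℝ) ^ a * y k⌋
  rw [e, e, h1]

/-- Integer vectors which are determined up to a bounded error. -/
theorem CH_bd {Ω S : Type} [Fintype Ω] {n : ℕ} {p : Ω → ℝ} (hp : IsLaw p) (X : Ω → Fin n → ℤ)
    (W : Ω → S) (c : ℝ) (h : ∀ ω ω', 0 < p ω → 0 < p ω' → W ω = W ω' →
      ∀ k, |((X ω k - X ω' k : ℤ) : ℝ)| ≤ c) : CH p X W ≤ n * Real.log (2 * c + 1) := by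
  have := CH_le_vec hp.nonneg hp.sum_one X W (fun _ => c) h
  rwa [Ex_const hp.sum_one] at this

open Classical in
/-- **One box.** -/
theorem one_box (m : ℕ) (C₀ : ℝ) (hC₀ : 0 ≤ C₀) : ∃ C : ℝ, 0 ≤ C ∧ ∀ (J : ℕ) (F : Fam m J)
    (i0 : Fin m) (w q X Y l l' : ℕ) (z z' : F.Ω → Fin m → ℝ), w + X ≤ J → l ≤ l' →
    (∀ ω j, ∃ k : ℤ, z ω j = k / 2 ^ l) → (∀ ω, z ω i0 = 0) → Det F.p (slam F w) z →
    (∀ ω, 0 < F.p ω → ∀ j, j ≠ i0 → |z ω j - z' ω j| ≤ C₀ / 2 ^ l) →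
    nfo F w (F.qlb w q l i0 z) +
      CH F.p (rws F (w + X) (q + Y + w) l i0 z) (fun ω => (F.qlb w q l i0 z ω, F.T1 (w + X) ω)) +
      CH F.p (F.qlb (w + X) q l' i0 z')
        (fun ω => (F.qlb w (q + Y) l i0 z ω, F.T1 (w + X) ω)) ≤
      nfo F (w + X) (F.qlb (w + X) q l' i0 z') +
      CH F.p (rws F (w + X) (q + Y + w) l i0 z) (F.qlb (w + X) q l' i0 z') + C := by
  have hc1 : 0 ≤ Real.log (2 * (2 + 1) + 1) := Real.log_nonneg (by norm_num)
  have hc2 : 0 ≤ Real.log (2 * (2 * C₀) + 1) := Real.log_nonneg (by linarith)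
  have hc3 : 0 ≤ Real.log (2 * (2 * (1 + C₀) + 1) + 1) := Real.log_nonneg (by linarith)
  refine ⟨m * Real.log (2 * (2 + 1) + 1) + m * Real.log (2 * (2 * C₀) + 1) +
    2 * (m * Real.log (2 * (2 * (1 + C₀) + 1) + 1)) + m * Real.log (2 * (2 + 1) + 1),
    by positivity, ?_⟩
  intro J F i0 w q X Y l l' z z' hwX hl hgr hz0 hzd hcl
  have hp := F.isLaw
  have hp0 := hp.nonneg
  -- names
  obtain ⟨b0, hb0⟩ : ∃ b, b = F.qlb w q l i0 z := ⟨_, rfl⟩
  obtain ⟨b1, hb1⟩ : ∃ b, b = F.qlb w (q + Y) l i0 z := ⟨_, rfl⟩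
  obtain ⟨b2, hb2⟩ : ∃ b, b = F.qlb (w + X) q l' i0 z' := ⟨_, rfl⟩
  obtain ⟨R, hR⟩ : ∃ R, R = rws F (w + X) (q + Y + w) l i0 z := ⟨_, rfl⟩
  obtain ⟨D, hD⟩ : ∃ D, D = rvs F (q + Y) l i0 z := ⟨_, rfl⟩
  rw [← hb0, ← hb1, ← hb2, ← hR]
  -- the components of the labels
  have c0 : ∀ ω, b0 ω = (((F.T1 w ω, z ω), (rws F w (q + w) l i0 z ω, rvs F q l i0 z ω)),
      F.Z ω) := fun ω => by rw [hb0]; rfl
  have c1 : ∀ ω, b1 ω = (((F.T1 w ω, z ω), (rws F w (q + Y + w) l i0 z ω, D ω)), F.Z ω) :=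
    fun ω => by rw [hb1, hD]; rfl
  have c2 : ∀ ω, b2 ω = (((F.T1 (w + X) ω, z' ω), (rws F (w + X) (q + (w + X)) l' i0 z' ω,
      rvs F q l' i0 z' ω)), F.Z ω) := fun ω => by rw [hb2]; rfl
  have eT : ∀ ω ω', F.T1 (w + X) ω = F.T1 (w + X) ω' → F.T1 w ω = F.T1 w ω' := by
    intro ω ω' h
    rw [← T1_div F hwX ω, ← T1_div F hwX ω', h]
  have b1Z : ∀ ω ω', b1 ω = b1 ω' → F.T1 w ω = F.T1 w ω' ∧ z ω = z ω' ∧
      rws F w (q + Y + w) l i0 z ω = rws F w (q + Y + w) l i0 z ω' ∧ D ω = D ω' ∧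
      F.Z ω = F.Z ω' := by
    intro ω ω' h
    rw [c1, c1] at h
    simp only [Prod.mk.injEq] at h
    tauto
  have b2Z : ∀ ω ω', b2 ω = b2 ω' → F.T1 (w + X) ω = F.T1 (w + X) ω' ∧ z' ω = z' ω' ∧
      rws F (w + X) (q + (w + X)) l' i0 z' ω = rws F (w + X) (q + (w + X)) l' i0 z' ω' ∧
      rvs F q l' i0 z' ω = rvs F q l' i0 z' ω' ∧ F.Z ω = F.Z ω' := by
    intro ω ω' h
    rw [c2, c2] at h
    simp only [Prod.mk.injEq] at h
    tauto
  have b0Z : ∀ ω ω', b0 ω = b0 ω' → F.Z ω = F.Z ω' := by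
    intro ω ω' h
    rw [c0, c0] at h
    simp only [Prod.mk.injEq] at h
    tauto
  -- the coarse label is a function of the fine label
  have b10 : ∀ ω ω', b1 ω = b1 ω' → b0 ω = b0 ω' := by
    intro ω ω' h
    obtain ⟨h1, h2, h3, h4, h5⟩ := b1Z ω ω' h
    rw [hD] at h4
    have h6 : rws F w (q + w) l i0 z ω = rws F w (q + w) l i0 z ω' :=
      fl_crs (by omega) h3
    have h7 : rvs F q l i0 z ω = rvs F q l i0 z ω' := fl_crs (by omega) h4
    rw [c0, c0, h1, h2, h5, h6, h7]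
  -- differences
  have hsh : ∀ ω ω', F.T1 (w + X) ω = F.T1 (w + X) ω' → ∃ s : ℝ, 0 ≤ s ∧ s ≤ 1 / 2 ^ w ∧
      (F.x1 (w + X) ω = fun i => F.x1 w ω i + s * F.d ω i) ∧
      (F.x1 (w + X) ω' = fun i => F.x1 w ω' i + s * F.d ω' i) := by
    intro ω ω' h
    obtain ⟨s, hs, s0, s1, hs2⟩ := x1_shift F hwX ω
    obtain ⟨s', hs', -, -, hs2'⟩ := x1_shift F hwX ω'
    have e : s = s' := by rw [hs, hs', h, eT ω ω' h]
    rw [← e] at hs2'
    exact ⟨s, s0, s1, hs2, hs2'⟩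
  -- (1) the rows are determined by the fine label and the time
  have r1 : CH F.p R (fun ω => (b1 ω, (b0 ω, F.T1 (w + X) ω))) ≤
      m * Real.log (2 * (2 + 1) + 1) := by
    refine CH_bd hp _ _ _ fun ω ω' hω hω' h k => ?_
    have h1 := (Prod.ext_iff.mp h).1
    have hT := (Prod.ext_iff.mp (Prod.ext_iff.mp h).2).2
    simp only at h1 hT
    obtain ⟨-, h2, h3, h4, -⟩ := b1Z ω ω' h1
    obtain ⟨s, s0, s1, e, e'⟩ := hsh ω ω' hT
    rw [hR]
    unfold rws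
    refine fl_close (fun j => ?_) k
    rw [hD] at h4
    have g3 := fl_same h3 j
    have g4 := fl_same h4 j
    rw [e, e', pco_add_mul, pco_add_mul, ← h2]
    rw [← h2] at g3 g4
    have e5 : pco l i0 (z ω) (F.x1 w ω) j + s * pco l i0 (z ω) (F.d ω) j -
        (pco l i0 (z ω) (F.x1 w ω') j + s * pco l i0 (z ω) (F.d ω') j) =
        (pco l i0 (z ω) (F.x1 w ω) j - pco l i0 (z ω) (F.x1 w ω') j) +
        s * (pco l i0 (z ω) (F.d ω) j - pco l i0 (z ω) (F.d ω') j) := by ring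
    rw [e5]
    refine (abs_add_le _ _).trans ?_
    rw [abs_mul, abs_of_nonneg s0]
    have g5 : s * |pco l i0 (z ω) (F.d ω) j - pco l i0 (z ω) (F.d ω') j| ≤
        1 / 2 ^ w * (1 / 2 ^ (q + Y)) :=
      mul_le_mul s1 g4 (abs_nonneg _) (by positivity)
    have g6 : (1 : ℝ) / 2 ^ w * (1 / 2 ^ (q + Y)) = 1 / 2 ^ (q + Y + w) := by
      rw [pow_add 2 (q + Y) w]
      field_simp
    have g7 : (2 : ℝ) / 2 ^ (q + Y + w) = 1 / 2 ^ (q + Y + w) + 1 / 2 ^ (q + Y + w) := by ring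
    rw [g7]
    linarith
  -- (2) the frame of the long window is determined by the frame of the short window
  have r2 : CH F.p z (fun ω => (b2 ω, F.Z ω)) ≤ m * Real.log (2 * (2 * C₀) + 1) := by
    have h1 : CH F.p z (fun ω => (b2 ω, F.Z ω)) ≤
        CH F.p (fun ω j => ⌊(2 : ℝ) ^ l * z ω j⌋) (fun ω => (b2 ω, F.Z ω)) := by
      refine CH_mono_left hp0 fun ω ω' _ _ h => ?_
      have h2 := (Prod.ext_iff.mp h).1
      simp only at h2
      funext j
      obtain ⟨k, hk⟩ := hgr ω j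
      obtain ⟨k', hk'⟩ := hgr ω' j
      have h3 := congrFun h2 j
      simp only [hk, hk'] at h3
      rw [mul_div_cancel₀ _ (by positivity), mul_div_cancel₀ _ (by positivity), Int.floor_intCast,
        Int.floor_intCast] at h3
      rw [hk, hk', h3]
    refine h1.trans (CH_bd hp _ _ _ fun ω ω' hω hω' h j => ?_)
    obtain ⟨-, h2, -⟩ := b2Z ω ω' (Prod.ext_iff.mp h).1
    have h2l : (0 : ℝ) < 2 ^ l := by positivity
    obtain ⟨k, hk⟩ := hgr ω j
    obtain ⟨k', hk'⟩ := hgr ω' j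
    simp only [hk, hk']
    rw [mul_div_cancel₀ _ (by positivity), mul_div_cancel₀ _ (by positivity), Int.floor_intCast,
      Int.floor_intCast]
    by_cases hj : j = i0
    · have e1 := hz0 ω
      have e2 := hz0 ω'
      rw [← hj] at e1 e2
      rw [hk] at e1
      rw [hk'] at e2
      have e3 : (k : ℝ) = 0 := by
        rcases div_eq_zero_iff.1 e1 with h | h
        · exact h
        · exact absurd h h2l.ne'
      have e4 : (k' : ℝ) = 0 := by
        rcases div_eq_zero_iff.1 e2 with h | h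
        · exact h
        · exact absurd h h2l.ne'
      push_cast
      rw [e3, e4, sub_zero, abs_zero]
      linarith
    · have g1 := hcl ω hω j hj
      have g2 := hcl ω' hω' j hj
      rw [← h2] at g2
      have g3 : |z ω j - z ω' j| ≤ 2 * C₀ / 2 ^ l := by
        have e1 : z ω j - z ω' j = (z ω j - z' ω j) - (z ω' j - z' ω j) := by ring
        rw [e1]
        refine (abs_sub _ _).trans ?_
        have e2 : 2 * C₀ / 2 ^ l = C₀ / 2 ^ l + C₀ / 2 ^ l := by ring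
        rw [e2]
        exact add_le_add g1 g2
      rw [hk, hk', ← sub_div, abs_div, abs_of_pos h2l] at g3
      rw [div_le_div_iff_of_pos_right h2l] at g3
      push_cast
      exact g3
  -- differences in the frame of the long window
  have hb2d : ∀ ω ω', 0 < F.p ω → b2 ω = b2 ω' →
      (∀ k, |pco l i0 (z ω) (F.x1 (w + X) ω) k - pco l i0 (z ω) (F.x1 (w + X) ω') k| ≤
        (1 + C₀) * (1 / 2 ^ (q + (w + X)))) ∧
      ∀ k, |pco l i0 (z ω) (F.d ω) k - pco l i0 (z ω) (F.d ω') k| ≤ (1 + C₀) * (1 / 2 ^ q) := by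
    intro ω ω' hω h
    obtain ⟨-, h2, h3, h4, -⟩ := b2Z ω ω' h
    constructor
    · intro k
      rw [← pco_sub]
      refine pco_frame hl i0 (hcl ω hω) hC₀ (fun k => ?_) k
      rw [pco_sub]
      have := fl_same h3 k
      rwa [← h2] at this
    · intro k
      rw [← pco_sub]
      refine pco_frame hl i0 (hcl ω hω) hC₀ (fun k => ?_) k
      rw [pco_sub]
      have := fl_same h4 k
      rwa [← h2] at this
  -- (3) the coarse label of the long window is determined by the label of the short window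
  have r3 : CH F.p (fun ω => (b0 ω, F.T1 (w + X) ω)) (fun ω => (R ω, (z ω, (b2 ω, F.Z ω)))) ≤
      2 * (m * Real.log (2 * (2 * (1 + C₀) + 1) + 1)) := by
    have h1 : CH F.p (fun ω => (b0 ω, F.T1 (w + X) ω)) (fun ω => (R ω, (z ω, (b2 ω, F.Z ω)))) ≤
        CH F.p (fun ω => (rws F w (q + w) l i0 z ω, rvs F q l i0 z ω))
          (fun ω => (R ω, (z ω, (b2 ω, F.Z ω)))) := by
      refine CH_mono_left hp0 fun ω ω' _ _ h => ?_
      simp only [Prod.mk.injEq] at h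
      obtain ⟨⟨h1, h2⟩, -, h3, h4, h5⟩ := h
      have hT := (b2Z ω ω' h4).1
      rw [c0, c0, h1, h2, h3, h5, hT, eT ω ω' hT]
    have h2 := CH_subadd hp0 (rws F w (q + w) l i0 z) (rvs F q l i0 z)
      (fun ω => (R ω, (z ω, (b2 ω, F.Z ω))))
    have h3 : CH F.p (rws F w (q + w) l i0 z) (fun ω => (R ω, (z ω, (b2 ω, F.Z ω)))) ≤
        m * Real.log (2 * (2 * (1 + C₀) + 1) + 1) := by
      refine CH_bd hp _ _ _ fun ω ω' hω hω' h k => ?_
      simp only [Prod.mk.injEq] at h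
      obtain ⟨-, h3, h4, -⟩ := h
      obtain ⟨g1, g2⟩ := hb2d ω ω' hω h4
      obtain ⟨s, s0, s1, e, e'⟩ := hsh ω ω' (b2Z ω ω' h4).1
      unfold rws
      refine fl_close (fun j => ?_) k
      rw [← h3]
      have g1' := g1 j
      rw [e, e', pco_add_mul, pco_add_mul] at g1'
      have e5 : pco l i0 (z ω) (F.x1 w ω) j - pco l i0 (z ω) (F.x1 w ω') j =
          (pco l i0 (z ω) (F.x1 w ω) j + s * pco l i0 (z ω) (F.d ω) j -
          (pco l i0 (z ω) (F.x1 w ω') j + s * pco l i0 (z ω) (F.d ω') j)) -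
          s * (pco l i0 (z ω) (F.d ω) j - pco l i0 (z ω) (F.d ω') j) := by ring
      rw [e5]
      refine (abs_sub _ _).trans ?_
      rw [abs_mul, abs_of_nonneg s0]
      have g5 : s * |pco l i0 (z ω) (F.d ω) j - pco l i0 (z ω) (F.d ω') j| ≤
          1 / 2 ^ w * ((1 + C₀) * (1 / 2 ^ q)) :=
        mul_le_mul s1 (g2 j) (abs_nonneg _) (by positivity)
      have g6 : (1 : ℝ) / 2 ^ w * ((1 + C₀) * (1 / 2 ^ q)) = (1 + C₀) * (1 / 2 ^ (q + w)) := by
        rw [pow_add 2 q w]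
        field_simp
      have g7 : (1 : ℝ) / 2 ^ (q + (w + X)) ≤ 1 / 2 ^ (q + w) :=
        one_div_le_one_div_of_le (by positivity) (pow_le_pow_right₀ (by norm_num) (by omega))
      have g8 := mul_le_mul_of_nonneg_left g7 (show 0 ≤ 1 + C₀ by linarith)
      have g9 : 2 * (1 + C₀) / 2 ^ (q + w) = (1 + C₀) * (1 / 2 ^ (q + w)) +
        (1 + C₀) * (1 / 2 ^ (q + w)) := by ring
      rw [g9]
      linarith
    have h4 : CH F.p (rvs F q l i0 z) (fun ω => (R ω, (z ω, (b2 ω, F.Z ω)))) ≤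
        m * Real.log (2 * (2 * (1 + C₀) + 1) + 1) := by
      refine CH_bd hp _ _ _ fun ω ω' hω hω' h k => ?_
      simp only [Prod.mk.injEq] at h
      obtain ⟨-, h3, h4, -⟩ := h
      obtain ⟨g1, g2⟩ := hb2d ω ω' hω h4
      unfold rvs
      refine fl_close (fun j => ?_) k
      rw [← h3]
      refine (g2 j).trans ?_
      have g9 : 2 * (1 + C₀) / 2 ^ q = (1 + C₀) * (1 / 2 ^ q) + (1 + C₀) * (1 / 2 ^ q) := by ring
      rw [g9]
      have : 0 ≤ (1 + C₀) * (1 / 2 ^ q) := by positivity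
      linarith
    linarith
  -- (4) the fine label of the long window
  have r4 : CH F.p b1 (fun ω => (D ω, (R ω, (z ω, (b2 ω, F.Z ω))))) ≤
      m * Real.log (2 * (2 + 1) + 1) := by
    have h1 : CH F.p b1 (fun ω => (D ω, (R ω, (z ω, (b2 ω, F.Z ω))))) ≤
        CH F.p (rws F w (q + Y + w) l i0 z) (fun ω => (D ω, (R ω, (z ω, (b2 ω, F.Z ω))))) := by
      refine CH_mono_left hp0 fun ω ω' _ _ h => ?_
      simp only [Prod.mk.injEq] at h
      obtain ⟨h1, h2, -, h3, h4, h5⟩ := h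
      have hT := (b2Z ω ω' h4).1
      rw [c1, c1, h1, h2, h3, h5, eT ω ω' hT]
    refine h1.trans (CH_bd hp _ _ _ fun ω ω' hω hω' h k => ?_)
    simp only [Prod.mk.injEq] at h
    obtain ⟨h1, h2, h3, h4, -⟩ := h
    obtain ⟨s, s0, s1, e, e'⟩ := hsh ω ω' (b2Z ω ω' h4).1
    unfold rws
    refine fl_close (fun j => ?_) k
    rw [hD] at h1
    rw [hR] at h2
    have g3 := fl_same h1 j
    have g4 := fl_same h2 j
    rw [← h3] at g3 g4 ⊢
    rw [e, e', pco_add_mul, pco_add_mul] at g4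
    have e5 : pco l i0 (z ω) (F.x1 w ω) j - pco l i0 (z ω) (F.x1 w ω') j =
        (pco l i0 (z ω) (F.x1 w ω) j + s * pco l i0 (z ω) (F.d ω) j -
        (pco l i0 (z ω) (F.x1 w ω') j + s * pco l i0 (z ω) (F.d ω') j)) -
        s * (pco l i0 (z ω) (F.d ω) j - pco l i0 (z ω) (F.d ω') j) := by ring
    rw [e5]
    refine (abs_sub _ _).trans ?_
    rw [abs_mul, abs_of_nonneg s0]
    have g5 : s * |pco l i0 (z ω) (F.d ω) j - pco l i0 (z ω) (F.d ω') j| ≤
        1 / 2 ^ w * (1 / 2 ^ (q + Y)) :=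
      mul_le_mul s1 g3 (abs_nonneg _) (by positivity)
    have g6 : (1 : ℝ) / 2 ^ w * (1 / 2 ^ (q + Y)) = 1 / 2 ^ (q + Y + w) := by
      rw [pow_add 2 (q + Y) w]
      field_simp
    have g7 : (2 : ℝ) / 2 ^ (q + Y + w) = 1 / 2 ^ (q + Y + w) + 1 / 2 ^ (q + Y + w) := by ring
    rw [g7]
    linarith
  -- the calculus
  have E1 : CH F.p b1 F.Z = CH F.p b0 F.Z + CH F.p b1 (fun ω => (b0 ω, F.Z ω)) := by
    rw [← CH_chain hp0]
    refine CH_congr hp0 ?_ ?_ ?_ ?_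
    · intro ω ω' _ _ h
      have h1 := (Prod.ext_iff.mp h).1
      exact Prod.ext h1 (b10 ω ω' h1)
    · intro ω ω' _ _ h
      exact (Prod.ext_iff.mp (Prod.ext_iff.mp h).1).1
    · intro ω ω' _ _ h
      exact h
    · intro ω ω' _ _ h
      exact h
  have E2 : CH F.p b1 (fun ω => (b0 ω, F.T1 (w + X) ω)) ≤ CH F.p b1 (fun ω => (b0 ω, F.Z ω)) := by
    refine CH_mono_cond hp0 fun ω ω' _ _ h => ?_
    have h1 := (Prod.ext_iff.mp h).1
    exact Prod.ext h1 (b0Z ω ω' h1)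
  have E3 := CH_le_add hp0 (fun ω => (D ω, R ω)) b1 (fun ω => (b0 ω, F.T1 (w + X) ω))
  have E3' : CH F.p (fun ω => (D ω, R ω)) (fun ω => (b1 ω, (b0 ω, F.T1 (w + X) ω))) ≤
      CH F.p R (fun ω => (b1 ω, (b0 ω, F.T1 (w + X) ω))) := by
    refine CH_mono_left hp0 fun ω ω' _ _ h => ?_
    have h1 := (Prod.ext_iff.mp h).1
    have h2 := (Prod.ext_iff.mp (Prod.ext_iff.mp h).2).1
    exact Prod.ext (b1Z ω ω' h2).2.2.2.1 h1
  have E4 := CH_chain hp0 D R (fun ω => (b0 ω, F.T1 (w + X) ω))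
  have E5 := CH_chain hp0 b2 b1 F.Z
  have E5' := CH_chain hp0 b1 b2 F.Z
  have E5'' : CH F.p (fun ω => (b2 ω, b1 ω)) F.Z = CH F.p (fun ω => (b1 ω, b2 ω)) F.Z := by
    refine CH_congr hp0 ?_ ?_ ?_ ?_
    · intro ω ω' _ _ h
      simp only [Prod.mk.injEq] at h ⊢
      tauto
    · intro ω ω' _ _ h
      simp only [Prod.mk.injEq] at h ⊢
      tauto
    · intro ω ω' _ _ h
      exact h
    · intro ω ω' _ _ h
      exact h
  have E6 : CH F.p b2 (fun ω => (b1 ω, F.Z ω)) =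
      CH F.p (F.T1 (w + X)) (fun ω => (b1 ω, F.Z ω)) +
      CH F.p b2 (fun ω => (F.T1 (w + X) ω, (b1 ω, F.Z ω))) := by
    rw [← CH_chain hp0]
    refine CH_congr hp0 ?_ ?_ ?_ ?_
    · intro ω ω' _ _ h
      have h1 := (Prod.ext_iff.mp h).1
      exact Prod.ext h1 (b2Z ω ω' h1).1
    · intro ω ω' _ _ h
      exact (Prod.ext_iff.mp (Prod.ext_iff.mp h).1).1
    · intro ω ω' _ _ h
      exact h
    · intro ω ω' _ _ h
      exact h
  have E7 : CH F.p b2 (fun ω => (b1 ω, F.T1 (w + X) ω)) ≤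
      CH F.p b2 (fun ω => (F.T1 (w + X) ω, (b1 ω, F.Z ω))) := by
    refine CH_mono_cond hp0 fun ω ω' _ _ h => ?_
    have h1 := (Prod.ext_iff.mp h).1
    have h2 := (Prod.ext_iff.mp h).2
    simp only at h1 h2
    exact Prod.ext h2 (Prod.ext h1 (b1Z ω ω' h1).2.2.2.2)
  have E8 : CH F.p (F.T1 (w + X)) (slam F w) ≤ CH F.p (F.T1 (w + X)) (fun ω => (b1 ω, F.Z ω)) := by
    refine CH_mono_cond hp0 fun ω ω' hω hω' h => ?_
    have hz := hzd ω ω' hω hω' h
    unfold slam at h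
    simp only [Prod.mk.injEq] at h
    obtain ⟨h1, h2, h3⟩ := h
    have hu : F.u ω = F.u ω' := (Prod.ext_iff.mp h1).1
    have hd : F.d ω = F.d ω' := (Prod.ext_iff.mp h1).2
    have hx : F.x1 w ω = F.x1 w ω' := by
      funext i
      unfold Fam.x1
      rw [hu, hd, h3]
    have e1 : rws F w (q + Y + w) l i0 z ω = rws F w (q + Y + w) l i0 z ω' := by
      unfold rws
      rw [hz, hx]
    have e2 : D ω = D ω' := by
      rw [hD]
      unfold rvs
      rw [hz, hd]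
    have e3 : b1 ω = b1 ω' := by rw [c1, c1, h3, hz, e1, e2, h2]
    exact Prod.ext e3 h2
  have E9 : CH F.p (F.T1 (w + X)) (fun ω => (F.l ω, F.Z ω)) ≤
      CH F.p (F.T1 w) (fun ω => (F.l ω, F.Z ω)) + CH F.p (F.T1 (w + X)) (slam F w) := by
    have h1 := CH_le_add hp0 (F.T1 (w + X)) (F.T1 w) (fun ω => (F.l ω, F.Z ω))
    have h2 : CH F.p (F.T1 (w + X)) (fun ω => (F.T1 w ω, (F.l ω, F.Z ω))) ≤
        CH F.p (F.T1 (w + X)) (slam F w) := by
      refine CH_mono_cond hp0 fun ω ω' _ _ h => ?_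
      unfold slam
      simp only [Prod.mk.injEq] at h ⊢
      tauto
    linarith
  have E9' : CH F.p (F.T1 w) (fun ω => (F.l ω, F.Z ω)) + CH F.p (F.T1 (w + X)) (slam F w) ≤
      CH F.p (F.T1 (w + X)) (fun ω => (F.l ω, F.Z ω)) := by
    have h1 := CH_chain hp0 (F.T1 (w + X)) (F.T1 w) (fun ω => (F.l ω, F.Z ω))
    have h2 : CH F.p (fun ω => (F.T1 (w + X) ω, F.T1 w ω)) (fun ω => (F.l ω, F.Z ω)) ≤
        CH F.p (F.T1 (w + X)) (fun ω => (F.l ω, F.Z ω)) := by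
      refine CH_mono_left hp0 fun ω ω' _ _ h => ?_
      have h3 := (Prod.ext_iff.mp h).1
      exact Prod.ext h3 (eT ω ω' h3)
    have h3 : CH F.p (F.T1 (w + X)) (slam F w) ≤
        CH F.p (F.T1 (w + X)) (fun ω => (F.T1 w ω, (F.l ω, F.Z ω))) := by
      refine CH_mono_cond hp0 fun ω ω' _ _ h => ?_
      unfold slam at h
      simp only [Prod.mk.injEq] at h ⊢
      tauto
    linarith
  have E10 := CH_le_add hp0 b1 z (fun ω => (b2 ω, F.Z ω))
  have E11 := CH_le_add hp0 b1 R (fun ω => (z ω, (b2 ω, F.Z ω)))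
  have E12 : CH F.p R (fun ω => (z ω, (b2 ω, F.Z ω))) ≤ CH F.p R b2 := by
    refine CH_mono_cond hp0 fun ω ω' _ _ h => ?_
    simp only [Prod.mk.injEq] at h
    tauto
  have E13 := CH_le_add hp0 b1 D (fun ω => (R ω, (z ω, (b2 ω, F.Z ω))))
  have E14 := CH_le_add hp0 D (fun ω => (b0 ω, F.T1 (w + X) ω))
    (fun ω => (R ω, (z ω, (b2 ω, F.Z ω))))
  have E15 : CH F.p D (fun ω => ((b0 ω, F.T1 (w + X) ω), (R ω, (z ω, (b2 ω, F.Z ω))))) ≤
      CH F.p D (fun ω => (R ω, (b0 ω, F.T1 (w + X) ω))) := by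
    refine CH_mono_cond hp0 fun ω ω' _ _ h => ?_
    simp only [Prod.mk.injEq] at h ⊢
    tauto
  unfold nfo
  linarith

end Pool.PC
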