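import Pool.Agent.H64.PC.Box

/-!
# Row FULL: from the unit blocks to the label of the shorter window

The rows of the blocks at the contexts `b j`, `j ≤ n`, are full. Then every variable which
determines the base coordinate to `a + X` digits and the normal coordinate to `k + X + d` digits has
large entropy in the context `b 0`.
-/

set_option autoImplicit false

namespace Pool.PC

open Finset Real
open Pool.Agent.H49.Ent Pool.Agent.H32.Dense Pool.STK

namespace Chn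

variable {Ω S S' T U : Type} [Fintype Ω] {p : Ω → ℝ}

/-- Integers which are known up to a bounded error. -/
theorem CH_z (hp : IsLaw p) (X : Ω → ℤ) (W : Ω → S) {c : ℝ}
    (hX : ∀ ω ω', 0 < p ω → 0 < p ω' → W ω = W ω' → |((X ω - X ω' : ℤ) : ℝ)| ≤ c) :
    CH p X W ≤ Real.log (2 * c + 1) := by
  have h1 := CH_bd (n := 1) hp (fun ω _ => X ω) W c
    (fun ω ω' h1 h2 h3 _ => hX ω ω' h1 h2 h3)
  have h2 : CH p X W ≤ CH p (fun ω (_ : Fin 1) => X ω) W :=
    CH_mono_left hp.nonneg fun ω ω' _ _ h => congrFun (Prod.ext_iff.mp h).1 0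
  have h3 : ((1 : ℕ) : ℝ) * Real.log (2 * c + 1) = Real.log (2 * c + 1) := by norm_num
  linarith

omit [Fintype Ω] in
theorem fl_dist {x y c : ℝ} (h : |x - y| ≤ c) : |((⌊x⌋ - ⌊y⌋ : ℤ) : ℝ)| ≤ c + 1 := by
  have f1 := Int.floor_le x
  have f2 := Int.lt_floor_add_one x
  have f3 := Int.floor_le y
  have f4 := Int.lt_floor_add_one y
  push_cast
  rw [abs_le] at h ⊢
  constructor <;> linarith [h.1, h.2]

theorem fl_eq {x y : ℝ} (h : ⌊x⌋ = ⌊y⌋) : |x - y| ≤ 1 := by
  have f1 := Int.floor_le x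
  have f2 := Int.lt_floor_add_one x
  have f3 := Int.floor_le y
  have f4 := Int.lt_floor_add_one y
  rw [h] at f1 f2
  rw [abs_le]
  constructor <;> linarith

theorem fl_crs1 {a b : ℕ} (hab : a ≤ b) {x y : ℝ} (h : ⌊(2 : ℝ) ^ b * x⌋ = ⌊(2 : ℝ) ^ b * y⌋) :
    ⌊(2 : ℝ) ^ a * x⌋ = ⌊(2 : ℝ) ^ a * y⌋ := by
  have e : ∀ r : ℝ, ⌊(2 : ℝ) ^ a * r⌋ = ⌊(2 : ℝ) ^ b * r⌋ / ((2 ^ (b - a) : ℕ) : ℤ) := by
    intro r
    rw [← Int.floor_div_natCast]
    congr 1
    push_cast
    have e1 : (2 : ℝ) ^ b = 2 ^ a * 2 ^ (b - a) := by rw [← pow_add, Nat.add_sub_cancel' hab]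
    rw [e1]
    field_simp
  rw [e, e, h]

/-- The pair of rows. -/
noncomputable def Y (y0 y1 : Ω → ℝ) (A B : ℕ) (ω : Ω) : ℤ × ℤ :=
  (⌊(2 : ℝ) ^ A * y0 ω⌋, ⌊(2 : ℝ) ^ B * y1 ω⌋)

theorem CH_Y (hp : IsLaw p) (y0 y1 : Ω → ℝ) (A B : ℕ) (W : Ω → S) {c : ℝ}
    (h : ∀ ω ω', 0 < p ω → 0 < p ω' → W ω = W ω' →
      |2 ^ A * (y0 ω - y0 ω')| ≤ c ∧ |2 ^ B * (y1 ω - y1 ω')| ≤ c) :
    CH p (Y y0 y1 A B) W ≤ 2 * Real.log (2 * (c + 1) + 1) := by
  have h1 := CH_subadd hp.nonneg (fun ω => ⌊(2 : ℝ) ^ A * y0 ω⌋) (fun ω => ⌊(2 : ℝ) ^ B * y1 ω⌋) W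
  have h2 : CH p (fun ω => ⌊(2 : ℝ) ^ A * y0 ω⌋) W ≤ Real.log (2 * (c + 1) + 1) := by
    refine CH_z hp _ _ fun ω ω' a b e => fl_dist ?_
    rw [← mul_sub]
    exact (h ω ω' a b e).1
  have h3 : CH p (fun ω => ⌊(2 : ℝ) ^ B * y1 ω⌋) W ≤ Real.log (2 * (c + 1) + 1) := by
    refine CH_z hp _ _ fun ω ω' a b e => fl_dist ?_
    rw [← mul_sub]
    exact (h ω ω' a b e).2
  have h4 : CH p (Y y0 y1 A B) W =
      CH p (fun ω => (⌊(2 : ℝ) ^ A * y0 ω⌋, ⌊(2 : ℝ) ^ B * y1 ω⌋)) W := rfl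
  linarith

theorem log_pow_le (s : ℕ) {c : ℝ} (hc : 0 ≤ c) :
    Real.log (2 * (2 ^ s * c + 1) + 1) ≤ s * Real.log 2 + Real.log (2 * c + 3) := by
  have h1 : (1 : ℝ) ≤ 2 ^ s := one_le_pow₀ (by norm_num)
  rw [← Real.log_pow, ← Real.log_mul (by positivity) (by positivity)]
  refine Real.log_le_log (by positivity) ?_
  nlinarith

/-- **The chain.** -/
theorem chain_pure (c : ℝ) (hc : 0 ≤ c) : ∃ C : ℝ, 0 ≤ C ∧ ∀ {Ω S S' T : Type} [Fintype Ω]
    {p : Ω → ℝ} (_ : IsLaw p) (b : ℕ → Ω → S) (b' : Ω → S') (θ : Ω → T) (y0 y1 : Ω → ℝ)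
    (tn mx : ℕ → Ω → ℝ) (a k X d n : ℕ) (e : ℕ → ℝ), d ≤ n * X → (∀ j, j ≤ n → 0 ≤ e j) →
    (∀ j, j ≤ n → Det p (b j) (b 0)) →
    (∀ j, j ≤ n → ∀ ω ω', 0 < p ω → 0 < p ω' → b j ω = b j ω' → θ ω = θ ω' →
      |2 ^ (a + j * X) * (y0 ω - y0 ω')| ≤ c ∧ |2 ^ (k + j * X) * (y1 ω - y1 ω')| ≤ c ∧
      mx j ω - mx j ω' = 2 ^ (a + j * X) * (y0 ω - y0 ω') ∧
      tn j ω - tn j ω' = 2 ^ (k + j * X) * (y1 ω - y1 ω')) →
    (∀ j, j ≤ n → 2 * X * Real.log 2 - e j ≤
      CH p (fun ω => (⌊(2 : ℝ) ^ X * tn j ω⌋, ⌊(2 : ℝ) ^ X * mx j ω⌋))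
        (fun ω => (b j ω, θ ω))) →
    (∀ ω ω', 0 < p ω → 0 < p ω' → b' ω = b' ω' → θ ω = θ ω' →
      |2 ^ (a + X) * (y0 ω - y0 ω')| ≤ c ∧ |2 ^ (k + X + d) * (y1 ω - y1 ω')| ≤ c) →
    (2 * X + d) * Real.log 2 - ∑ j ∈ Finset.range (n + 1), e j - C * (n + 2) ≤
      CH p b' (fun ω => (b 0 ω, θ ω)) := by
  have hl1 : 0 ≤ Real.log (2 * (1 + 1) + 1) := Real.log_nonneg (by norm_num)
  have hl2 : 0 ≤ Real.log (2 * (c + 1) + 1) := Real.log_nonneg (by linarith)
  have hl3 : 0 ≤ Real.log (2 * c + 3) := Real.log_nonneg (by linarith)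
  have hl4 : 0 ≤ Real.log (2 * 1 + 3) := Real.log_nonneg (by norm_num)
  have hlog2 : 0 ≤ Real.log 2 := Real.log_nonneg (by norm_num)
  obtain ⟨C, hC⟩ : ∃ C, C = 3 * Real.log (2 * (1 + 1) + 1) + 2 * Real.log (2 * (c + 1) + 1) +
    Real.log (2 * c + 3) + Real.log (2 * 1 + 3) := ⟨_, rfl⟩
  refine ⟨C, by rw [hC]; linarith, ?_⟩
  intro Ω S S' T _ p hp b b' θ y0 y1 tn mx a k X d n e hdn he hb hcl hful hb'
  have hp0 := hp.nonneg
  -- the entropies of the rows
  obtain ⟨f, hf⟩ : ∃ f : ℕ → ℝ, f = fun r => CH p (Y y0 y1 (a + X) (k + X + r))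
    (fun ω => (b 0 ω, θ ω)) := ⟨_, rfl⟩
  have key : ∀ j, j ≤ n → (2 * X + (min (j * X) d : ℕ)) * Real.log 2 -
      ∑ i ∈ Finset.range (j + 1), e i - C * (j + 1) ≤ f (min (j * X) d) := by
    intro j
    induction j with
    | zero =>
      intro _
      have h0 := hful 0 (Nat.zero_le _)
      have h1 := hcl 0 (Nat.zero_le _)
      simp only [Nat.zero_mul, Nat.add_zero] at h1
      rw [Nat.zero_mul, Nat.zero_min, Finset.sum_range_one]
      have h2 := CH_le_add hp0 (fun ω => (⌊(2 : ℝ) ^ X * tn 0 ω⌋, ⌊(2 : ℝ) ^ X * mx 0 ω⌋))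
        (Y y0 y1 (a + X) (k + X + 0)) (fun ω => (b 0 ω, θ ω))
      have h3 : CH p (fun ω => (⌊(2 : ℝ) ^ X * tn 0 ω⌋, ⌊(2 : ℝ) ^ X * mx 0 ω⌋))
          (fun ω => (Y y0 y1 (a + X) (k + X + 0) ω, (b 0 ω, θ ω))) ≤
          2 * Real.log (2 * (1 + 1) + 1) := by
        refine (CH_subadd hp0 _ _ _).trans ?_
        have g1 : CH p (fun ω => ⌊(2 : ℝ) ^ X * tn 0 ω⌋)
            (fun ω => (Y y0 y1 (a + X) (k + X + 0) ω, (b 0 ω, θ ω))) ≤
            Real.log (2 * (1 + 1) + 1) := by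
          refine CH_z hp _ _ fun ω ω' hω hω' hh => fl_dist ?_
          have q1 := Prod.ext_iff.mp (Prod.ext_iff.mp hh).2
          obtain ⟨-, -, -, g⟩ := h1 ω ω' hω hω' q1.1 q1.2
          have q2 : ⌊(2 : ℝ) ^ (k + X + 0) * y1 ω⌋ = ⌊(2 : ℝ) ^ (k + X + 0) * y1 ω'⌋ :=
            (Prod.ext_iff.mp (Prod.ext_iff.mp hh).1).2
          have q3 := fl_eq q2
          rw [← mul_sub] at q3 ⊢
          have e1 : (2 : ℝ) ^ X * (tn 0 ω - tn 0 ω') = 2 ^ (k + X + 0) * (y1 ω - y1 ω') := by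
            rw [g, Nat.add_zero, pow_add]
            ring
          rw [e1]
          exact q3
        have g2 : CH p (fun ω => ⌊(2 : ℝ) ^ X * mx 0 ω⌋)
            (fun ω => (Y y0 y1 (a + X) (k + X + 0) ω, (b 0 ω, θ ω))) ≤
            Real.log (2 * (1 + 1) + 1) := by
          refine CH_z hp _ _ fun ω ω' hω hω' hh => fl_dist ?_
          have q1 := Prod.ext_iff.mp (Prod.ext_iff.mp hh).2
          obtain ⟨-, -, g, -⟩ := h1 ω ω' hω hω' q1.1 q1.2
          have q2 : ⌊(2 : ℝ) ^ (a + X) * y0 ω⌋ = ⌊(2 : ℝ) ^ (a + X) * y0 ω'⌋ :=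
            (Prod.ext_iff.mp (Prod.ext_iff.mp hh).1).1
          have q3 := fl_eq q2
          rw [← mul_sub] at q3 ⊢
          have e1 : (2 : ℝ) ^ X * (mx 0 ω - mx 0 ω') = 2 ^ (a + X) * (y0 ω - y0 ω') := by
            rw [g, pow_add]
            ring
          rw [e1]
          exact q3
        linarith
      have hf0 : f 0 = CH p (Y y0 y1 (a + X) (k + X + 0)) (fun ω => (b 0 ω, θ ω)) := by
        rw [hf]
      rw [hf0]
      push_cast
      have hC2 : 2 * Real.log (2 * (1 + 1) + 1) ≤ C := by rw [hC]; linarith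
      linarith
    | succ j ih =>
      intro hj
      have hih := ih (by omega)
      rcases Nat.lt_or_ge (j * X) d with hjd | hjd
      · -- a new block
        obtain ⟨s, hs⟩ : ∃ s, s = min ((j + 1) * X) d - j * X := ⟨_, rfl⟩
        have hjX : (j + 1) * X = j * X + X := by ring
        have hsX : s ≤ X := by omega
        have hr' : min ((j + 1) * X) d = j * X + s := by omega
        rw [min_eq_left hjd.le] at hih
        rw [hr']
        have h1 := hcl (j + 1) hj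
        have h2 := hful (j + 1) hj
        -- the coarse rows are determined by the fine rows
        have g1 : f (j * X + s) = f (j * X) +
            CH p (Y y0 y1 (a + X) (k + X + (j * X + s)))
              (fun ω => (Y y0 y1 (a + X) (k + X + j * X) ω, (b 0 ω, θ ω))) := by
          rw [hf]
          simp only
          rw [← CH_chain hp0]
          refine CH_congr hp0 ?_ ?_ (fun _ _ _ _ h => h) (fun _ _ _ _ h => h)
          · intro ω ω' _ _ h
            have q1 := (Prod.ext_iff.mp h).1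
            have q2 := Prod.ext_iff.mp q1
            refine Prod.ext q1 (Prod.ext q2.1 ?_)
            exact fl_crs1 (by omega) q2.2
          · intro ω ω' _ _ h
            exact (Prod.ext_iff.mp (Prod.ext_iff.mp h).1).1
        have g2 : CH p (Y y0 y1 (a + X) (k + X + (j * X + s)))
            (fun ω => (Y y0 y1 (a + X) (k + X + j * X) ω, (b (j + 1) ω, θ ω))) ≤
            CH p (Y y0 y1 (a + X) (k + X + (j * X + s)))
              (fun ω => (Y y0 y1 (a + X) (k + X + j * X) ω, (b 0 ω, θ ω))) := by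
          refine CH_mono_cond hp0 fun ω ω' hω hω' h => ?_
          have q1 := Prod.ext_iff.mp h
          have q2 := Prod.ext_iff.mp q1.2
          exact Prod.ext q1.1 (Prod.ext (hb (j + 1) hj ω ω' hω hω' q2.1) q2.2)
        have g3 := CH_le_add hp0 (Y y0 y1 (a + X) (k + X + (j * X + s)))
          (Y y0 y1 (a + X) (k + X + j * X)) (fun ω => (b (j + 1) ω, θ ω))
        have g4 : CH p (Y y0 y1 (a + X) (k + X + j * X)) (fun ω => (b (j + 1) ω, θ ω)) ≤
            2 * Real.log (2 * (c + 1) + 1) := by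
          refine CH_Y hp _ _ _ _ _ fun ω ω' hω hω' h => ?_
          have q1 := Prod.ext_iff.mp h
          obtain ⟨w1, w2, -, -⟩ := h1 ω ω' hω hω' q1.1 q1.2
          constructor
          · refine le_trans ?_ w1
            rw [abs_mul, abs_mul, abs_of_pos (show (0 : ℝ) < 2 ^ (a + X) by positivity),
              abs_of_pos (show (0 : ℝ) < 2 ^ (a + (j + 1) * X) by positivity)]
            refine mul_le_mul_of_nonneg_right (pow_le_pow_right₀ (by norm_num) ?_) (abs_nonneg _)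
            have : X ≤ (j + 1) * X := Nat.le_mul_of_pos_left X (by omega)
            omega
          · have e1 : k + X + j * X = k + (j + 1) * X := by ring
            rw [e1]
            exact w2
        have g5 : CH p (fun ω => ⌊(2 : ℝ) ^ s * tn (j + 1) ω⌋) (fun ω => (b (j + 1) ω, θ ω)) ≤
            CH p (Y y0 y1 (a + X) (k + X + (j * X + s))) (fun ω => (b (j + 1) ω, θ ω)) +
              Real.log (2 * (1 + 1) + 1) := by
          have q0 := CH_le_add hp0 (fun ω => ⌊(2 : ℝ) ^ s * tn (j + 1) ω⌋)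
            (Y y0 y1 (a + X) (k + X + (j * X + s))) (fun ω => (b (j + 1) ω, θ ω))
          have q1 : CH p (fun ω => ⌊(2 : ℝ) ^ s * tn (j + 1) ω⌋)
              (fun ω => (Y y0 y1 (a + X) (k + X + (j * X + s)) ω, (b (j + 1) ω, θ ω))) ≤
              Real.log (2 * (1 + 1) + 1) := by
            refine CH_z hp _ _ fun ω ω' hω hω' hh => fl_dist ?_
            have q1 := Prod.ext_iff.mp (Prod.ext_iff.mp hh).2
            obtain ⟨-, -, -, g⟩ := h1 ω ω' hω hω' q1.1 q1.2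
            have q2 : ⌊(2 : ℝ) ^ (k + X + (j * X + s)) * y1 ω⌋ =
                ⌊(2 : ℝ) ^ (k + X + (j * X + s)) * y1 ω'⌋ :=
              (Prod.ext_iff.mp (Prod.ext_iff.mp hh).1).2
            have q3 := fl_eq q2
            rw [← mul_sub] at q3 ⊢
            have e1 : (2 : ℝ) ^ s * (tn (j + 1) ω - tn (j + 1) ω') =
                2 ^ (k + X + (j * X + s)) * (y1 ω - y1 ω') := by
              have e2 : k + X + (j * X + s) = s + (k + (j + 1) * X) := by ring
              rw [g, e2, pow_add 2 s]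
              ring
            rw [e1]
            exact q3
          linarith
        have g6 : CH p (fun ω => ⌊(2 : ℝ) ^ X * tn (j + 1) ω⌋) (fun ω => (b (j + 1) ω, θ ω)) ≤
            CH p (fun ω => ⌊(2 : ℝ) ^ s * tn (j + 1) ω⌋) (fun ω => (b (j + 1) ω, θ ω)) +
              ((X - s : ℕ) * Real.log 2 + Real.log (2 * 1 + 3)) := by
          have q0 := CH_le_add hp0 (fun ω => ⌊(2 : ℝ) ^ X * tn (j + 1) ω⌋)
            (fun ω => ⌊(2 : ℝ) ^ s * tn (j + 1) ω⌋) (fun ω => (b (j + 1) ω, θ ω))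
          have q1 : CH p (fun ω => ⌊(2 : ℝ) ^ X * tn (j + 1) ω⌋)
              (fun ω => (⌊(2 : ℝ) ^ s * tn (j + 1) ω⌋, (b (j + 1) ω, θ ω))) ≤
              Real.log (2 * (2 ^ (X - s) * 1 + 1) + 1) := by
            refine CH_z hp _ _ fun ω ω' hω hω' hh => fl_dist ?_
            have q2 : ⌊(2 : ℝ) ^ s * tn (j + 1) ω⌋ = ⌊(2 : ℝ) ^ s * tn (j + 1) ω'⌋ :=
              (Prod.ext_iff.mp hh).1
            have q3 := fl_eq q2
            rw [← mul_sub] at q3 ⊢
            have e1 : (2 : ℝ) ^ X * (tn (j + 1) ω - tn (j + 1) ω') =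
                2 ^ (X - s) * (2 ^ s * (tn (j + 1) ω - tn (j + 1) ω')) := by
              rw [← mul_assoc, ← pow_add, Nat.sub_add_cancel hsX]
            rw [e1, abs_mul, abs_of_pos (by positivity : (0 : ℝ) < 2 ^ (X - s))]
            exact mul_le_mul_of_nonneg_left q3 (by positivity)
          have q4 := log_pow_le (X - s) (c := 1) zero_le_one
          linarith
        have g7 : CH p (fun ω => ⌊(2 : ℝ) ^ X * mx (j + 1) ω⌋) (fun ω => (b (j + 1) ω, θ ω)) ≤
            X * Real.log 2 + Real.log (2 * c + 3) := by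
          have q1 : CH p (fun ω => ⌊(2 : ℝ) ^ X * mx (j + 1) ω⌋)
              (fun ω => (b (j + 1) ω, θ ω)) ≤ Real.log (2 * (2 ^ X * c + 1) + 1) := by
            refine CH_z hp _ _ fun ω ω' hω hω' hh => fl_dist ?_
            have q1 := Prod.ext_iff.mp hh
            obtain ⟨g, -, g', -⟩ := h1 ω ω' hω hω' q1.1 q1.2
            rw [← mul_sub, g', abs_mul, abs_of_pos (by positivity : (0 : ℝ) < 2 ^ X)]
            exact mul_le_mul_of_nonneg_left g (by positivity)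
          exact q1.trans (log_pow_le X hc)
        have g8 := CH_subadd hp0 (fun ω => ⌊(2 : ℝ) ^ X * tn (j + 1) ω⌋)
          (fun ω => ⌊(2 : ℝ) ^ X * mx (j + 1) ω⌋) (fun ω => (b (j + 1) ω, θ ω))
        have g9 : ((X - s : ℕ) : ℝ) = X - s := by
          push_cast [Nat.cast_sub hsX]
          ring
        rw [g9] at g6
        rw [Finset.sum_range_succ]
        push_cast at hih ⊢
        have hC2 : Real.log (2 * (1 + 1) + 1) + 2 * Real.log (2 * (c + 1) + 1) +
            Real.log (2 * c + 3) + Real.log (2 * 1 + 3) ≤ C := by rw [hC]; linarith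
        linarith
      · -- nothing new
        have hr' : min ((j + 1) * X) d = d := by
          have : j * X ≤ (j + 1) * X := Nat.mul_le_mul_right X (by omega)
          omega
        rw [min_eq_right hjd] at hih
        rw [hr', Finset.sum_range_succ]
        have h1 := he (j + 1) hj
        have hC0 : 0 ≤ C := by rw [hC]; linarith
        push_cast at hih ⊢
        linarith
  -- the end
  have h1 := key n le_rfl
  rw [min_eq_right hdn] at h1
  have h2 := CH_le_add hp0 (Y y0 y1 (a + X) (k + X + d)) b' (fun ω => (b 0 ω, θ ω))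
  have h3 : CH p (Y y0 y1 (a + X) (k + X + d)) (fun ω => (b' ω, (b 0 ω, θ ω))) ≤
      2 * Real.log (2 * (c + 1) + 1) := by
    refine CH_Y hp _ _ _ _ _ fun ω ω' hω hω' h => ?_
    have q1 := Prod.ext_iff.mp h
    exact hb' ω ω' hω hω' q1.1 (Prod.ext_iff.mp q1.2).2
  have hfd : f d = CH p (Y y0 y1 (a + X) (k + X + d)) (fun ω => (b 0 ω, θ ω)) := by rw [hf]
  rw [hfd] at h1
  have hC2 : 2 * Real.log (2 * (c + 1) + 1) ≤ C := by rw [hC]; linarith
  linarith

end Chn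

end Pool.PC
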