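import Pool.Agent.H64.PC.Sfull

/-!
# THETA: flat cells

On a flat cell the local theorem is applied with a constant frame; the contexts with the frames of
the windows differ from the contexts with the constant frame by few digits.
-/

set_option autoImplicit false

namespace Pool.PC

open Finset Real
open Pool.Agent.H49.Ent Pool.Agent.H32.Dense Pool.STK Pool.KA Pool.KSAT Pool.K2S Pool.UEG

namespace Flt

variable {m J : ℕ} {F : Fam m J} {p : F.Ω → ℝ}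

/-- **More digits.** The label with a finer frame costs at most the additional digits. -/
theorem fine {i0 : Fin m} {w q l l' P P' y : ℕ} {C₀ : ℝ} (hp : IsLaw p) (hC₀ : 0 ≤ C₀)
    (hl' : l' ≤ l + y) (hP : P ≤ q + w + l) (hP' : P' ≤ P + y) {z z' : F.Ω → Fin m → ℝ}
    (hgr : ∀ ω i, ∃ k : ℤ, z' ω i = k / 2 ^ l') (hz0 : ∀ ω, z' ω i0 = 0)
    (hcl : ∀ ω, 0 < p ω → ∀ i, i ≠ i0 → |z' ω i - z ω i| ≤ C₀ / 2 ^ l) :
    CH p (tlb F w q l' P' i0 z') (tlb F w q l P i0 z) ≤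
      3 * (m * (y * Real.log 2)) + 3 * (m * Real.log (2 * (2 * C₀ + 2) + 3)) := by
  have hp0 := hp.nonneg
  obtain ⟨b, hb⟩ : ∃ b, b = tlb F w q l P i0 z := ⟨_, rfl⟩
  rw [← hb]
  have hm : (0 : ℝ) ≤ m := Nat.cast_nonneg m
  obtain ⟨K, hK⟩ : ∃ K, K = Real.log (2 * (2 ^ y * (2 * C₀ + 2) + 1) + 1) := ⟨_, rfl⟩
  have hK2 : K ≤ y * Real.log 2 + Real.log (2 * (2 * C₀ + 2) + 3) := by
    rw [hK]
    exact Chn.log_pow_le y (by linarith)
  have hy1 : (1 : ℝ) ≤ 2 ^ y := one_le_pow₀ (by norm_num)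
  -- the frame
  have r1 : CH p z' b ≤ m * K := by
    have h1 : CH p z' b ≤ CH p (fun ω j => ⌊(2 : ℝ) ^ l' * z' ω j⌋) b := by
      refine CH_mono_left hp0 fun ω ω' _ _ h => ?_
      have h2 := (Prod.ext_iff.mp h).1
      simp only at h2
      funext j
      obtain ⟨k, hk⟩ := hgr ω j
      obtain ⟨k', hk'⟩ := hgr ω' j
      have h3 := congrFun h2 j
      simp only [hk, hk'] at h3
      rw [mul_div_cancel₀ _ (by positivity), mul_div_cancel₀ _ (by positivity), Int.floor_intCast,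
        Int.floor_intCast] at h3
      rw [hk, hk', h3]
    rw [hK]
    refine h1.trans (CH_bd hp _ _ _ fun ω ω' hω hω' h j => ?_)
    refine Chn.fl_dist ?_
    rw [← mul_sub, abs_mul, abs_of_pos (by positivity : (0 : ℝ) < 2 ^ l')]
    by_cases hj : j = i0
    · rw [hj, hz0, hz0, sub_zero, abs_zero, mul_zero]
      positivity
    · rw [hb] at h
      have h2 := congrFun (tlb_ext h).2.1 j
      have g1 := hcl ω hω j hj
      have g2 := hcl ω' hω' j hj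
      rw [← h2] at g2
      have g3 : |z' ω j - z' ω' j| ≤ 2 * C₀ / 2 ^ l := by
        have e1 : z' ω j - z' ω' j = (z' ω j - z ω j) - (z' ω' j - z ω j) := by ring
        have e2 : 2 * C₀ / (2 : ℝ) ^ l = C₀ / 2 ^ l + C₀ / 2 ^ l := by ring
        rw [e1, e2]
        exact (abs_sub _ _).trans (add_le_add g1 g2)
      have g4 : (2 : ℝ) ^ l' ≤ 2 ^ y * 2 ^ l := by
        rw [← pow_add]
        exact pow_le_pow_right₀ (by norm_num) (by omega)
      calc (2 : ℝ) ^ l' * |z' ω j - z' ω' j| ≤ (2 ^ y * 2 ^ l) * (2 * C₀ / 2 ^ l) :=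
            mul_le_mul g4 g3 (abs_nonneg _) (by positivity)
        _ = 2 ^ y * (2 * C₀) := by field_simp
        _ ≤ 2 ^ y * (2 * C₀ + 2) := mul_le_mul_of_nonneg_left (by linarith) (by positivity)
  -- the rest
  have h1 := CH_le_add hp0 (tlb F w q l' P' i0 z') z' b
  have h2 : CH p (tlb F w q l' P' i0 z') (fun ω => (z' ω, b ω)) ≤
      CH p (fun ω => (pps F w (q + w) P' i0 z' ω, rvs F q l' i0 z' ω))
        (fun ω => (z' ω, b ω)) := by
    refine CH_mono_left hp0 fun ω ω' _ _ h => ?_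
    have e1 := Prod.ext_iff.mp h
    have e2 := Prod.ext_iff.mp e1.1
    have e3 := Prod.ext_iff.mp e1.2
    have e4 : b ω = b ω' := e3.2
    rw [hb] at e4
    obtain ⟨g1, -, -, -, g5⟩ := tlb_ext e4
    exact tlb_mk g1 e3.1 e2.1 e2.2 g5
  have h3 := CH_subadd hp0 (pps F w (q + w) P' i0 z') (rvs F q l' i0 z') (fun ω => (z' ω, b ω))
  have h4 : CH p (pps F w (q + w) P' i0 z') (fun ω => (z' ω, b ω)) ≤ m * K := by
    rw [hK]
    refine CH_bd hp _ _ _ fun ω ω' hω hω' h j => ?_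
    have e1 := Prod.ext_iff.mp h
    have e2 : b ω = b ω' := e1.2
    have e3 : z' ω = z' ω' := e1.1
    rw [hb] at e2
    obtain ⟨n1, n2, n3⟩ := tlb_near e2
    unfold pps
    by_cases hj : j = i0
    · rw [if_pos hj, if_pos hj]
      refine Chn.fl_dist ?_
      rw [← mul_sub, abs_mul, abs_of_pos (by positivity : (0 : ℝ) < 2 ^ (q + w))]
      calc (2 : ℝ) ^ (q + w) * |F.x1 w ω i0 - F.x1 w ω' i0| ≤ 2 ^ (q + w) * (1 / 2 ^ (q + w)) :=
            mul_le_mul_of_nonneg_left n1 (by positivity)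
        _ = 1 * 1 := by field_simp
        _ ≤ 2 ^ y * (2 * C₀ + 2) := mul_le_mul hy1 (by linarith) (by norm_num) (by positivity)
    · rw [if_neg hj, if_neg hj]
      refine Chn.fl_dist ?_
      rw [← e3, ← mul_sub, abs_mul, abs_of_pos (by positivity : (0 : ℝ) < 2 ^ P')]
      have g1 := (n3 j hj).1
      have g2 := hcl ω hω j hj
      have g3 : |F.x1 w ω j - z' ω j * F.x1 w ω i0 - (F.x1 w ω' j - z' ω j * F.x1 w ω' i0)| ≤
          (1 + C₀) / 2 ^ P := by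
        have e4 : F.x1 w ω j - z' ω j * F.x1 w ω i0 - (F.x1 w ω' j - z' ω j * F.x1 w ω' i0) =
          ((F.x1 w ω j - F.x1 w ω' j) - z ω j * (F.x1 w ω i0 - F.x1 w ω' i0)) -
            (z' ω j - z ω j) * (F.x1 w ω i0 - F.x1 w ω' i0) := by ring
        rw [e4]
        refine (abs_sub _ _).trans ?_
        have g4 : |(z' ω j - z ω j) * (F.x1 w ω i0 - F.x1 w ω' i0)| ≤ C₀ / 2 ^ P := by
          rw [abs_mul]
          refine (mul_le_mul g2 n1 (abs_nonneg _) (by positivity)).trans ?_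
          have e5 : C₀ / (2 : ℝ) ^ l * (1 / 2 ^ (q + w)) = C₀ / 2 ^ (q + w + l) := by
            rw [pow_add 2 (q + w) l]
            field_simp
          rw [e5]
          exact div_le_div_of_nonneg_left hC₀ (by positivity)
            (pow_le_pow_right₀ (by norm_num) hP)
        have e6 : (1 + C₀) / (2 : ℝ) ^ P = 1 / 2 ^ P + C₀ / 2 ^ P := by ring
        rw [e6]
        exact add_le_add g1 g4
      have g5 : (2 : ℝ) ^ P' ≤ 2 ^ y * 2 ^ P := by
        rw [← pow_add]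
        exact pow_le_pow_right₀ (by norm_num) (by omega)
      calc (2 : ℝ) ^ P' * _ ≤ (2 ^ y * 2 ^ P) * ((1 + C₀) / 2 ^ P) :=
            mul_le_mul g5 g3 (abs_nonneg _) (by positivity)
        _ = 2 ^ y * (1 + C₀) := by field_simp
        _ ≤ 2 ^ y * (2 * C₀ + 2) := mul_le_mul_of_nonneg_left (by linarith) (by positivity)
  have h5 : CH p (rvs F q l' i0 z') (fun ω => (z' ω, b ω)) ≤ m * K := by
    rw [hK]
    refine CH_bd hp _ _ _ fun ω ω' hω hω' h j => ?_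
    have e1 := Prod.ext_iff.mp h
    have e2 : b ω = b ω' := e1.2
    have e3 : z' ω = z' ω' := e1.1
    rw [hb] at e2
    obtain ⟨n1, n2, n3⟩ := tlb_near e2
    show |((⌊(2 : ℝ) ^ q * pco l' i0 (z' ω) (F.d ω) j⌋ -
      ⌊(2 : ℝ) ^ q * pco l' i0 (z' ω') (F.d ω') j⌋ : ℤ) : ℝ)| ≤ _
    unfold pco
    by_cases hj : j = i0
    · rw [if_pos hj, if_pos hj]
      refine Chn.fl_dist ?_
      rw [← mul_sub, abs_mul, abs_of_pos (by positivity : (0 : ℝ) < 2 ^ q)]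
      calc (2 : ℝ) ^ q * |F.d ω i0 - F.d ω' i0| ≤ 2 ^ q * (1 / 2 ^ q) :=
            mul_le_mul_of_nonneg_left n2 (by positivity)
        _ = 1 * 1 := by field_simp
        _ ≤ 2 ^ y * (2 * C₀ + 2) := mul_le_mul hy1 (by linarith) (by norm_num) (by positivity)
    · rw [if_neg hj, if_neg hj]
      refine Chn.fl_dist ?_
      have g1 := (n3 j hj).2
      have g2 := hcl ω hω j hj
      have g3 : |F.d ω j - z' ω j * F.d ω i0 - (F.d ω' j - z' ω j * F.d ω' i0)| ≤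
          (1 + C₀) / 2 ^ (q + l) := by
        have e4 : F.d ω j - z' ω j * F.d ω i0 - (F.d ω' j - z' ω j * F.d ω' i0) =
          ((F.d ω j - F.d ω' j) - z ω j * (F.d ω i0 - F.d ω' i0)) -
            (z' ω j - z ω j) * (F.d ω i0 - F.d ω' i0) := by ring
        rw [e4]
        refine (abs_sub _ _).trans ?_
        have g4 : |(z' ω j - z ω j) * (F.d ω i0 - F.d ω' i0)| ≤ C₀ / 2 ^ (q + l) := by
          rw [abs_mul]
          refine (mul_le_mul g2 n2 (abs_nonneg _) (by positivity)).trans (le_of_eq ?_)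
          rw [pow_add 2 q l]
          field_simp
        have e6 : (1 + C₀) / (2 : ℝ) ^ (q + l) = 1 / 2 ^ (q + l) + C₀ / 2 ^ (q + l) := by ring
        rw [e6]
        exact add_le_add g1 g4
      rw [← e3]
      have e7 : (2 : ℝ) ^ q * (2 ^ l' * (F.d ω j - z' ω j * F.d ω i0)) -
          2 ^ q * (2 ^ l' * (F.d ω' j - z' ω j * F.d ω' i0)) =
          2 ^ (q + l') * (F.d ω j - z' ω j * F.d ω i0 - (F.d ω' j - z' ω j * F.d ω' i0)) := by
        rw [pow_add]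
        ring
      rw [e7, abs_mul, abs_of_pos (by positivity : (0 : ℝ) < 2 ^ (q + l'))]
      have g5 : (2 : ℝ) ^ (q + l') ≤ 2 ^ y * 2 ^ (q + l) := by
        rw [← pow_add]
        exact pow_le_pow_right₀ (by norm_num) (by omega)
      calc (2 : ℝ) ^ (q + l') * _ ≤ (2 ^ y * 2 ^ (q + l)) * ((1 + C₀) / 2 ^ (q + l)) :=
            mul_le_mul g5 g3 (abs_nonneg _) (by positivity)
        _ = 2 ^ y * (1 + C₀) := by field_simp
        _ ≤ 2 ^ y * (2 * C₀ + 2) := mul_le_mul_of_nonneg_left (by linarith) (by positivity)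
  have h6 := mul_le_mul_of_nonneg_left hK2 hm
  linarith

end Flt

/-- **(S) on a flat cell.** The local theorem with the constant frame `a₀` of precision `v₀`; the
frames `z` of the windows have at most `y` digits more. -/
theorem flat_cN (C₀ : ℝ) (hC₀ : 0 ≤ C₀) : ∃ C : ℝ, 0 ≤ C ∧ ∀ {J : ℕ} (F : Fam 2 J)
    (σ : Fin 2 → Fin 2) (wa wb v₀ D R : ℕ) (a₀ al : F.Ω → ℝ) (X q w y : ℕ) (ε : ℝ)
    (vp : ℕ → ℕ) (z : ℕ → F.Ω → Fin 2 → ℝ), 0 ≤ ε → R ≤ J →
    Rc2 (F.cot R) F.p σ wa wb (fun _ => v₀) D (fun _ => a₀) al →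
    (∀ ω, ∃ k : ℤ, a₀ ω = k / 2 ^ v₀) →
    wa ≤ w → w + X ≤ wb → wb ≤ R →
    (∀ u, u = w ∨ u = w + X → (∀ ω i, ∃ k : ℤ, z u ω i = k / 2 ^ vp u) ∧
      (∀ ω, z u ω (σ 0) = 0) ∧ Det F.p (slam F u) (z u) ∧
      ∀ ω, 0 < F.p ω → |al ω - z u ω (σ 1)| ≤ C₀ / 2 ^ vp u) →
    v₀ ≤ vp w → vp w ≤ vp (w + X) → vp (w + X) ≤ v₀ + y → q + vp (w + X) + (w + X) ≤ J →
    Cc2 (F.cot R) F.p σ (fun _ => v₀) D (fun _ => a₀) al X ε w q →
    cVol J (w + X) q (vp (w + X)) - cVol J w q (vp w) - (ε * X * Real.log 2 +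
        7 * (y * Real.log 2) + C) ≤
      cNf F (w + X) q (vp (w + X)) (σ 0) (z (w + X)) - cNf F w q (vp w) (σ 0) (z w) := by
  obtain ⟨C, hC, key⟩ := full_cN
  obtain ⟨C₁, hC₁⟩ : ∃ C₁, C₁ = C₀ + 3 := ⟨_, rfl⟩
  have hC₁0 : 0 ≤ C₁ := by rw [hC₁]; linarith
  have hl1 : 0 ≤ Real.log (2 * (2 * C₁ + 2) + 3) := Real.log_nonneg (by linarith)
  have hl2 : 0 ≤ Real.log (4 * (1 + C₁) + 3) := Real.log_nonneg (by linarith)
  have hl3 : 0 ≤ Real.log (4 * (2 : ℕ) * (1 + C₁) + 3) := Real.log_nonneg (by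
    push_cast
    linarith)
  have hlog2 : 0 ≤ Real.log 2 := Real.log_nonneg (by norm_num)
  obtain ⟨K₁, hK₁⟩ : ∃ K₁, K₁ = (2 : ℕ) * Real.log (4 * (1 + C₁) + 3) +
    2 * ((2 : ℕ) * Real.log (4 * (2 : ℕ) * (1 + C₁) + 3)) := ⟨_, rfl⟩
  obtain ⟨K₂, hK₂⟩ : ∃ K₂, K₂ = 3 * ((2 : ℕ) * Real.log (2 * (2 * C₁ + 2) + 3)) := ⟨_, rfl⟩
  have hK₁0 : 0 ≤ K₁ := by rw [hK₁]; positivity
  have hK₂0 : 0 ≤ K₂ := by rw [hK₂]; positivity
  refine ⟨2 * C + K₁ + K₂, by linarith, ?_⟩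
  intro J F σ wa wb v₀ D R a₀ al X q w y ε vp z hε hRJ hRc hgr₀ h1 h2 hbR hz hv hvv hvy hJ hcc
  have hp := F.isLaw
  have hp0 := hp.nonneg
  have hσ := hRc.inj
  have hwJ : w ≤ J := by omega
  have hwXJ : w + X ≤ J := by omega
  -- the constant frame
  obtain ⟨z₀, hz₀⟩ : ∃ z₀ : F.Ω → Fin 2 → ℝ, z₀ = fun ω i => if i = σ 0 then 0 else a₀ ω :=
    ⟨_, rfl⟩
  have hZ : Zof σ a₀ z₀ := fun ω => by
    rw [hz₀]
    exact ⟨if_pos rfl, if_neg (Stp.ne01 hσ)⟩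
  have hz₀g : ∀ ω i, ∃ k : ℤ, z₀ ω i = k / 2 ^ v₀ := by
    intro ω i
    rw [hz₀]
    by_cases hi : i = σ 0
    · exact ⟨0, by simp [hi]⟩
    · obtain ⟨k, hk⟩ := hgr₀ ω
      exact ⟨k, by simp [hi, hk]⟩
  have hz₀0 : ∀ ω, z₀ ω (σ 0) = 0 := fun ω => (hZ ω).1
  have hslam : ∀ u, u ≤ R → ∀ ω ω', slam F u ω = slam F u ω' →
      slam (F.cot R) u ω = slam (F.cot R) u ω' := by
    intro u hu ω ω' h
    rw [Cot.slam_fun F hu]
    exact h
  have hz₀d : ∀ u, wa ≤ u → u ≤ wb → Det F.p (slam F u) z₀ := by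
    intro u hu hu' ω ω' hω hω' h
    have h3 : a₀ ω = a₀ ω' := hRc.det u hu hu' ω ω' hω hω' (hslam u (by omega) ω ω' h)
    funext i
    rw [hz₀]
    simp only [h3]
  -- the frames are near
  have hnear : ∀ u, u = w ∨ u = w + X → v₀ ≤ vp u → ∀ ω, 0 < F.p ω → ∀ i, i ≠ σ 0 →
      |z u ω i - z₀ ω i| ≤ C₁ / 2 ^ v₀ := by
    intro u hu hvu ω hω i hi
    have hi1 : i = σ 1 := (Stp.sg_cases hσ i).resolve_left hi
    have g1 := (hz u hu).2.2.2 ω hω
    have g2 : |al ω - a₀ ω| ≤ 3 / 2 ^ v₀ := hRc.near w h1 (by omega) ω hω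
    have g3 : C₀ / (2 : ℝ) ^ vp u ≤ C₀ / 2 ^ v₀ :=
      div_le_div_of_nonneg_left hC₀ (by positivity) (pow_le_pow_right₀ (by norm_num) hvu)
    rw [hi1, (hZ ω).2]
    have e1 : z u ω (σ 1) - a₀ ω = (al ω - a₀ ω) - (al ω - z u ω (σ 1)) := by ring
    have e2 : C₁ / (2 : ℝ) ^ v₀ = 3 / 2 ^ v₀ + C₀ / 2 ^ v₀ := by rw [hC₁]; ring
    rw [e1, e2]
    exact (abs_sub _ _).trans (add_le_add g2 (g1.trans g3))
  obtain ⟨a1, a2, a3, a4⟩ := hz w (Or.inl rfl)
  obtain ⟨b1, b2, b3, b4⟩ := hz (w + X) (Or.inr rfl)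
  -- (1) the constant frame
  have s1 := key F σ wa wb (fun _ => v₀) D R (fun _ => a₀) al X 0 q w ε (fun _ => z₀) hε hRJ hRc
    h1 h2 hbR hZ hZ (by omega) (by omega) (fun i hi => by
      have : i = 0 := by omega
      rw [this, Nat.zero_mul, Nat.add_zero]
      exact hcc)
  -- (2) the label with the constant frame is coarser
  have s2 : cNf F (w + X) q v₀ (σ 0) z₀ ≤
      cNf F (w + X) q (vp (w + X)) (σ 0) (z (w + X)) + K₁ := by
    unfold cNf nfo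
    have g1 := nfo_mono hp (F.ctt (w + X) q v₀ (σ 0) z₀)
      (F.ctt (w + X) q (vp (w + X)) (σ 0) (z (w + X)))
      (ctt_det (hz₀d (w + X) (by omega) h2)) (ctt_T1 le_rfl hwXJ) (ctt_det b3)
      (ctt_T1 le_rfl hwXJ)
    have g2 : CH F.p (F.ctt (w + X) q v₀ (σ 0) z₀)
        (fun ω => (F.ctt (w + X) q (vp (w + X)) (σ 0) (z (w + X)) ω, F.Z ω)) ≤
        CH F.p (F.ctt (w + X) q v₀ (σ 0) z₀)
          (F.ctt (w + X) q (vp (w + X)) (σ 0) (z (w + X))) :=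
      CH_mono_cond hp0 fun ω ω' _ _ h => (Prod.ext_iff.mp h).1
    have g3 := ctt_coarse (F := F) (p := F.p) (i0 := σ 0) (w := w + X) (w' := w + X) (q := q)
      (q' := q) (l := vp (w + X)) (l' := v₀) (z := z (w + X)) (z' := z₀) (D := 1 + C₁) hp hwXJ
      (by linarith) le_rfl le_rfl (by omega) hz₀g (fun ω hω i hi =>
        (hnear (w + X) (Or.inr rfl) (by omega) ω hω i hi).trans
          (div_le_div_of_nonneg_right (by linarith) (by positivity)))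
    rw [hK₁]
    linarith
  -- (3) the label with the frame of the window has few digits more
  have s3 : cNf F w q (vp w) (σ 0) (z w) ≤ cNf F w q v₀ (σ 0) z₀ + 6 * (y * Real.log 2) + K₂ := by
    rw [cNf_ctx (by omega) a2, cNf_ctx (by omega) hz₀0]
    have g1 := nfo_mono hp (ctx F q (σ 0) w (vp w) (z w)) (ctx F q (σ 0) w v₀ z₀)
      (ctx_det a3) (fun _ _ _ _ e => ctx_T1 e) (ctx_det (hz₀d w h1 (by omega)))
      (fun _ _ _ _ e => ctx_T1 e)
    have g2 : CH F.p (ctx F q (σ 0) w (vp w) (z w))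
        (fun ω => (ctx F q (σ 0) w v₀ z₀ ω, F.Z ω)) ≤
        CH F.p (ctx F q (σ 0) w (vp w) (z w)) (ctx F q (σ 0) w v₀ z₀) :=
      CH_mono_cond hp0 fun ω ω' _ _ h => (Prod.ext_iff.mp h).1
    have g3 := Flt.fine (F := F) (p := F.p) (i0 := σ 0) (w := w) (q := q) (l := v₀) (l' := vp w)
      (P := min (q + w + v₀) J) (P' := min (q + w + vp w) J) (y := y) (C₀ := C₁) (z := z₀)
      (z' := z w) hp hC₁0 (by omega) (min_le_left _ _) (by omega) a1 a2
      (hnear w (Or.inl rfl) hv)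
    have g4 : CH F.p (ctx F q (σ 0) w (vp w) (z w)) (ctx F q (σ 0) w v₀ z₀) ≤
        6 * (y * Real.log 2) + K₂ := by
      rw [hK₂]
      unfold ctx
      push_cast at g3 ⊢
      linarith
    unfold nfo
    linarith
  have v1 : cVol J (w + X) q v₀ - cVol J w q v₀ = (2 * X + (v₀ - v₀ : ℕ)) * Real.log 2 :=
    cVol_sub le_rfl (by omega)
  have v2 : cVol J (w + X) q (vp (w + X)) - cVol J w q (vp w) =
      (2 * X + (vp (w + X) - vp w : ℕ)) * Real.log 2 := cVol_sub hvv hJ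
  have v3 : ((vp (w + X) - vp w : ℕ) : ℝ) ≤ y := by
    have : vp (w + X) - vp w ≤ y := by omega
    exact_mod_cast this
  have v4 := mul_le_mul_of_nonneg_right v3 hlog2
  rw [v2]
  simp only [v1, Nat.sub_self, Nat.cast_zero] at s1
  have e1 : (2 * (X : ℝ) + (vp (w + X) - vp w : ℕ)) * Real.log 2 =
    2 * X * Real.log 2 + (vp (w + X) - vp w : ℕ) * Real.log 2 := by ring
  rw [e1]
  linarith

end Pool.PC
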