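import Pool.Agent.H68.KG.FltS
import Pool.Agent.H83.UEG.TwoW

/-!
# Flat cells: the two telescopes (statements)

A cell with a constant frame. `tb0`: velocity and position in the context `(w, q)`, telescoped over
the windows at a fixed scale `q`. `ttm`: the times of two samples of one line, and the line,
telescoped over the scales `q` at a fixed window.
-/

set_option autoImplicit false

namespace Pool.PC

open Finset Real
open Pool.Agent.H49.Ent Pool.Agent.H32.Dense Pool.STK Pool.KA Pool.KSAT Pool.K2S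
open Pool.S6U Pool.UEG Pool.OCG

variable {J : ℕ}

/-- The velocity and the position in the context `(w, q)` (the hypothesis `b0` of the flat step). -/
noncomputable def tb0 (F : Fam 2 J) (p : F.Ω → ℝ) (σ : Fin 2 → Fin 2) (v : ℕ) (a : F.Ω → ℝ)
    (X w q : ℕ) : ℝ :=
  dp p (fun ω => (Uni.dg X (fun ω => F.md (cv2 v q) (frm2 σ a) ω 0) ω,
      Uni.dg X (fun ω => F.md (cv2 v q) (frm2 σ a) ω 1) ω))
    (fun ω => (Uni.dg X (fun ω => F.mx w (cv2 v q) (frm2 σ a) ω 0) ω,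
      Uni.dg X (fun ω => F.mx w (cv2 v q) (frm2 σ a) ω 1) ω))
    (fun ω => (F.blb w (cv2 v q) (frm2 σ a) ω, F.T ω))

/-- The times of two samples of one line and the line (the hypothesis `tm` of the flat step). -/
noncomputable def ttm (F : Fam 2 J) (p : F.Ω → ℝ) (σ : Fin 2 → Fin 2) (v D : ℕ) (a al : F.Ω → ℝ)
    (X w q : ℕ) : ℝ :=
  dp (dbl p (slam F w)) (fun x => (F.T x.1, (Uni.dg D al x.2, F.T x.2)))
    (fun x => F.lbr w (cv2 v q) (frm2 σ a) X x.1) (fun x => F.blb w (cv2 v q) (frm2 σ a) x.1)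

/-- **(B0)** The telescope over the windows `s + j X` at the scale `q`. -/
def B0Stmt : Prop :=
  ∃ C : ℝ, 0 ≤ C ∧ ∀ {J : ℕ} (F : Fam 2 J) (p : F.Ω → ℝ) (σ : Fin 2 → Fin 2) (wa wb v D : ℕ)
    (a al : F.Ω → ℝ) (X q s N : ℕ), Rc2 F p σ wa wb (fun _ => v) D (fun _ => a) al →
    wa ≤ s → s + N * X ≤ wb →
    ∑ j ∈ Finset.range N, tb0 F p σ v a X (s + j * X) q ≤ 2 * (X * Real.log 2) + C * (N + 1)

/-- **(TM)** The telescope over the scales `s + j X` at the window `w`. -/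
def TmStmt : Prop :=
  ∃ C : ℝ, 0 ≤ C ∧ ∀ {J : ℕ} (F : Fam 2 J) (p : F.Ω → ℝ) (σ : Fin 2 → Fin 2)
    (wa wb v D R : ℕ) (a al : F.Ω → ℝ) (X w s N : ℕ),
    Rc2 F p σ wa wb (fun _ => v) D (fun _ => a) al → wa ≤ w → w ≤ wb → wb ≤ R → R ≤ J →
    Det p (F.T1 R) F.T →
    ∑ j ∈ Finset.range N, ttm F p σ v D a al X w (s + j * X) ≤
      (2 * ((R : ℝ) - w) + ((D : ℝ) - v)) * Real.log 2 + C

end Pool.PC
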