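import Pool.Agent.H64.PC.Flat
import Pool.Agent.H48.PC.FltR
import Pool.Agent.H83.PC.Sin
import Pool.Agent.H55.PC.FlatFr

/-!
# THETA: the full step on a flat cell

`flat_cell`: a cell of windows where the level of the frame is almost constant on parts of length
`C X`. On every part the theorem on rectangles is applied with the constant frame of the first
window; outside a small set of pairs `(w, q)` the step from the window `w` to the window `w + X` is
full.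
-/

set_option autoImplicit false

namespace Pool.PC

open Finset Real
open Pool.Agent.H49.Ent Pool.Agent.H32.Dense Pool.STK Pool.KA Pool.KSAT Pool.K2S
open Pool.UEG Pool.OCG Pool.FLT

namespace Snf

/-- The bad pairs of the parts of a cell. -/
theorem sub_bad (wa wb qa qb L X : ℕ) (hL : 0 < L) (B' : ℕ → Finset (ℕ × ℕ)) :
    ∃ B : Finset (ℕ × ℕ), B ⊆ Ico wa wb ×ˢ Ico qa qb ∧
      B.card ≤ (L + X * ((wb - wa) / L)) * (qb - qa) +
        ∑ j ∈ range ((wb - wa) / L), (B' j).card ∧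
      ∀ w q, wa ≤ w → w < wb → qa ≤ q → q < qb → (w, q) ∉ B →
        ∃ j < (wb - wa) / L, wa + j * L ≤ w ∧ w + X ≤ wa + (j + 1) * L ∧
          wa + (j + 1) * L ≤ wb ∧ (w, q) ∉ B' j := by
  classical
  obtain ⟨M, hM⟩ : ∃ M, M = (wb - wa) / L := ⟨_, rfl⟩
  have hM1 : M * L ≤ wb - wa := by rw [hM]; exact Nat.div_mul_le_self _ _
  have hM2 : wb - wa < (M + 1) * L := by
    rw [hM, mul_comm]
    exact Nat.lt_mul_div_succ _ hL
  rw [← hM]
  obtain ⟨S₁, hS₁⟩ : ∃ S, S = Ico (wa + M * L) wb ×ˢ Ico qa qb := ⟨_, rfl⟩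
  obtain ⟨S₂, hS₂⟩ : ∃ S, S = (range M).biUnion (fun j =>
    Ico (wa + (j + 1) * L - X) (wa + (j + 1) * L) ×ˢ Ico qa qb) := ⟨_, rfl⟩
  obtain ⟨S₃, hS₃⟩ : ∃ S, S = (range M).biUnion B' := ⟨_, rfl⟩
  refine ⟨(S₁ ∪ (S₂ ∪ S₃)).filter (fun x => x ∈ Ico wa wb ×ˢ Ico qa qb),
    fun x hx => (mem_filter.1 hx).2, ?_, ?_⟩
  · have h1 : S₁.card ≤ L * (qb - qa) := by
      rw [hS₁, card_product, Nat.card_Ico, Nat.card_Ico]
      refine Nat.mul_le_mul_right _ ?_
      have : (M + 1) * L = M * L + L := by ring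
      omega
    have h2 : S₂.card ≤ X * M * (qb - qa) := by
      rw [hS₂]
      refine card_biUnion_le.trans ?_
      have h3 : ∀ j ∈ range M, (Ico (wa + (j + 1) * L - X) (wa + (j + 1) * L) ×ˢ
          Ico qa qb).card ≤ X * (qb - qa) := by
        intro j _
        rw [card_product, Nat.card_Ico, Nat.card_Ico]
        exact Nat.mul_le_mul_right _ (by omega)
      refine (sum_le_sum h3).trans (le_of_eq ?_)
      rw [sum_const, card_range, smul_eq_mul]
      ring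
    have h3 : S₃.card ≤ ∑ j ∈ range M, (B' j).card := by
      rw [hS₃]
      exact card_biUnion_le
    have h4 := card_filter_le (S₁ ∪ (S₂ ∪ S₃)) (fun x => x ∈ Ico wa wb ×ˢ Ico qa qb)
    have h5 := card_union_le S₁ (S₂ ∪ S₃)
    have h6 := card_union_le S₂ S₃
    have e : (L + X * M) * (qb - qa) = L * (qb - qa) + X * M * (qb - qa) := by ring
    rw [e]
    omega
  · intro w q h1 h2 h3 h4 hwq
    have hU : (w, q) ∉ S₁ ∪ (S₂ ∪ S₃) := fun h => hwq (mem_filter.2 ⟨h, mem_product.2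
      ⟨mem_Ico.2 ⟨h1, h2⟩, mem_Ico.2 ⟨h3, h4⟩⟩⟩)
    rw [mem_union, mem_union] at hU
    push Not at hU
    obtain ⟨u1, u2, u3⟩ := hU
    obtain ⟨j, hj⟩ : ∃ j, j = (w - wa) / L := ⟨_, rfl⟩
    have hj1 : j * L ≤ w - wa := by rw [hj]; exact Nat.div_mul_le_self _ _
    have hj2 : w - wa < (j + 1) * L := by
      rw [hj, mul_comm]
      exact Nat.lt_mul_div_succ _ hL
    have hjM : j < M := by
      by_contra h
      have h5 : M * L ≤ j * L := Nat.mul_le_mul_right L (not_lt.1 h)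
      refine u1 ?_
      rw [hS₁]
      exact mem_product.2 ⟨mem_Ico.2 ⟨by show wa + M * L ≤ w; omega, h2⟩, mem_Ico.2 ⟨h3, h4⟩⟩
    have h6 : (j + 1) * L ≤ M * L := Nat.mul_le_mul_right L hjM
    refine ⟨j, hjM, by omega, ?_, by omega, ?_⟩
    · by_contra h
      refine u2 ?_
      rw [hS₂]
      refine mem_biUnion.2 ⟨j, mem_range.2 hjM, mem_product.2 ⟨mem_Ico.2 ⟨?_, ?_⟩,
        mem_Ico.2 ⟨h3, h4⟩⟩⟩
      · show wa + (j + 1) * L - X ≤ w
        omega
      · show w < wa + (j + 1) * L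
        omega
    · intro h
      refine u3 ?_
      rw [hS₃]
      exact mem_biUnion.2 ⟨j, mem_range.2 hjM, h⟩

/-- The time rounded to `R` digits is a function of its first `R` digits. -/
theorem cot_det {J : ℕ} (F : Fam 2 J) (R : ℕ) : Det F.p ((F.cot R).T1 R) (F.cot R).T := by
  intro ω ω' _ _ e
  have e1 : F.T1 R ω = F.T1 R ω' := by
    have h1 := Cot.T1_eq F (le_refl R) ω
    have h2 := Cot.T1_eq F (le_refl R) ω'
    rw [← h1, ← h2]
    exact e
  show 2 ^ (J - R) * (F.T ω / 2 ^ (J - R)) = 2 ^ (J - R) * (F.T ω' / 2 ^ (J - R))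
  exact congrArg (fun x => 2 ^ (J - R) * x) e1

end Snf

/-- **The full step on a flat cell.** -/
theorem flat_cell (hR : FlatRectStmt) (K : ℝ) (hK : 0 ≤ K) : ∀ (ε ca ρ : ℝ), 0 < ε → 0 < ca →
    0 < ρ → ∃ (x₀ ϖ κ ε₁ εN : ℝ), 0 < x₀ ∧ x₀ ≤ 1 ∧ 0 < ϖ ∧ 0 < κ ∧ κ ≤ 1 ∧ 0 < ε₁ ∧ 0 < εN ∧
    ∀ k' : ℕ, ∃ (γ : ℝ) (C X₀ : ℕ), 0 < γ ∧ γ ≤ 1 ∧ 1 ≤ C ∧
    ∀ {J : ℕ} (F : Fam 2 J) (σ : Fin 2 → Fin 2) (wa wb : ℕ) (l : ℕ → ℕ) (R : ℕ)
      (a : ℕ → F.Ω → ℝ) (al : F.Ω → ℝ) (z : ℕ → F.Ω → Fin 2 → ℝ) (P : Type) (Pt : F.Ω → P)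
      (nB X qa qb : ℕ), X₀ ≤ X → Function.Injective σ → Lev F F.p al l 0 J a →
      wa ≤ wb → wb ≤ R → R ≤ J → (∀ w, wa ≤ w → w ≤ wb → Zof σ (a w) (z w)) →
      (C : ℝ) * X ≤ γ * (wb - wa : ℕ) → ((R - wa : ℕ) : ℝ) ≤ γ * (qb - qa : ℕ) →
      (∀ w w' : ℕ, wa ≤ w → w ≤ w' → w' ≤ wb → (w' : ℝ) ≤ w + C * X →
        (l w' : ℝ) ≤ l w + x₀ * X) →
      PtD (F.cot R) F.p σ al Pt R nB J K →
      ∃ B : Finset (ℕ × ℕ), B ⊆ Ico wa wb ×ˢ Ico qa qb ∧
        (B.card : ℝ) ≤ ρ * ((wb - wa : ℕ) * (qb - qa : ℕ)) ∧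
        ∀ w q, wa ≤ w → w < wb → qa ≤ q → q < qb → (w, q) ∉ B → w + X ≤ wb ∧
          (∑ i ∈ range X, nr F.p (slam (F.cot R) w) ((F.cot R).wt w) k' i ≤ εN * X →
            Pe (dbl F.p (slam F w))
              (fun u => |al u.1 - al u.2| ≤ 2 ^ (-((l w : ℝ) + x₀ * X))) ≤ ε₁ →
            (∀ E : F.Ω → Prop, ϖ ≤ Pe F.p E → ca * ⌊κ * X⌋₊ * Real.log 2 ≤
              CH (Pool.Agent.H49.Ent.cond F.p E True)
                (fun ω => ⌊(2 : ℝ) ^ (q + ⌊κ * X⌋₊) * F.d ω (σ 0)⌋)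
                (fun ω => (Pt ω, ⌊(2 : ℝ) ^ q * F.d ω (σ 0)⌋))) →
            q + l w + X ≤ nB → q + l (w + X) + (w + X) ≤ J →
            cVol J (w + X) q (l (w + X)) - cVol J w q (l w) - ε * X ≤
              cNf F (w + X) q (l (w + X)) (σ 0) (z (w + X)) - cNf F w q (l w) (σ 0) (z w)) := by
  classical
  intro ε ca ρ hε hca hρ
  obtain ⟨Cf, hCf, hfl⟩ := flat_cN 2 (by norm_num)
  have hu0 : 0 < Real.log 2 := Real.log_pos (by norm_num)
  have hu1 : Real.log 2 ≤ 1 := by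
    have := Real.log_two_lt_d9
    linarith only [hu0, this]
  obtain ⟨ε', hε'⟩ : ∃ e : ℝ, e = ε / 4 := ⟨_, rfl⟩
  have hε'0 : 0 < ε' := by rw [hε']; positivity
  obtain ⟨x₁, ϖ, ε₂, κ, εN, hx₁, hϖ, hε₂, hκ, hκ1, hεN, hrect⟩ :=
    hR ε' ca K (ρ / 8) hε'0 hca hK (by positivity)
  obtain ⟨x₀, hx₀⟩ : ∃ x : ℝ, x = min (min (ε / 28) (x₁ / 4)) 1 := ⟨_, rfl⟩
  have hx₀0 : 0 < x₀ := by
    rw [hx₀]
    exact lt_min (lt_min (by positivity) (by positivity)) one_pos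
  have hx₀1 : x₀ ≤ 1 := by rw [hx₀]; exact min_le_right _ _
  have hx₀ε : x₀ ≤ ε / 28 := by rw [hx₀]; exact (min_le_left _ _).trans (min_le_left _ _)
  have hx₀x : x₀ ≤ x₁ / 4 := by rw [hx₀]; exact (min_le_left _ _).trans (min_le_right _ _)
  refine ⟨x₀, ϖ, κ, ε₂, εN, hx₀0, hx₀1, hϖ, hκ, hκ1, hε₂, hεN, ?_⟩
  intro k'
  obtain ⟨γr, X₁, hγr, -, hrect⟩ := hrect k'
  obtain ⟨γ, hγ⟩ : ∃ g : ℝ, g = min (min γr 1) (ρ / 8) := ⟨_, rfl⟩
  have hγ0 : 0 < γ := by
    rw [hγ]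
    exact lt_min (lt_min hγr one_pos) (by positivity)
  have hγγr : γ ≤ γr := by rw [hγ]; exact (min_le_left _ _).trans (min_le_left _ _)
  have hγ1 : γ ≤ 1 := by rw [hγ]; exact (min_le_left _ _).trans (min_le_right _ _)
  have hγρ : γ ≤ ρ / 8 := by rw [hγ]; exact min_le_right _ _
  obtain ⟨C, hC⟩ := exists_nat_ge (max (max (1 / γr) (8 / ρ)) (x₁ + 4))
  have hC1 : 1 / γr ≤ C := (le_max_left _ _).trans ((le_max_left _ _).trans hC)
  have hC2 : 8 / ρ ≤ C := (le_max_right _ _).trans ((le_max_left _ _).trans hC)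
  have hC3 : x₁ + 4 ≤ C := (le_max_right _ _).trans hC
  have hC4 : 1 ≤ C := by
    have : (1 : ℝ) ≤ C := by linarith only [hx₀0, hx₀x, hC3]
    exact_mod_cast this
  obtain ⟨X₂, hX₂⟩ := exists_nat_ge (max (4 * Cf / ε) (2 / x₁))
  refine ⟨γ, C, X₁ + X₂ + 1, hγ0, hγ1, hC4, ?_⟩
  intro J F σ wa wb l R a al z P Pt nB X qa qb hX hσ hLev hwab hwR hRJ hz hCX hRq hflat hPt
  have hX1 : 1 ≤ X := by omega
  have hXr : (1 : ℝ) ≤ X := by exact_mod_cast hX1
  have hX2 : (X₂ : ℝ) ≤ X := by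
    have : X₂ ≤ X := by omega
    exact_mod_cast this
  have hXf : Cf ≤ ε / 4 * X := by
    have h1 : 4 * Cf / ε ≤ X := (le_max_left _ _).trans (hX₂.trans hX2)
    rw [div_le_iff₀ hε] at h1
    linarith only [h1]
  have hXx : 2 ≤ x₁ * X := by
    have h1 : 2 / x₁ ≤ X := (le_max_right _ _).trans (hX₂.trans hX2)
    rw [div_le_iff₀ hx₁] at h1
    linarith only [h1]
  have hQ0 : (0 : ℝ) ≤ (qb - qa : ℕ) := Nat.cast_nonneg _
  have hW0 : (0 : ℝ) ≤ (wb - wa : ℕ) := Nat.cast_nonneg _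
  have hwJ : wb ≤ J := hwR.trans hRJ
  obtain ⟨L, hL⟩ : ∃ L, L = C * X := ⟨_, rfl⟩
  have hL0 : 0 < L := by
    rw [hL]
    exact Nat.mul_pos hC4 hX1
  have hLr : (L : ℝ) = C * X := by rw [hL]; push_cast; ring
  have hp := F.isLaw
  -- the constant frames
  obtain ⟨y, hy⟩ : ∃ y, y = ⌈x₁ * X⌉₊ := ⟨_, rfl⟩
  have hy1 : x₁ * X ≤ y := by rw [hy]; exact Nat.le_ceil _
  have hy2 : (y : ℝ) < x₁ * X + 1 := by
    rw [hy]
    exact Nat.ceil_lt_add_one (by positivity)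
  obtain ⟨Dj, hDj⟩ : ∃ D : ℕ → ℕ, D = fun j => l (wa + j * L) + (X + y + 1) := ⟨_, rfl⟩
  have hRc : ∀ j, wa + (j + 1) * L ≤ wb → Rc2 F F.p σ (wa + j * L) (wa + (j + 1) * L)
      (fun _ => l (wa + j * L)) (Dj j) (fun _ => a (wa + j * L)) al := by
    intro j hj
    have e : (j + 1) * L = j * L + L := by ring
    refine hLev.rcc hp hσ (Nat.zero_le _) (by omega) (by omega) ?_
    rw [hDj]
    exact Nat.le_add_right _ _
  -- the sets on the parts
  have hex : ∀ j, ∃ B' : Finset (ℕ × ℕ), wa + (j + 1) * L ≤ wb →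
      (B'.card : ℝ) ≤ ρ / 8 * ((L + 1 : ℕ) * (qb - qa : ℕ)) ∧
      ∀ w q, wa + j * L ≤ w → w + X ≤ wa + (j + 1) * L → qa ≤ q → q < qb → (w, q) ∉ B' →
        l (wa + j * L) + q + X ≤ nB → l (wa + j * L) + q + w + X ≤ J →
        ∑ i ∈ range X, nr F.p (slam (F.cot R) w) ((F.cot R).wt w) k' i ≤ εN * X →
        Pool.KAF.Pr (dbl F.p (slam (F.cot R) w))
          {u | |sl2 (F := F.cot R) (l (wa + j * L)) (Dj j) (a (wa + j * L)) al u.2 -
            sl2 (F := F.cot R) (l (wa + j * L)) (Dj j) (a (wa + j * L)) al u.1| <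
              (2 : ℝ) ^ (-(x₁ * X))} ≤ ε₂ →
        (∀ E : F.Ω → Prop, ϖ ≤ Pe F.p E → ca * ⌊κ * X⌋₊ * Real.log 2 ≤
          CH (Pool.Agent.H49.Ent.cond F.p E True)
            (fun ω => ⌊(2 : ℝ) ^ (q + ⌊κ * X⌋₊) * F.d ω (σ 0)⌋)
            (fun ω => (Pt ω, ⌊(2 : ℝ) ^ q * F.d ω (σ 0)⌋))) →
        Cc2 (F.cot R) F.p σ (fun _ => l (wa + j * L)) (Dj j) (fun _ => a (wa + j * L)) al X ε'
          w q := by
    intro j
    by_cases hj : wa + (j + 1) * L ≤ wb
    · have e : (j + 1) * L = j * L + L := by ring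
      have eW : (wa + (j + 1) * L + 1 - (wa + j * L) : ℕ) = L + 1 := by omega
      have hqab : qa ≤ qb := by
        by_contra h
        have h1 : qb - qa = 0 := by omega
        rw [h1, Nat.cast_zero, mul_zero] at hRq
        have h2 : ((R - wa : ℕ) : ℝ) ≤ 0 := hRq
        have h3 : R - wa = 0 := by
          have : R - wa ≤ 0 := by exact_mod_cast h2
          omega
        omega
      have hLQ : (L : ℝ) ≤ γ * (qb - qa : ℕ) := by
        have h1 : ((L : ℕ) : ℝ) ≤ (R - wa : ℕ) := by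
          have : L ≤ R - wa := by omega
          exact_mod_cast this
        exact h1.trans hRq
      have hCXL : (x₁ + 4) * X ≤ L := by
        rw [hLr]
        exact mul_le_mul_of_nonneg_right hC3 (by linarith only [hXr])
      have hγQ : γ * (qb - qa : ℕ) ≤ γr * (qb - qa : ℕ) := mul_le_mul_of_nonneg_right hγγr hQ0
      have hXL : (X : ℝ) ≤ L := by nlinarith only [hXr, hXx, hCXL]
      obtain ⟨B', -, h1, h2⟩ := hrect J (F.cot R) F.p σ (wa + j * L) (wa + (j + 1) * L)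
        (l (wa + j * L)) (Dj j) R (a (wa + j * L)) al P Pt nB J X qa qb (by omega)
        (Rc2.cot (hRc j hj) (by omega)) (by
          refine ⟨by omega, hqab, by omega, hRJ, ?_, ?_, ?_, ?_, ?_⟩
          · rw [hDj]
            simp only
            omega
          · rw [eW]
            push_cast
            rw [div_le_iff₀ hγr] at hC1
            have h3 : (1 : ℝ) * X ≤ C * γr * X := mul_le_mul_of_nonneg_right hC1 (by linarith only [hXr])
            rw [hLr]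
            nlinarith only [hγr, h3]
          · exact hXL.trans (hLQ.trans hγQ)
          · have e1 : Dj j - l (wa + j * L) = X + y + 1 := by
              rw [hDj]
              simp only
              omega
            rw [e1]
            push_cast
            refine le_trans ?_ (hLQ.trans hγQ)
            refine le_trans ?_ hCXL
            nlinarith only [hXr, hy2]
          · refine le_trans ?_ (hRq.trans hγQ)
            have : R - (wa + j * L) ≤ R - wa := by omega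
            exact_mod_cast this) (Snf.cot_det F R) hPt
      refine ⟨B', fun _ => ⟨?_, ?_⟩⟩
      · rw [eW] at h1
        exact h1
      · intro w q k1 k2 k3 k4 k5 k6 k7 k8 k9 k10
        exact h2 w q k1 k2 k3 k4 k5 k6 k7 ⟨k8, k9, k10⟩
    · exact ⟨∅, fun h => absurd h hj⟩
  choose B' hB' using hex
  obtain ⟨B, hB1, hB2, hB3⟩ := Snf.sub_bad wa wb qa qb L X hL0 B'
  have hMr : (((wb - wa) / L : ℕ) : ℝ) * L ≤ (wb - wa : ℕ) := by
    have := Nat.div_mul_le_self (wb - wa) L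
    exact_mod_cast this
  have hMj : ∀ j, j < (wb - wa) / L → wa + (j + 1) * L ≤ wb := by
    intro j hj
    have h1 : (j + 1) * L ≤ (wb - wa) / L * L := Nat.mul_le_mul_right L hj
    have h2 := Nat.div_mul_le_self (wb - wa) L
    omega
  refine ⟨B, hB1, ?_, ?_⟩
  · -- the count
    obtain ⟨M, hM⟩ : ∃ M, M = (wb - wa) / L := ⟨_, rfl⟩
    rw [← hM] at hB2 hMr hMj
    obtain ⟨W, hW⟩ : ∃ W : ℝ, W = (wb - wa : ℕ) := ⟨_, rfl⟩
    obtain ⟨Q, hQ⟩ : ∃ Q : ℝ, Q = (qb - qa : ℕ) := ⟨_, rfl⟩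
    have h1 : (B.card : ℝ) ≤ (L + X * M) * Q + ∑ j ∈ range M, ((B' j).card : ℝ) := by
      have h2 : ((B.card : ℕ) : ℝ) ≤ (((L + X * M) * (qb - qa) +
        ∑ j ∈ range M, (B' j).card : ℕ) : ℝ) := by exact_mod_cast hB2
      push_cast at h2
      rw [hQ]
      exact h2
    have h2 : ∑ j ∈ range M, ((B' j).card : ℝ) ≤ M * (ρ / 8 * ((L + 1 : ℕ) * Q)) := by
      have h3 : ∀ j ∈ range M, ((B' j).card : ℝ) ≤ ρ / 8 * ((L + 1 : ℕ) * Q) := by
        intro j hj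
        rw [hQ]
        exact (hB' j (hMj j (mem_range.1 hj))).1
      refine (sum_le_sum h3).trans (le_of_eq ?_)
      rw [sum_const, card_range, nsmul_eq_mul]
    rw [← hW] at hCX hMr hW0 ⊢
    rw [← hQ] at hQ0 ⊢
    have hMr0 : (0 : ℝ) ≤ M := Nat.cast_nonneg _
    have hL1 : (1 : ℝ) ≤ L := by exact_mod_cast hL0
    have k1 : (L : ℝ) ≤ ρ / 8 * W := by
      rw [hLr]
      exact hCX.trans (mul_le_mul_of_nonneg_right hγρ hW0)
    have k2 : (X : ℝ) * M ≤ ρ / 8 * W := by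
      rw [div_le_iff₀ hρ] at hC2
      have h3 : (8 : ℝ) * (X * M) ≤ C * ρ * (X * M) :=
        mul_le_mul_of_nonneg_right hC2 (mul_nonneg (by linarith only [hXr]) hMr0)
      have h4 : (C : ℝ) * ρ * (X * M) = ρ * (M * L) := by rw [hLr]; ring
      have h5 : ρ * (M * L) ≤ ρ * W := mul_le_mul_of_nonneg_left hMr hρ.le
      linarith only [h3, h4, h5]
    have k3 : (M : ℝ) * (L + 1 : ℕ) ≤ 2 * W := by
      push_cast
      have h3 : (M : ℝ) * 1 ≤ M * L := mul_le_mul_of_nonneg_left hL1 hMr0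
      linarith only [hMr, h3]
    have k4 : (L + X * M) * Q ≤ (ρ / 8 * W + ρ / 8 * W) * Q :=
      mul_le_mul_of_nonneg_right (add_le_add k1 k2) hQ0
    have k5 : (M : ℝ) * (ρ / 8 * ((L + 1 : ℕ) * Q)) ≤ ρ / 8 * (2 * W) * Q := by
      have h3 : (M : ℝ) * (ρ / 8 * ((L + 1 : ℕ) * Q)) = ρ / 8 * (M * (L + 1 : ℕ)) * Q := by ring
      rw [h3]
      exact mul_le_mul_of_nonneg_right (mul_le_mul_of_nonneg_left k3 (by positivity)) hQ0
    have k6 : 0 ≤ ρ * (W * Q) := mul_nonneg hρ.le (mul_nonneg hW0 hQ0)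
    nlinarith only [h1, h2, k4, k5]
  · intro w q h1 h2 h3 h4 hwq
    obtain ⟨j, hjM, hj1, hj2, hj3, hj4⟩ := hB3 w q h1 h2 h3 h4 hwq
    refine ⟨by omega, fun htim hth hact hnB hJ => ?_⟩
    have hwwJ : w ≤ J := by omega
    have hwR' : w ≤ R := by omega
    have e : (j + 1) * L = j * L + L := by ring
    have hl1 : l (wa + j * L) ≤ l w := hLev.mono _ _ (Nat.zero_le _) hj1 hwwJ
    have hl2 : l w ≤ l (w + X) := hLev.mono _ _ (Nat.zero_le _) (Nat.le_add_right _ _) (by omega)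
    have hflw : ∀ u, wa + j * L ≤ u → u ≤ wa + (j + 1) * L →
        (l u : ℝ) ≤ l (wa + j * L) + x₀ * X := by
      intro u hu1 hu2
      refine hflat (wa + j * L) u (by omega) hu1 (by omega) ?_
      rw [← hLr]
      have : u ≤ wa + j * L + L := by omega
      exact_mod_cast this
    have hD : (l (wa + j * L) : ℝ) + x₁ * X + 1 ≤ Dj j := by
      rw [hDj]
      push_cast
      linarith only [hXr, hy1]
    -- the frames of two times
    have hthc : Pool.KAF.Pr (dbl F.p (slam (F.cot R) w))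
          {u | |sl2 (F := F.cot R) (l (wa + j * L)) (Dj j) (a (wa + j * L)) al u.2 -
            sl2 (F := F.cot R) (l (wa + j * L)) (Dj j) (a (wa + j * L)) al u.1| <
              (2 : ℝ) ^ (-(x₁ * X))} ≤ ε₂ := by
      have hs : slam (F.cot R) w = slam F w := Cot.slam_fun F hwR'
      rw [hs]
      obtain ⟨ψ, hψ⟩ := hLev.cl (wa + j * L) (Nat.zero_le _) (by omega)
      have k1 := sl2_of_pair (F := F) (p := F.p) hp (al := al) (b := a (wa + j * L)) (w := w)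
        (v := l (wa + j * L)) (D := Dj j)
        (fun ω ω' _ _ hs => by rw [hψ, hψ, slam_fun hj1 hwwJ hs])
        (y := (l w : ℝ) + x₀ * X) (xX := x₁ * X) (ε₁ := ε₂) (E := fun _ => True)
        (by rw [Pe_true hp]; exact one_pos)
        (by rw [cond_true hp]; exact hth)
        (by
          have h5 := hflw w hj1 (by omega)
          have h6 : x₀ * X ≤ x₁ / 4 * X := mul_le_mul_of_nonneg_right hx₀x (by linarith only [hXr])
          linarith only [hXx, h5, h6]) hD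
      rw [cond_true hp] at k1
      exact k1
    have hcc := (hB' j hj3).2 w q hj1 hj2 h3 h4 hj4 (by omega) (by omega) htim hthc hact
    -- the frames of the windows
    have hzu : ∀ u, u = w ∨ u = w + X → (∀ ω i, ∃ k : ℤ, z u ω i = k / 2 ^ l u) ∧
        (∀ ω, z u ω (σ 0) = 0) ∧ Det F.p (slam F u) (z u) ∧
        ∀ ω, 0 < F.p ω → |al ω - z u ω (σ 1)| ≤ 2 / 2 ^ l u := by
      intro u hu
      have hu1 : wa ≤ u := by rcases hu with h | h <;> omega
      have hu2 : u ≤ wb := by rcases hu with h | h <;> omega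
      have hZ := hz u hu1 hu2
      refine ⟨fun ω i => ?_, fun ω => (hZ ω).1, fun ω ω' _ _ hs => ?_, fun ω hω => ?_⟩
      · rcases Stp.sg_cases hσ i with hi | hi
        · exact ⟨0, by rw [hi, (hZ ω).1]; simp⟩
        · rw [hi, (hZ ω).2]
          exact hLev.grid u ω
      · obtain ⟨ψ, hψ⟩ := hLev.cl u (Nat.zero_le _) (by omega)
        funext i
        rcases Stp.sg_cases hσ i with hi | hi
        · rw [hi, (hZ ω).1, (hZ ω').1]
        · rw [hi, (hZ ω).2, (hZ ω').2, hψ, hψ, hs]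
      · rw [(hZ ω).2]
        exact hLev.near u (Nat.zero_le _) (by omega) ω hω
    obtain ⟨yy, hyy⟩ : ∃ yy, yy = ⌊x₀ * X⌋₊ := ⟨_, rfl⟩
    have hyy1 : (yy : ℝ) ≤ x₀ * X := by
      rw [hyy]
      exact Nat.floor_le (by positivity)
    have hvy : l (w + X) ≤ l (wa + j * L) + yy := by
      have h5 := hflw (w + X) (by omega) hj2
      have h6 : ((l (w + X) - l (wa + j * L) : ℕ) : ℝ) ≤ x₀ * X := by
        rw [Nat.cast_sub (hl1.trans hl2)]
        linarith only [h5]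
      have h7 : l (w + X) - l (wa + j * L) ≤ yy := by
        rw [hyy]
        exact Nat.le_floor h6
      omega
    have key := hfl F σ (wa + j * L) (wa + (j + 1) * L) (l (wa + j * L)) (Dj j) R
      (a (wa + j * L)) al X q w yy ε' l z hε'0.le hRJ (Rc2.cot (hRc j hj3) (by omega))
      (fun ω => hLev.grid (wa + j * L) ω) hj1 hj2 (by omega) hzu hl1 hl2 hvy hJ hcc
    have e1 : ε' * X * Real.log 2 ≤ ε / 4 * X := by
      rw [hε']
      have h5 : 0 ≤ ε / 4 * X := by positivity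
      have h6 := mul_le_mul_of_nonneg_left hu1 h5
      linarith only [h6]
    have e2 : 7 * (yy * Real.log 2) ≤ ε / 4 * X := by
      have h5 : (yy : ℝ) * Real.log 2 ≤ yy * 1 :=
        mul_le_mul_of_nonneg_left hu1 (Nat.cast_nonneg _)
      have h6 : x₀ * X ≤ ε / 28 * X := mul_le_mul_of_nonneg_right hx₀ε (by linarith only [hXr])
      linarith only [hyy1, h5, h6]
    have e3 : 0 ≤ ε / 4 * X := by positivity
    linarith only [hCf, hXf, key, e1, e2]

end Pool.PC
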